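import Mathlib

/-!
Regular unimodular triangulations of finite sets of lattice points: definitions and invariance.
-/

namespace Pool.Agent.LHT

open Classical in
/-- the points of `S` at which the affine function `φ + b` touches the height function `ω` -/
noncomputable def contact {Λ : Type} [AddCommGroup Λ] (S : Finset Λ) (ω : Λ → ℝ) (φ : Λ →+ ℝ)
    (b : ℝ) : Finset Λ :=
  S.filter (fun v => φ v + b = ω v)

/-- only the zero affine function vanishes on `C` -/
def Spans {Λ : Type} [AddCommGroup Λ] (C : Finset Λ) : Prop :=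
  ∀ (φ : Λ →+ ℝ) (b : ℝ), (∀ v ∈ C, φ v + b = 0) → φ = 0 ∧ b = 0

open Classical in
/-- unimodular simplex, given by integral barycentric coordinates -/
def Uni {Λ : Type} [AddCommGroup Λ] (C : Finset Λ) : Prop :=
  ∃ (ψ : Λ → Λ →+ ℤ) (c : Λ → ℤ),
    (∀ p ∈ C, ∀ q ∈ C, ψ p q + c p = if p = q then 1 else 0) ∧
    (∀ v, ∑ p ∈ C, (ψ p v + c p) = 1) ∧ ∀ v, ∑ p ∈ C, (ψ p v + c p) • p = v

/-- the heights `ω` give a regular unimodular triangulation -/
def RLw {Λ : Type} [AddCommGroup Λ] (S : Finset Λ) (ω : Λ → ℝ) : Prop :=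
  ∀ (φ : Λ →+ ℝ) (b : ℝ), (∀ v ∈ S, φ v + b ≤ ω v) → Spans (contact S ω φ b) →
    Uni (contact S ω φ b)

/-- there is a regular unimodular triangulation -/
def RL {Λ : Type} [AddCommGroup Λ] (S : Finset Λ) : Prop := ∃ ω : Λ → ℝ, RLw S ω

section
variable {Λ : Type} [AddCommGroup Λ]

theorem mem_contact {S : Finset Λ} {ω : Λ → ℝ} {φ : Λ →+ ℝ} {b : ℝ} {v : Λ} :
    v ∈ contact S ω φ b ↔ v ∈ S ∧ φ v + b = ω v := by
  classical
  unfold contact
  rw [Finset.mem_filter]

/-- a spanning subset of a unimodular simplex is the whole simplex -/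
theorem eq_of_spans {A C : Finset Λ} (hC : Uni C) (hA : A ⊆ C) (hs : Spans A) : A = C := by
  classical
  obtain ⟨ψ, c, h1, -, -⟩ := hC
  apply Finset.Subset.antisymm hA
  intro p hp
  by_contra hpA
  have h2 := hs ((Int.castAddHom ℝ).comp (ψ p)) (c p : ℝ) (by
    intro v hv
    have h3 := h1 p hp v (hA hv)
    rw [if_neg (by rintro rfl; exact hpA hv)] at h3
    show ((ψ p v : ℤ) : ℝ) + (c p : ℝ) = 0
    exact_mod_cast h3)
  have h4 := h1 p hp p hp
  rw [if_pos rfl] at h4
  have h5 : ((ψ p p : ℤ) : ℝ) = 0 := by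
    have := congrArg (fun f => f p) h2.1
    exact this
  have h6 : ψ p p = 0 := by exact_mod_cast h5
  have h7 : c p = 0 := by exact_mod_cast h2.2
  omega

/-- invariance under affine isomorphisms -/
theorem RL_affine {Λ' : Type} [AddCommGroup Λ'] (e : Λ ≃+ Λ') (v0 : Λ') {S : Finset Λ}
    {S' : Finset Λ'} (h : ∀ v, e v + v0 ∈ S' ↔ v ∈ S) (hS : RL S) : RL S' := by
  classical
  obtain ⟨ω, hω⟩ := hS
  refine ⟨fun w => ω (e.symm (w - v0)), ?_⟩
  intro φ b h1 h2
  have hinv : ∀ w : Λ', e (e.symm (w - v0)) + v0 = w := by intro w; simp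
  have hinv2 : ∀ v : Λ, e.symm (e v + v0 - v0) = v := by intro v; simp
  have hcon : ∀ v : Λ, v ∈ contact S ω (φ.comp e.toAddMonoidHom) (φ v0 + b) ↔
      e v + v0 ∈ contact S' (fun w => ω (e.symm (w - v0))) φ b := by
    intro v
    rw [mem_contact, mem_contact, h, hinv2]
    have : (φ.comp e.toAddMonoidHom) v + (φ v0 + b) = φ (e v + v0) + b := by
      rw [map_add]
      show φ (e v) + (φ v0 + b) = φ (e v) + φ v0 + b
      ring
    rw [this]
  have h3 : ∀ v ∈ S, (φ.comp e.toAddMonoidHom) v + (φ v0 + b) ≤ ω v := by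
    intro v hv
    have h4 := h1 (e v + v0) ((h v).mpr hv)
    simp only [hinv2] at h4
    rw [map_add] at h4
    show φ (e v) + (φ v0 + b) ≤ ω v
    linarith
  have h4 : Spans (contact S ω (φ.comp e.toAddMonoidHom) (φ v0 + b)) := by
    intro χ d hχ
    have h5 := h2 (χ.comp e.symm.toAddMonoidHom) (d - χ (e.symm v0)) (by
      intro w hw
      have h6 : e.symm (w - v0) ∈ contact S ω (φ.comp e.toAddMonoidHom) (φ v0 + b) := by
        rw [hcon, hinv]; exact hw
      have h7 := hχ _ h6
      rw [map_sub, map_sub] at h7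
      show χ (e.symm w) + (d - χ (e.symm v0)) = 0
      linarith)
    have h8 : χ = 0 := by
      ext v
      have := congrArg (fun f => f (e v)) h5.1
      simpa using this
    refine ⟨h8, ?_⟩
    have h9 := h5.2
    rw [h8] at h9
    simpa using h9
  obtain ⟨ψ, c, g1, g2, g3⟩ := hω _ _ h3 h4
  set C := contact S ω (φ.comp e.toAddMonoidHom) (φ v0 + b) with hC
  set C' := contact S' (fun w => ω (e.symm (w - v0))) φ b with hC'
  have hmem : ∀ w, w ∈ C' ↔ e.symm (w - v0) ∈ C := by
    intro w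
    rw [hcon, hinv]
  let ψ' : Λ' → Λ' →+ ℤ := fun w => (ψ (e.symm (w - v0))).comp e.symm.toAddMonoidHom
  let c' : Λ' → ℤ := fun w => c (e.symm (w - v0)) - ψ (e.symm (w - v0)) (e.symm v0)
  have hval : ∀ w u : Λ', ψ' w u + c' w
      = ψ (e.symm (w - v0)) (e.symm (u - v0)) + c (e.symm (w - v0)) := by
    intro w u
    show ψ (e.symm (w - v0)) (e.symm u) + (c (e.symm (w - v0))
      - ψ (e.symm (w - v0)) (e.symm v0)) = _
    rw [map_sub e.symm u v0, map_sub (ψ (e.symm (w - v0)))]
    ring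
  have hsum : ∀ {M : Type} [AddCommMonoid M] (F : Λ → M),
      ∑ p ∈ C', F (e.symm (p - v0)) = ∑ p ∈ C, F p := by
    intro M _ F
    apply Finset.sum_bij (fun w _ => e.symm (w - v0))
    · intro w hw; exact (hmem w).mp hw
    · intro w _ w' _ hww
      have := e.symm.injective hww
      exact sub_left_injective this
    · intro v hv
      exact ⟨e v + v0, (hcon v).mp hv, hinv2 v⟩
    · intro w _; rfl
  refine ⟨ψ', c', ?_, ?_, ?_⟩
  · intro p hp q hq
    rw [hval, g1 _ ((hmem p).mp hp) _ ((hmem q).mp hq)]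
    by_cases hpq : p = q
    · rw [if_pos hpq, if_pos (by rw [hpq])]
    · rw [if_neg hpq, if_neg]
      intro h5
      exact hpq (sub_left_injective (e.symm.injective h5))
  · intro v
    simp only [hval]
    rw [hsum (fun p => ψ p (e.symm (v - v0)) + c p)]
    exact g2 _
  · intro v
    simp only [hval]
    have h5 := g3 (e.symm (v - v0))
    have h6 := g2 (e.symm (v - v0))
    rw [← hsum (fun p => (ψ p (e.symm (v - v0)) + c p) • p)] at h5
    rw [← hsum (fun p => ψ p (e.symm (v - v0)) + c p)] at h6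
    have h7 : ∑ p ∈ C', (ψ (e.symm (p - v0)) (e.symm (v - v0)) + c (e.symm (p - v0))) • p
        = e (∑ p ∈ C', (ψ (e.symm (p - v0)) (e.symm (v - v0)) + c (e.symm (p - v0)))
            • e.symm (p - v0))
          + (∑ p ∈ C', (ψ (e.symm (p - v0)) (e.symm (v - v0)) + c (e.symm (p - v0)))) • v0 := by
      rw [map_sum, Finset.sum_smul, ← Finset.sum_add_distrib]
      apply Finset.sum_congr rfl
      intro p _
      rw [map_zsmul, e.apply_symm_apply, ← smul_add, sub_add_cancel]
    rw [h7, h5, h6]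
    simp

end

end Pool.Agent.LHT
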