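import Pool.Agent.LHT.Refine

set_option autoImplicit false

/-!
Regular unimodular triangulations of chimneys over unimodular simplices.
-/

namespace Pool.Agent.LHT

section
variable {Y : Type} [AddCommGroup Y]

lemma prod_split (φ : Y × ℤ →+ ℝ) (y : Y) (t : ℤ) :
    φ (y, t) = φ (y, 0) + t * φ (0, 1) := by
  have h1 : (y, t) = (y, 0) + t • ((0, 1) : Y × ℤ) := by
    ext <;> simp
  rw [h1, map_add, map_zsmul]
  simp

/-- the integral affine function with prescribed values on a unimodular simplex, second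
coordinate minus it -/
noncomputable def Wl (C : Finset Y) (ψ : Y → Y →+ ℤ) (T : Y → ℤ) : Y × ℤ →+ ℤ :=
  AddMonoidHom.snd Y ℤ - (∑ p ∈ C, T p • ψ p).comp (AddMonoidHom.fst Y ℤ)

noncomputable def Wc (C : Finset Y) (c : Y → ℤ) (T : Y → ℤ) : ℤ := - ∑ p ∈ C, T p * c p

lemma W_apply (C : Finset Y) (ψ : Y → Y →+ ℤ) (c : Y → ℤ) (T : Y → ℤ) (v : Y × ℤ) :
    Wl C ψ T v + Wc C c T = v.2 - ∑ p ∈ C, (ψ p v.1 + c p) * T p := by
  unfold Wl Wc
  have h1 : (∑ p ∈ C, T p • ψ p) v.1 = ∑ p ∈ C, T p * ψ p v.1 := by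
    rw [AddMonoidHom.finsetSum_apply]
    apply Finset.sum_congr rfl
    intro p _
    simp
  show v.2 - (∑ p ∈ C, T p • ψ p) v.1 + - ∑ p ∈ C, T p * c p = _
  rw [h1]
  have h2 : ∑ p ∈ C, (ψ p v.1 + c p) * T p =
      ∑ p ∈ C, T p * ψ p v.1 + ∑ p ∈ C, T p * c p := by
    rw [← Finset.sum_add_distrib]
    apply Finset.sum_congr rfl
    intro p _
    ring
  rw [h2]
  ring

lemma W_vertex [DecidableEq Y] (C : Finset Y) (ψ : Y → Y →+ ℤ) (c : Y → ℤ) (T : Y → ℤ)
    (h1 : ∀ p ∈ C, ∀ q ∈ C, ψ p q + c p = if p = q then 1 else 0) (q : Y) (hq : q ∈ C) (t : ℤ) :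
    Wl C ψ T (q, t) + Wc C c T = t - T q := by
  rw [W_apply]
  have h2 : ∑ p ∈ C, (ψ p q + c p) * T p = T q := by
    rw [Finset.sum_eq_single q]
    · rw [h1 q hq q hq, if_pos rfl, one_mul]
    · intro p hp hpq
      rw [h1 p hp q hq, if_neg hpq, zero_mul]
    · intro h
      exact absurd hq h
  rw [h2]

/-- a graph over a unimodular simplex plus one point above one of the vertices -/
lemma uni_graph [DecidableEq Y] (C : Finset Y) (hC : Uni C) (T : Y → ℤ) (p₀ : Y)
    (hp₀ : p₀ ∈ C) (K : Finset (Y × ℤ))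
    (hK : K = insert (p₀, T p₀ + 1) (C.image (fun p => (p, T p)))) : Uni K := by
  classical
  obtain ⟨ψ, c, h1', h2, h3⟩ := hC
  have h1 : ∀ p ∈ C, ∀ q ∈ C, ψ p q + c p = if p = q then 1 else 0 := by
    intro p hp q hq
    rw [h1' p hp q hq]
    by_cases hpq : p = q
    · rw [if_pos hpq, if_pos hpq]
    · rw [if_neg hpq, if_neg hpq]
  let ψK : Y × ℤ → Y × ℤ →+ ℤ := fun q =>
    if q = (p₀, T p₀ + 1) then Wl C ψ T
    else (ψ q.1).comp (AddMonoidHom.fst Y ℤ) - (if q.1 = p₀ then Wl C ψ T else 0)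
  let cK : Y × ℤ → ℤ := fun q =>
    if q = (p₀, T p₀ + 1) then Wc C c T
    else c q.1 - (if q.1 = p₀ then Wc C c T else 0)
  have hne : ∀ p, (p, T p) ≠ (p₀, T p₀ + 1) := by
    intro p hp
    have e1 : p = p₀ := congrArg Prod.fst hp
    have e2 : T p = T p₀ + 1 := congrArg Prod.snd hp
    rw [e1] at e2
    omega
  have hval1 : ∀ v, ψK (p₀, T p₀ + 1) v + cK (p₀, T p₀ + 1) = Wl C ψ T v + Wc C c T := by
    intro v
    simp only [ψK, cK, if_true]
  have hval2 : ∀ p v, ψK (p, T p) v + cK (p, T p) =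
      ψ p v.1 + c p - (if p = p₀ then Wl C ψ T v + Wc C c T else 0) := by
    intro p v
    simp only [ψK, cK, if_neg (hne p)]
    by_cases hp : p = p₀
    · simp only [if_pos hp]
      show ψ p v.1 - Wl C ψ T v + (c p - Wc C c T) = _
      ring
    · simp only [if_neg hp]
      show ψ p v.1 - 0 + (c p - 0) = _
      ring
  have hnotmem : (p₀, T p₀ + 1) ∉ C.image (fun p => (p, T p)) := by
    intro h
    obtain ⟨p, -, hp⟩ := Finset.mem_image.mp h
    exact hne p hp
  have hinj : Set.InjOn (fun p : Y => (p, T p)) (C : Set Y) := by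
    intro p _ q _ h
    exact congrArg Prod.fst h
  have hsum : ∀ {M : Type} [AddCommMonoid M] (F : Y × ℤ → M),
      ∑ q ∈ K, F q = F (p₀, T p₀ + 1) + ∑ p ∈ C, F (p, T p) := by
    intro M _ F
    rw [hK, Finset.sum_insert hnotmem, Finset.sum_image hinj]
  refine ⟨ψK, cK, ?_, ?_, ?_⟩
  · intro q hq q' hq'
    rw [hK, Finset.mem_insert, Finset.mem_image] at hq hq'
    rcases hq with hq | ⟨p, hp, hq⟩
    · subst hq
      rw [hval1]
      rcases hq' with hq' | ⟨p', hp', hq'⟩
      · subst hq'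
        rw [W_vertex C ψ c T h1 p₀ hp₀, if_pos rfl]
        ring
      · subst hq'
        rw [W_vertex C ψ c T h1 p' hp', if_neg (fun h => hne p' h.symm)]
        ring
    · subst hq
      rw [hval2]
      rcases hq' with hq' | ⟨p', hp', hq'⟩
      · subst hq'
        rw [W_vertex C ψ c T h1 p₀ hp₀, if_neg (hne p)]
        show ψ p p₀ + c p - _ = 0
        rw [h1 p hp p₀ hp₀]
        by_cases h : p = p₀
        · rw [if_pos h, if_pos h]
          ring
        · rw [if_neg h, if_neg h]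
          ring
      · subst hq'
        rw [W_vertex C ψ c T h1 p' hp']
        show ψ p p' + c p - _ = _
        rw [h1 p hp p' hp']
        have e : T p' - T p' = 0 := by ring
        rw [e]
        by_cases h : p = p'
        · subst h
          rw [if_pos rfl, if_pos rfl]
          simp
        · rw [if_neg h, if_neg (fun h5 : ((p, T p) : Y × ℤ) = (p', T p') =>
            h (congrArg Prod.fst h5))]
          simp
  · intro v
    rw [hsum (fun q => ψK q v + cK q), hval1]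
    simp only [hval2]
    rw [Finset.sum_sub_distrib, h2, Finset.sum_ite_eq' C p₀, if_pos hp₀]
    ring
  · intro v
    rw [hsum (fun q => (ψK q v + cK q) • q)]
    simp only [hval1, hval2]
    simp only [sub_smul, Finset.sum_sub_distrib, ite_smul, zero_smul]
    rw [Finset.sum_ite_eq' C p₀, if_pos hp₀]
    have e1 : (∑ p ∈ C, (ψ p v.1 + c p) • ((p, T p) : Y × ℤ)) =
        (v.1, ∑ p ∈ C, (ψ p v.1 + c p) * T p) := by
      apply Prod.ext
      · rw [Prod.fst_sum]
        simp only [Prod.smul_mk]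
        exact h3 v.1
      · rw [Prod.snd_sum]
        simp only [Prod.smul_mk, smul_eq_mul]
    rw [e1]
    have e2 := W_apply C ψ c T v
    set w := Wl C ψ T v + Wc C c T with hw
    apply Prod.ext
    · simp
    · simp only [Prod.smul_mk, Prod.snd_add, Prod.snd_sub, smul_eq_mul]
      linarith

/-- Chimney over a unimodular simplex. -/
theorem chim (C : Finset Y) (hC : Uni C) (h : Y → ℤ)
    (δ : Y → ℝ) (hδ0 : ∀ y ∈ C, 0 ≤ δ y ∧ δ y < 1) (hδ : Set.InjOn δ (C : Set Y))
    (S : Finset (Y × ℤ)) (hS : ∀ v, v ∈ S ↔ v.1 ∈ C ∧ -(h v.1) ≤ v.2 ∧ v.2 ≤ 0) :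
    RLw S (fun v => (v.2 : ℝ) ^ 2 + δ v.1 * v.2) := by
  classical
  intro φ b hle hs
  set K := contact S (fun v => (v.2 : ℝ) ^ 2 + δ v.1 * v.2) φ b with hKdef
  set τ : ℝ := φ (0, 1) with hτ
  have hKmem : ∀ y t, (y, t) ∈ K ↔ (y, t) ∈ S ∧ φ (y, 0) + b + t * τ = (t : ℝ) ^ 2 + δ y * t := by
    intro y t
    rw [hKdef, mem_contact, prod_split]
    constructor
    · rintro ⟨h1, h2⟩
      exact ⟨h1, by rw [← h2]; ring⟩
    · rintro ⟨h1, h2⟩
      refine ⟨h1, ?_⟩
      show _ = (t : ℝ) ^ 2 + δ y * t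
      rw [← h2]
      ring
  have hSle : ∀ y t, (y, t) ∈ S → φ (y, 0) + b + t * τ ≤ (t : ℝ) ^ 2 + δ y * t := by
    intro y t hyt
    have h1 := hle (y, t) hyt
    rw [prod_split] at h1
    have h2 : φ (y, 0) + b + t * τ = φ (y, 0) + ↑t * φ (0, 1) + b := by ring
    rw [h2]
    exact h1
  -- step 1: the projection
  have hproj : K.image Prod.fst = C := by
    apply eq_of_spans hC
    · intro y hy
      obtain ⟨v, hv, rfl⟩ := Finset.mem_image.mp hy
      exact ((hS v).mp (mem_contact.mp hv).1).1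
    · intro χ d hχ
      have h1 := hs (χ.comp (AddMonoidHom.fst Y ℤ)) d (by
        intro v hv
        exact hχ v.1 (Finset.mem_image.mpr ⟨v, hv, rfl⟩))
      refine ⟨?_, h1.2⟩
      ext y
      have := congrArg (fun f => f (y, 0)) h1.1
      exact this
  have hex : ∀ p : Y, ∃ t : ℤ, p ∈ C → (p, t) ∈ K := by
    intro p
    by_cases hp : p ∈ C
    · rw [← hproj] at hp
      obtain ⟨v, hv, hvp⟩ := Finset.mem_image.mp hp
      refine ⟨v.2, fun _ => ?_⟩
      rw [← hvp]
      exact hv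
    · exact ⟨0, fun h => absurd h hp⟩
  choose T hT using hex
  have hCS : ∀ y t, (y, t) ∈ K → y ∈ C := by
    intro y t hyt
    exact ((hS _).mp ((hKmem y t).mp hyt).1).1
  -- step 3
  have hstep : ∀ p t t', (p, t) ∈ K → (p, t') ∈ K → t < t' →
      t' = t + 1 ∧ τ = 2 * t + 1 + δ p := by
    intro p t t' ht ht' hlt
    obtain ⟨hS1, e1⟩ := (hKmem p t).mp ht
    obtain ⟨hS2, e2⟩ := (hKmem p t').mp ht'
    have hltr : (t : ℝ) < t' := by exact_mod_cast hlt
    have h1 : ((t' : ℝ) - t) * (τ - (t + t' + δ p)) = 0 := by linear_combination e2 - e1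
    have h2 : τ = t + t' + δ p := by
      rcases mul_eq_zero.mp h1 with h | h
      · linarith
      · linarith
    have hS3 : (p, t + 1) ∈ S := by
      obtain ⟨a1, a2, a3⟩ := (hS _).mp hS1
      obtain ⟨b1, b2, b3⟩ := (hS _).mp hS2
      refine (hS _).mpr ⟨a1, ?_, ?_⟩
      · dsimp only at a2 ⊢
        omega
      · dsimp only at b3 ⊢
        omega
    have h3 := hSle p (t + 1) hS3
    push_cast at h3
    have h4 : (t' : ℝ) ≤ t + 1 := by
      rw [h2] at h3 e1
      nlinarith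
    have h5 : t' ≤ t + 1 := by exact_mod_cast h4
    have h6 : t' = t + 1 := by omega
    refine ⟨h6, ?_⟩
    rw [h2, h6]
    push_cast
    ring
  -- step 2
  obtain ⟨p₀, hp₀, t', ht', hne⟩ : ∃ p₀ ∈ C, ∃ t', (p₀, t') ∈ K ∧ t' ≠ T p₀ := by
    by_contra hcon
    push Not at hcon
    obtain ⟨ψ, c, h1, h2, h3⟩ := hC
    have h1' : ∀ p ∈ C, ∀ q ∈ C, ψ p q + c p = if p = q then 1 else 0 := by
      intro p hp q hq
      rw [h1 p hp q hq]
    have h4 := hs ((Int.castAddHom ℝ).comp (Wl C ψ T)) (Wc C c T : ℝ) (by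
      intro v hv
      obtain ⟨y, t⟩ := v
      have h5 := hcon y (hCS y t hv) t hv
      have h6 := W_vertex C ψ c T h1' y (hCS y t hv) t
      show ((Wl C ψ T (y, t) : ℤ) : ℝ) + (Wc C c T : ℝ) = 0
      rw [h5, sub_self] at h6
      rw [h5]
      exact_mod_cast h6)
    have h7 : ((Wl C ψ T (0, 1) : ℤ) : ℝ) = 0 := by
      have := congrArg (fun f => f (0, 1)) h4.1
      exact this
    have h8 : Wl C ψ T (0, 1) = 1 := by
      show (1 : ℤ) - (∑ p ∈ C, T p • ψ p) 0 = 1
      rw [map_zero]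
      ring
    rw [h8] at h7
    norm_num at h7
  -- the lower one of the two contacts
  set u : ℤ := min t' (T p₀) with hu
  have huK : (p₀, u) ∈ K ∧ (p₀, u + 1) ∈ K ∧ τ = 2 * u + 1 + δ p₀ := by
    rcases lt_or_gt_of_ne hne with hlt | hlt
    · obtain ⟨e1, e2⟩ := hstep p₀ t' (T p₀) ht' (hT p₀ hp₀) hlt
      have hu' : u = t' := min_eq_left hlt.le
      rw [hu']
      exact ⟨ht', by rw [← e1]; exact hT p₀ hp₀, e2⟩
    · obtain ⟨e1, e2⟩ := hstep p₀ (T p₀) t' (hT p₀ hp₀) ht' hlt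
      have hu' : u = T p₀ := min_eq_right hlt.le
      rw [hu']
      exact ⟨hT p₀ hp₀, by rw [← e1]; exact ht', e2⟩
  obtain ⟨hu1, hu2, hu3⟩ := huK
  have huniq : ∀ q s s', (q, s) ∈ K → (q, s') ∈ K → s < s' → q = p₀ ∧ s = u := by
    intro q s s' hs1 hs2 hlt
    obtain ⟨-, e2⟩ := hstep q s s' hs1 hs2 hlt
    have hq := hCS q s hs1
    obtain ⟨d1, d2⟩ := hδ0 q hq
    obtain ⟨d3, d4⟩ := hδ0 p₀ hp₀
    have e3 : 2 * ((s : ℝ) - u) = δ p₀ - δ q := by linarith
    have e4 : ((s - u : ℤ) : ℝ) < 1 := by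
      push_cast
      linarith
    have e5 : (-1 : ℝ) < ((s - u : ℤ) : ℝ) := by
      push_cast
      linarith
    have e6 : s - u < 1 := by exact_mod_cast e4
    have e7 : -1 < s - u := by exact_mod_cast e5
    have e8 : s = u := by omega
    refine ⟨?_, e8⟩
    rw [e8, sub_self] at e3
    apply hδ hq hp₀
    linarith
  set T' : Y → ℤ := fun p => if p = p₀ then u else T p with hT'
  have hT'0 : T' p₀ = u := by
    rw [hT']
    simp
  apply uni_graph C hC T' p₀ hp₀
  apply Finset.ext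
  rintro ⟨y, t⟩
  rw [Finset.mem_insert, Finset.mem_image, hT'0]
  constructor
  · intro hyt
    by_cases hy : y = p₀
    · subst hy
      rcases lt_trichotomy t u with h1 | h1 | h1
      · obtain ⟨-, e⟩ := huniq y t u hyt hu1 h1
        omega
      · right
        exact ⟨y, hp₀, by rw [hT'0, h1]⟩
      · left
        obtain ⟨e, -⟩ := hstep y u t hu1 hyt h1
        rw [e]
    · right
      refine ⟨y, hCS y t hyt, ?_⟩
      have e : T' y = T y := by
        rw [hT']
        simp [hy]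
      rw [e]
      by_contra hne2
      have hne3 : T y ≠ t := fun h => hne2 (by rw [h])
      rcases lt_or_gt_of_ne hne3 with h1 | h1
      · exact hy (huniq y _ _ (hT y (hCS y t hyt)) hyt h1).1
      · exact hy (huniq y _ _ hyt (hT y (hCS y t hyt)) h1).1
  · rintro (h1 | ⟨p, hp, h1⟩)
    · rw [h1]
      exact hu2
    · rw [← h1]
      by_cases hpp : p = p₀
      · rw [hpp, hT'0]
        exact hu1
      · have e : T' p = T p := by
          rw [hT']
          simp [hpp]
        rw [e]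
        exact hT p hp

end

end Pool.Agent.LHT
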