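import Pool.Agent.LHT.Good

set_option autoImplicit false

/-!
The closure class of sequences and the theorem for it.
-/

namespace Pool.Agent.LHT

/-- The class of sequences generated from the sequences of length at most three by
* inserting at a place `k` a positive multiple of the least common multiple of the two neighbours
  (a missing neighbour counts as one),
* adding to an entry which is divisible by its left neighbour a multiple of the least common
  multiple of its two neighbours,
* reversing the order,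
* joining two sequences by an entry one. -/
inductive Good : (n : ℕ) → (Fin n → ℕ) → Prop
  | short {n : ℕ} (s : Fin n → ℕ) (hn : n ≤ 3) (hs : ∀ i, 0 < s i) : Good n s
  | insert {n : ℕ} (s : Fin n → ℕ) (k : Fin (n + 1)) (j : ℕ) (hj : 0 < j) (h : Good n s) :
      Good (n + 1) (insS k (j * Nat.lcm (lft s k) (rgt s k)) s)
  | increase {n : ℕ} (s : Fin n → ℕ) (k : Fin (n + 1)) (m j : ℕ) (hm : 0 < m)
      (hdiv : lft s k ∣ m) (h : Good (n + 1) (insS k m s)) :
      Good (n + 1) (insS k (m + j * Nat.lcm (lft s k) (rgt s k)) s)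
  | rev {n : ℕ} (s : Fin n → ℕ) (h : Good n s) : Good n (fun i => s i.rev)
  | join {p q : ℕ} (s1 : Fin p → ℕ) (s2 : Fin q → ℕ) (h1 : Good p s1) (h2 : Good q s2) :
      Good (p + (q + 1)) (joinS s1 s2)

theorem insS_pos_iff {n : ℕ} (s : Fin n → ℕ) (k : Fin (n + 1)) (m : ℕ) :
    (∀ i, 0 < insS k m s i) ↔ 0 < m ∧ ∀ i, 0 < s i := by
  constructor
  · intro h
    constructor
    · have := h k
      rwa [insS_same] at this
    · intro i
      have := h (k.succAbove i)
      rwa [insS_succ] at this
  · rintro ⟨h1, h2⟩ i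
    refine Fin.succAboveCases k ?_ (fun i => ?_) i
    · rw [insS_same]
      exact h1
    · rw [insS_succ]
      exact h2 i

theorem Good.pos {n : ℕ} {s : Fin n → ℕ} (h : Good n s) : ∀ i, 0 < s i := by
  induction h with
  | short s hn hs => exact hs
  | insert s k j hj h ih =>
    rw [insS_pos_iff]
    exact ⟨Nat.mul_pos hj (Nat.lcm_pos (lft_pos ih k) (rgt_pos ih k)), ih⟩
  | increase s k m j hm hdiv h ih =>
    rw [insS_pos_iff] at ih ⊢
    exact ⟨by omega, ih.2⟩
  | rev s h ih => exact fun i => ih i.rev
  | join s1 s2 h1 h2 ih1 ih2 =>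
    intro i
    refine Fin.addCases (fun i => ?_) (fun j => ?_) i
    · rw [joinS_left]
      exact ih1 i
    · refine Fin.cases ?_ (fun j => ?_) j
      · rw [joinS_mid]
        norm_num
      · rw [joinS_right]
        exact ih2 j

/-- the theorem for the class, from the case of short sequences -/
theorem RL_of_Good (H : ∀ {n : ℕ} (s : Fin n → ℕ), n ≤ 3 → (∀ i, 0 < s i) → RL (LH s))
    {n : ℕ} {s : Fin n → ℕ} (h : Good n s) : RL (LH s) := by
  induction h with
  | short s hn hs => exact H s hn hs
  | insert s k j hj h ih => exact RL_insert k s h.pos j ih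
  | increase s k m j hm hdiv h ih =>
    exact RL_increase k s ((insS_pos_iff s k m).mp h.pos).2 m j hm hdiv ih
  | rev s h ih => exact RL_rev s ih
  | join s1 s2 h1 h2 ih1 ih2 => exact RL_joinS s1 s2 ih1 ih2

/-- length one -/
theorem RL_one (s : Fin 1 → ℕ) : RL (LH s) := by
  have h0 : ∀ i : Fin 0, 0 < (fun i : Fin 0 => (i.elim0 : ℕ)) i := fun i => i.elim0
  have h := RL_insert (0 : Fin 1) (fun i : Fin 0 => (i.elim0 : ℕ)) h0 (s 0) (RL_zero _)
  have e : insS (0 : Fin 1) (s 0 * Nat.lcm (lft (fun i : Fin 0 => (i.elim0 : ℕ)) 0)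
      (rgt (fun i : Fin 0 => (i.elim0 : ℕ)) 0)) (fun i : Fin 0 => (i.elim0 : ℕ)) = s := by
    funext i
    have hi : i = 0 := by
      apply Fin.ext
      have := i.2
      show (i : ℕ) = 0
      omega
    rw [hi, insS_same]
    have e1 : lft (fun i : Fin 0 => (i.elim0 : ℕ)) 0 = 1 := by
      unfold lft
      rw [dif_neg (by simp)]
    have e2 : rgt (fun i : Fin 0 => (i.elim0 : ℕ)) 0 = 1 := by
      unfold rgt
      rw [dif_neg (by simp)]
    rw [e1, e2]
    simp
  rw [e] at h
  exact h

/-- the sequence `a, b` as an insertion -/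
theorem insS_two (a b : ℕ) : insS (0 : Fin 2) a (fun _ : Fin 1 => b) = ![a, b] := by
  funext i
  refine Fin.cases ?_ (fun j => ?_) i
  · rw [insS_same]
    rfl
  · have h := insS_succ (0 : Fin 2) a (fun _ : Fin 1 => b) j
    rw [Fin.zero_succAbove] at h
    rw [h]
    have hj : j = 0 := Subsingleton.elim _ _
    rw [hj]
    rfl

theorem lft_zero' {n : ℕ} (s : Fin n → ℕ) : lft s 0 = 1 := by
  unfold lft
  rw [dif_neg (by simp)]

theorem rgt_one' (b : ℕ) : rgt (fun _ : Fin 1 => b) 0 = b := by
  unfold rgt
  rw [dif_pos (by simp)]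

/-- length two, by the Euclidean algorithm -/
theorem RL_two_aux (N : ℕ) : ∀ a b : ℕ, 0 < a → 0 < b → a + b ≤ N → RL (LH ![a, b]) := by
  induction N with
  | zero =>
    intro a b ha hb h
    omega
  | succ N ih =>
    -- the case `b ≤ a`
    have main : ∀ a b : ℕ, 0 < a → 0 < b → b ≤ a → a + b ≤ N + 1 → RL (LH ![a, b]) := by
      intro a b ha hb hab h
      have hs : ∀ i : Fin 1, 0 < (fun _ : Fin 1 => b) i := fun _ => hb
      rcases hab.eq_or_lt with h1 | h1
      · have h2 := RL_insert (0 : Fin 2) (fun _ : Fin 1 => b) hs 1 (RL_one _)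
        rw [lft_zero', rgt_one', Nat.lcm_one_left, one_mul, insS_two] at h2
        rw [← h1]
        exact h2
      · have h2 := ih (a - b) b (by omega) hb (by omega)
        rw [← insS_two] at h2
        have h3 := RL_increase (0 : Fin 2) (fun _ : Fin 1 => b) hs (a - b) 1 (by omega) (by
          rw [lft_zero']
          exact one_dvd _) h2
        rw [lft_zero', rgt_one', Nat.lcm_one_left, one_mul, insS_two] at h3
        rw [show a - b + b = a by omega] at h3
        exact h3
    intro a b ha hb h
    rcases le_total b a with hab | hab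
    · exact main a b ha hb hab h
    · have h1 := RL_rev _ (main b a hb ha hab (by omega))
      have e : (fun i : Fin 2 => (![b, a] : Fin 2 → ℕ) i.rev) = ![a, b] := by
        funext i
        fin_cases i <;> rfl
      rw [e] at h1
      exact h1

theorem RL_two (s : Fin 2 → ℕ) (hs : ∀ i, 0 < s i) : RL (LH s) := by
  have h := RL_two_aux (s 0 + s 1) (s 0) (s 1) (hs 0) (hs 1) le_rfl
  have e : ![s 0, s 1] = s := by
    funext i
    fin_cases i <;> rfl
  rw [e] at h
  exact h

/-- short sequences, from the case of length three -/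
theorem RL_short (H3 : ∀ s : Fin 3 → ℕ, (∀ i, 0 < s i) → RL (LH s)) {n : ℕ} (s : Fin n → ℕ)
    (hn : n ≤ 3) (hs : ∀ i, 0 < s i) : RL (LH s) := by
  match n, s, hn, hs with
  | 0, s, _, _ => exact RL_zero s
  | 1, s, _, _ => exact RL_one s
  | 2, s, _, hs => exact RL_two s hs
  | 3, s, _, hs => exact H3 s hs
  | n + 4, s, hn, hs => omega

end Pool.Agent.LHT
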