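import Pool.Agent.LHT.TriReal

/-!
The lecture hall simplex is the convex hull of its lattice points; from heights to a regular
unimodular triangulation in full.
-/

namespace Pool.Agent.LHT

variable {n : ℕ}

/-- the vertices -/
def vtx (s : Fin n → ℕ) (k : ℕ) : Fin n → ℤ := fun i => if k ≤ (i : ℕ) then (s i : ℤ) else 0

theorem vtx_mem (s : Fin n → ℕ) (k : ℕ) : vtx s k ∈ LH s := by
  rw [mem_LH]
  constructor
  · intro i
    unfold vtx
    split_ifs
    · exact ⟨Int.natCast_nonneg _, le_rfl⟩
    · exact ⟨le_rfl, Int.natCast_nonneg _⟩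
  · intro i j hij
    have hij' : (i : ℕ) < (j : ℕ) := hij
    unfold vtx
    by_cases h1 : k ≤ (i : ℕ)
    · have h2 : k ≤ (j : ℕ) := by omega
      rw [if_pos h1, if_pos h2]
      exact le_of_eq (mul_comm _ _)
    · rw [if_neg h1, zero_mul]
      split_ifs
      · positivity
      · exact le_of_eq (zero_mul _).symm

theorem vtx_diff (s : Fin n → ℕ) (k : Fin n) :
    vtx s k = vtx s (k + 1) + (s k : ℤ) • (Pi.single k (1 : ℤ) : Fin n → ℤ) := by
  funext i
  show (if (k : ℕ) ≤ (i : ℕ) then (s i : ℤ) else 0) = (if (k : ℕ) + 1 ≤ (i : ℕ) then (s i : ℤ) else 0)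
    + (s k : ℤ) * (Pi.single k (1 : ℤ) : Fin n → ℤ) i
  rw [Pi.single_apply]
  by_cases h : i = k
  · subst h
    rw [if_pos le_rfl, if_neg (by omega), if_pos rfl]
    ring
  · have hne : (i : ℕ) ≠ (k : ℕ) := fun hh => h (Fin.ext hh)
    rw [if_neg h]
    by_cases h1 : (k : ℕ) ≤ (i : ℕ)
    · rw [if_pos h1, if_pos (by omega)]
      ring
    · rw [if_neg h1, if_neg (by omega)]
      ring

theorem spans_LH (s : Fin n → ℕ) (hs : ∀ i, 0 < s i) : Spans (LH s) := by
  intro χ d hχ
  have h0 : vtx s n = 0 := by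
    funext i
    show (if n ≤ (i : ℕ) then (s i : ℤ) else 0) = 0
    rw [if_neg (by have := i.2; omega)]
  have hd : d = 0 := by
    have := hχ _ (vtx_mem s n)
    rw [h0, map_zero, zero_add] at this
    exact this
  refine ⟨?_, hd⟩
  have he : ∀ k : Fin n, χ (Pi.single k 1) = 0 := by
    intro k
    have h1 := hχ _ (vtx_mem s k)
    have h2 := hχ _ (vtx_mem s (k + 1))
    rw [vtx_diff, map_add, map_zsmul, hd] at h1
    rw [hd] at h2
    have h3 : (s k : ℤ) • χ (Pi.single k 1) = 0 := by linarith
    rw [zsmul_eq_mul] at h3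
    have h4 : ((s k : ℤ) : ℝ) ≠ 0 := by
      have := hs k
      exact_mod_cast this.ne'
    exact (mul_eq_zero.mp h3).resolve_left h4
  apply AddMonoidHom.ext
  intro v
  rw [hom_sum_real]
  apply Finset.sum_eq_zero
  intro j _
  rw [he j, zero_mul]

/-- the increasing sequence of the ratios -/
noncomputable def rat (s : Fin n → ℕ) (x : Fin n → ℝ) : ℕ → ℝ
  | 0 => 0
  | (k + 1) => if h : k < n then x ⟨k, h⟩ / s ⟨k, h⟩ else 1

theorem rat_mono (s : Fin n → ℕ) (x : Fin n → ℝ) (hx : x ∈ simplex s) (k : ℕ) :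
    rat s x k ≤ rat s x (k + 1) := by
  obtain ⟨h1, h2⟩ := hx
  cases k with
  | zero =>
    show (0 : ℝ) ≤ if h : 0 < n then x ⟨0, h⟩ / s ⟨0, h⟩ else 1
    split_ifs with h
    · exact (h1 _).1
    · norm_num
  | succ k =>
    show (if h : k < n then x ⟨k, h⟩ / s ⟨k, h⟩ else 1)
      ≤ if h : k + 1 < n then x ⟨k + 1, h⟩ / s ⟨k + 1, h⟩ else 1
    by_cases h : k + 1 < n
    · rw [dif_pos h, dif_pos (by omega)]
      apply h2
      rw [Fin.le_def]
      show k ≤ k + 1
      omega
    · rw [dif_neg h]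
      split_ifs with h3
      · exact (h1 _).2
      · exact le_rfl

theorem simplex_eq_hull (s : Fin n → ℕ) (hs : ∀ i, 0 < s i) :
    simplex s = convexHull ℝ (lat '' (LH s : Set (Fin n → ℤ))) := by
  have hsr : ∀ i, (0 : ℝ) < (s i : ℝ) := fun i => by exact_mod_cast hs i
  apply Set.Subset.antisymm
  · intro x hx
    have hw0 : ∀ k ∈ Finset.range (n + 1), 0 ≤ rat s x (k + 1) - rat s x k := by
      intro k _
      have := rat_mono s x hx k
      linarith
    have hw1 : ∑ k ∈ Finset.range (n + 1), (rat s x (k + 1) - rat s x k) = 1 := by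
      rw [Finset.sum_range_sub]
      show (if h : n < n then x ⟨n, h⟩ / s ⟨n, h⟩ else 1) - 0 = 1
      rw [dif_neg (lt_irrefl n)]
      ring
    have hxe : x = ∑ k ∈ Finset.range (n + 1), (rat s x (k + 1) - rat s x k) • lat (vtx s k) := by
      funext i
      rw [Finset.sum_apply]
      have h1 : ∀ k ∈ Finset.range (n + 1), ((rat s x (k + 1) - rat s x k) • lat (vtx s k)) i
          = if k ≤ (i : ℕ) then (rat s x (k + 1) - rat s x k) * (s i : ℝ) else 0 := by
        intro k _
        show (rat s x (k + 1) - rat s x k) * (((if k ≤ (i : ℕ) then (s i : ℤ) else 0) : ℤ) : ℝ) = _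
        split_ifs
        · push_cast
          rfl
        · simp
      rw [Finset.sum_congr rfl h1, ← Finset.sum_filter]
      have h2 : (Finset.range (n + 1)).filter (fun k => k ≤ (i : ℕ)) = Finset.range ((i : ℕ) + 1) := by
        ext k
        rw [Finset.mem_filter, Finset.mem_range, Finset.mem_range]
        have := i.2
        omega
      rw [h2, ← Finset.sum_mul, Finset.sum_range_sub]
      have h3 : rat s x ((i : ℕ) + 1) = x i / s i := by
        show (if h : (i : ℕ) < n then x ⟨i, h⟩ / s ⟨i, h⟩ else 1) = _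
        rw [dif_pos i.2]
      have h4 : rat s x 0 = 0 := rfl
      rw [h3, h4, sub_zero, div_mul_cancel₀]
      exact (hsr i).ne'
    rw [hxe]
    apply (convex_convexHull ℝ _).sum_mem hw0 hw1
    intro k _
    exact subset_convexHull ℝ _ ⟨vtx s k, vtx_mem s k, rfl⟩
  · apply convexHull_min
    · rintro y ⟨v, hv, rfl⟩
      exact (lat_mem hs v).mpr hv
    · intro y hy z hz a b ha hb hab
      obtain ⟨y1, y2⟩ := hy
      obtain ⟨z1, z2⟩ := hz
      have e : ∀ i, (a • y + b • z) i / s i = a * (y i / s i) + b * (z i / s i) := by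
        intro i
        show (a * y i + b * z i) / s i = _
        ring
      refine ⟨?_, ?_⟩
      · intro i
        rw [e]
        have p1 := y1 i
        have p2 := z1 i
        constructor
        · have q1 := mul_nonneg ha p1.1
          have q2 := mul_nonneg hb p2.1
          linarith
        · have q1 := mul_le_mul_of_nonneg_left p1.2 ha
          have q2 := mul_le_mul_of_nonneg_left p2.2 hb
          linarith
      · intro i j hij
        rw [e, e]
        have q1 := mul_le_mul_of_nonneg_left (y2 i j hij) ha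
        have q2 := mul_le_mul_of_nonneg_left (z2 i j hij) hb
        linarith

/-- `P` has a regular unimodular triangulation -/
def HasRUT (P : Set (Fin n → ℝ)) : Prop := ∃ T ω, IsRUT P T ω

/-- from the abstract property to regular unimodular triangulations -/
theorem hasRUT_of_RL {s : Fin n → ℕ} (hs : ∀ i, 0 < s i) (h : RL (LH s)) :
    HasRUT (simplex s) := by
  obtain ⟨ω, hω⟩ := h
  obtain ⟨T, hT⟩ := isRUT_of_RLw (simplex s) (LH s) ω (lat_mem hs) (simplex_eq_hull s hs)
    (spans_LH s hs) ⟨_, vtx_mem s 0⟩ hω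
  exact ⟨T, ω, hT⟩

end Pool.Agent.LHT
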