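import Pool.Agent.LHT.Closure
import Pool.Agent.LHT.Hull
import Pool.Agent.LHR.CRI

set_option autoImplicit false

/-!
From regular unimodular triangulations to heights, and the reduction theorem.
-/

namespace Pool.Agent.LHT

/-- lattice sets that span in the sense of homomorphisms span affinely -/
theorem top_of_spans {n : ℕ} (C : Finset (Fin n → ℤ)) (h : Spans C) :
    affineSpan ℝ (lat '' (C : Set (Fin n → ℤ))) = ⊤ := by
  classical
  have hne : C.Nonempty := by
    by_contra hcon
    rw [Finset.not_nonempty_iff_eq_empty] at hcon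
    have := h 0 1 (by
      intro v hv
      rw [hcon] at hv
      exact absurd hv (Finset.notMem_empty v))
    exact one_ne_zero this.2
  obtain ⟨p, hp⟩ := hne
  by_contra hcon
  set A := affineSpan ℝ (lat '' (C : Set (Fin n → ℤ))) with hA
  have hpA : ∀ v ∈ C, lat v ∈ A := fun v hv => subset_affineSpan ℝ _ ⟨v, hv, rfl⟩
  have hdir : A.direction ≠ ⊤ := by
    intro hd
    exact hcon ((AffineSubspace.direction_eq_top_iff_of_nonempty ⟨_, hpA p hp⟩).mp hd)
  obtain ⟨f, hf0, hf⟩ := Submodule.exists_le_ker_of_lt_top A.direction (lt_top_iff_ne_top.mpr hdir)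
  have hval : ∀ x : Fin n → ℝ, f x = ∑ i, f (Pi.single i 1) * x i := by
    intro x
    have e : x = ∑ i, x i • (Pi.single i (1 : ℝ) : Fin n → ℝ) := by
      funext j
      simp [Finset.sum_apply, Pi.single_apply]
    conv_lhs => rw [e]
    rw [map_sum]
    apply Finset.sum_congr rfl
    intro i _
    rw [map_smul, smul_eq_mul, mul_comm]
  have h1 := h (homOf (fun i => f (Pi.single i 1))) (-(f (lat p))) (by
    intro v hv
    have h2 : lat v - lat p ∈ A.direction := AffineSubspace.vsub_mem_direction (hpA v hv) (hpA p hp)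
    have h3 : f (lat v - lat p) = 0 := hf h2
    rw [map_sub] at h3
    rw [homOf_apply, ← hval]
    linarith)
  apply hf0
  apply LinearMap.ext
  intro x
  rw [hval]
  show _ = (0 : ℝ)
  apply Finset.sum_eq_zero
  intro i _
  have h4 : homOf (fun i => f (Pi.single i 1)) (Pi.single i 1) = 0 := by
    rw [h1.1]
    rfl
  rw [homOf_apply] at h4
  have h5 : ∑ j, f (Pi.single j 1) * lat (Pi.single i (1 : ℤ)) j = f (Pi.single i 1) := by
    rw [Finset.sum_eq_single i]
    · simp [lat]
    · intro j _ hj
      simp [lat, Pi.single_apply, hj]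
    · intro hi
      exact absurd (Finset.mem_univ i) hi
  rw [h5] at h4
  rw [h4, zero_mul]

/-- the integral barycentric functions of a simplex with determinant `±1` -/
theorem pu_of_det {n : ℕ} (C : Finset (Fin n → ℤ)) (w : Fin (n + 1) → (Fin n → ℤ))
    (hw : Set.range w = (C : Set (Fin n → ℤ)))
    (hdet : |(Matrix.of fun i j : Fin n => w i.succ j - w 0 j).det| = 1) : LHR.PU C := by
  classical
  set M : Matrix (Fin n) (Fin n) ℤ := Matrix.of fun i j : Fin n => w i.succ j - w 0 j with hM
  have hu : IsUnit M.det := Int.isUnit_iff_abs_eq.mpr hdet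
  have hinv : M * M⁻¹ = 1 := Matrix.mul_nonsing_inv M hu
  let L : Fin n → ((Fin n → ℤ) →+ ℤ) := fun i =>
    { toFun := fun v => ∑ j, v j * M⁻¹ j i
      map_zero' := by simp
      map_add' := by
        intro u v
        rw [← Finset.sum_add_distrib]
        apply Finset.sum_congr rfl
        intro j _
        show (u j + v j) * _ = _
        ring }
  have hLv : ∀ i v, L i v = ∑ j, v j * M⁻¹ j i := fun i v => rfl
  have hL : ∀ i k : Fin n, L i (w k.succ) - L i (w 0) = if k = i then 1 else 0 := by
    intro i k
    have h1 := congrFun (congrFun hinv k) i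
    rw [Matrix.mul_apply, Matrix.one_apply] at h1
    rw [← h1, hLv, hLv, ← Finset.sum_sub_distrib]
    apply Finset.sum_congr rfl
    intro j _
    rw [hM, Matrix.of_apply]
    ring
  have hmem : ∀ q ∈ C, ∃ k, w k = q := by
    intro q hq
    have : q ∈ Set.range w := by
      rw [hw]
      exact hq
    exact this
  intro p hp
  obtain ⟨k, rfl⟩ := hmem p hp
  refine Fin.cases ?_ (fun i => ?_) k
  · refine ⟨-∑ i, L i, 1 + ∑ i, L i (w 0), ?_, ?_⟩
    · have e : (-∑ i, L i) (w 0) = -∑ i, L i (w 0) := by
        rw [AddMonoidHom.neg_apply, AddMonoidHom.finset_sum_apply]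
      rw [e]
      ring
    · intro q hq hqp
      obtain ⟨k', rfl⟩ := hmem q hq
      revert hqp
      refine Fin.cases ?_ (fun i' => ?_) k'
      · intro h
        exact absurd rfl h
      · intro _
        have e : (-∑ i, L i) (w i'.succ) = -∑ i, L i (w i'.succ) := by
          rw [AddMonoidHom.neg_apply, AddMonoidHom.finset_sum_apply]
        rw [e]
        have e2 : ∑ i, L i (w i'.succ) - ∑ i, L i (w 0) = 1 := by
          rw [← Finset.sum_sub_distrib]
          rw [Finset.sum_congr rfl (fun i _ => hL i i')]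
          simp
        linarith
  · refine ⟨L i, -L i (w 0), ?_, ?_⟩
    · have := hL i i
      rw [if_pos rfl] at this
      linarith
    · intro q hq hqp
      obtain ⟨k', rfl⟩ := hmem q hq
      revert hqp
      refine Fin.cases ?_ (fun i' => ?_) k'
      · intro _
        ring
      · intro h
        have h2 := hL i i'
        rw [if_neg (by
          rintro rfl
          exact h rfl)] at h2
        linarith

/-- a regular unimodular triangulation gives heights in the abstract sense -/
theorem RL_of_hasRUT {n : ℕ} {s : Fin n → ℕ} (hs : ∀ i, 0 < s i) (h : HasRUT (simplex s)) :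
    RL (LH s) := by
  classical
  obtain ⟨T, ω, h1, -, -, h4⟩ := h
  refine ⟨ω, ?_⟩
  intro φ b hle hsp
  have hφ : ∀ v, ∑ i, φ (Pi.single i 1) * lat v i = φ v := by
    intro v
    rw [← homOf_apply, homOf_coef]
  have hT : contact (LH s) ω φ b ∈ T := by
    rw [h4]
    refine ⟨fun i => φ (Pi.single i 1), b, ?_, ?_, top_of_spans _ hsp⟩
    · intro v hv
      rw [hφ]
      exact hle v ((lat_mem hs v).mp hv)
    · intro v
      rw [mem_contact, hφ, lat_mem hs]
  obtain ⟨-, w, hw, hdet⟩ := h1 _ hT
  refine LHR.cri_proof (Fin n → ℤ) ?_ _ hsp (pu_of_det _ w hw hdet)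
  intro v hv
  funext i
  have := hv ((Int.castAddHom ℝ).comp (Pi.evalAddMonoidHom (fun _ => ℤ) i))
  have h5 : ((v i : ℤ) : ℝ) = 0 := this
  show v i = 0
  exact_mod_cast h5

end Pool.Agent.LHT
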