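import Pool.Agent.LHT.Ops

set_option autoImplicit false

/-!
Lecture hall simplices: translation into the language of lower facets and determinants.
-/

namespace Pool.Agent.LHT

lemma hom_sum {n : ℕ} (ψ : (Fin n → ℤ) →+ ℤ) (v : Fin n → ℤ) :
    ψ v = ∑ j, v j * ψ (Pi.single j 1) := by
  have h : v = ∑ j, v j • (Pi.single j (1 : ℤ) : Fin n → ℤ) := by
    funext i
    rw [Finset.sum_apply]
    simp [Pi.single_apply]
  nth_rewrite 1 [h]
  rw [map_sum]
  apply Finset.sum_congr rfl
  intro j _
  rw [map_zsmul, smul_eq_mul]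

lemma hom_sum_real {n : ℕ} (χ : (Fin n → ℤ) →+ ℝ) (v : Fin n → ℤ) :
    χ v = ∑ j, χ (Pi.single j 1) * (v j : ℝ) := by
  have h : v = ∑ j, v j • (Pi.single j (1 : ℤ) : Fin n → ℤ) := by
    funext i
    rw [Finset.sum_apply]
    simp [Pi.single_apply]
  nth_rewrite 1 [h]
  rw [map_sum]
  apply Finset.sum_congr rfl
  intro j _
  rw [map_zsmul, zsmul_eq_mul, mul_comm]

/-- enumeration of a unimodular simplex -/
theorem uni_enum {n : ℕ} (C : Finset (Fin n → ℤ)) (h : Uni C) :
    ∃ w : Fin (n + 1) → (Fin n → ℤ), Set.range w = (C : Set (Fin n → ℤ)) ∧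
      |(Matrix.of fun i j : Fin n => w i.succ j - w 0 j).det| = 1 := by
  classical
  obtain ⟨ψ, c, g1', g2, g3⟩ := h
  have g1 : ∀ p ∈ C, ∀ q ∈ C, ψ p q + c p = if p = q then 1 else 0 := by
    intro p hp q hq
    rw [g1' p hp q hq]
    by_cases hpq : p = q
    · rw [if_pos hpq, if_pos hpq]
    · rw [if_neg hpq, if_neg hpq]
  have a4 : ∑ p ∈ C, c p = 1 := by
    have := g2 0
    simpa using this
  have a5 : ∀ y, ∑ p ∈ C, ψ p y = 0 := by
    intro y
    have := g2 y
    rw [Finset.sum_add_distrib, a4] at this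
    linarith
  have a6 : ∑ p ∈ C, c p • p = 0 := by
    have := g3 0
    simpa using this
  have a7 : ∀ y, ∑ p ∈ C, ψ p y • p = y := by
    intro y
    have := g3 y
    simp only [add_smul] at this
    rw [Finset.sum_add_distrib, a6, add_zero] at this
    exact this
  let M : Matrix C (Fin n ⊕ Unit) ℤ := fun p k => Sum.elim (fun j => (p : Fin n → ℤ) j) (fun _ => 1) k
  let N : Matrix (Fin n ⊕ Unit) C ℤ := fun k p =>
    Sum.elim (fun j => ψ (p : Fin n → ℤ) (Pi.single j 1)) (fun _ => c (p : Fin n → ℤ)) k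
  have hMN : M * N = 1 := by
    ext p q
    rw [Matrix.mul_apply, Fintype.sum_sum_type]
    simp only [M, N, Sum.elim_inl, Sum.elim_inr, Finset.univ_unique, Finset.sum_singleton, one_mul]
    rw [← hom_sum, g1 q q.2 p p.2, Matrix.one_apply]
    by_cases hpq : p = q
    · rw [if_pos hpq, if_pos (by rw [hpq])]
    · rw [if_neg hpq, if_neg (fun h => hpq (Subtype.ext h.symm))]
  have hNM : N * M = 1 := by
    ext k l
    rw [Matrix.mul_apply]
    have e : ∑ p : C, N k p * M p l = ∑ p ∈ C,
        (Sum.elim (fun j => ψ p (Pi.single j 1)) (fun _ => c p) k) *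
        (Sum.elim (fun j => p j) (fun _ => 1) l) := by
      rw [← Finset.sum_attach C]
      rfl
    rw [e]
    rcases k with i | i
    · rcases l with j | j
      · simp only [Sum.elim_inl]
        have h1 := congrArg (fun f => f j) (a7 (Pi.single i 1))
        simp only [Finset.sum_apply, Pi.smul_apply, smul_eq_mul] at h1
        rw [h1, Matrix.one_apply, Pi.single_apply]
        by_cases hij : i = j
        · rw [if_pos hij.symm, if_pos (by rw [hij])]
        · rw [if_neg (fun h => hij h.symm), if_neg (fun h => hij (Sum.inl_injective h))]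
      · simp only [Sum.elim_inl, Sum.elim_inr, mul_one]
        rw [a5, Matrix.one_apply, if_neg]
        exact Sum.inl_ne_inr
    · rcases l with j | j
      · simp only [Sum.elim_inl, Sum.elim_inr]
        have h1 := congrArg (fun f => f j) a6
        simp only [Finset.sum_apply, Pi.smul_apply, smul_eq_mul] at h1
        rw [h1, Matrix.one_apply, if_neg]
        · rfl
        · exact Sum.inr_ne_inl
      · simp only [Sum.elim_inr, mul_one]
        rw [a4, Matrix.one_apply, if_pos]
        rfl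
  have hcard : Fintype.card C = n + 1 := by
    rw [Matrix.square_of_invertible M N hMN hNM]
    simp
  let w' : Fin (n + 1) ≃ C := (Fintype.equivFinOfCardEq hcard).symm
  refine ⟨fun i => (w' i : Fin n → ℤ), ?_, ?_⟩
  · apply Set.ext
    intro v
    constructor
    · rintro ⟨i, rfl⟩
      exact (w' i).2
    · intro hv
      refine ⟨w'.symm ⟨v, hv⟩, ?_⟩
      dsimp only
      rw [Equiv.apply_symm_apply]
  · set D : Matrix (Fin n) (Fin n) ℤ := Matrix.of fun i j : Fin n =>
      (w' i.succ : Fin n → ℤ) j - (w' 0 : Fin n → ℤ) j with hD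
    let E : Matrix (Fin n) (Fin n) ℤ := fun j k => ψ (w' k.succ : Fin n → ℤ) (Pi.single j 1)
    have hDE : D * E = 1 := by
      ext i k
      rw [Matrix.mul_apply]
      have e1 : ∑ j, D i j * E j k = ψ (w' k.succ : Fin n → ℤ) (w' i.succ : Fin n → ℤ) -
          ψ (w' k.succ : Fin n → ℤ) (w' 0 : Fin n → ℤ) := by
        rw [hom_sum (ψ (w' k.succ : Fin n → ℤ)) (w' i.succ : Fin n → ℤ),
          hom_sum (ψ (w' k.succ : Fin n → ℤ)) (w' 0 : Fin n → ℤ), ← Finset.sum_sub_distrib]
        apply Finset.sum_congr rfl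
        intro j _
        rw [hD]
        simp only [Matrix.of_apply, E]
        ring
      rw [e1]
      have h1 := g1 _ (w' k.succ).2 _ (w' i.succ).2
      have h2 := g1 _ (w' k.succ).2 _ (w' 0).2
      have hne : ¬ ((w' k.succ : Fin n → ℤ) = (w' 0 : Fin n → ℤ)) := by
        intro h
        have := w'.injective (Subtype.ext h)
        exact Fin.succ_ne_zero k this
      rw [if_neg hne] at h2
      rw [Matrix.one_apply]
      by_cases hik : i = k
      · rw [if_pos (by rw [hik])] at h1
        rw [if_pos hik]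
        linarith
      · rw [if_neg] at h1
        · rw [if_neg hik]
          linarith
        · intro h
          have := w'.injective (Subtype.ext h)
          exact hik (Fin.succ_injective n this).symm
    have hdet : D.det * E.det = 1 := by
      rw [← Matrix.det_mul, hDE, Matrix.det_one]
    have hu : IsUnit D.det := IsUnit.of_mul_eq_one _ hdet
    exact Int.isUnit_iff_abs_eq.mp hu

/-- coercion of lattice points -/
def lat {n : ℕ} (v : Fin n → ℤ) : Fin n → ℝ := fun i => (v i : ℝ)

theorem spans_of_top {n : ℕ} (C : Finset (Fin n → ℤ))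
    (h : affineSpan ℝ (lat '' (C : Set (Fin n → ℤ))) = ⊤) : Spans C := by
  intro χ d hχ
  let a : Fin n → ℝ := fun j => χ (Pi.single j 1)
  let f : (Fin n → ℝ) →ᵃ[ℝ] ℝ :=
    (∑ j, a j • (LinearMap.proj j : (Fin n → ℝ) →ₗ[ℝ] ℝ)).toAffineMap + AffineMap.const ℝ _ d
  have hf : ∀ x, f x = ∑ j, a j * x j + d := by
    intro x
    simp [f]
  have hsub : lat '' (C : Set (Fin n → ℤ)) ⊆
      ((affineSpan ℝ ({0} : Set ℝ)).comap f : AffineSubspace ℝ (Fin n → ℝ)) := by
    rintro x ⟨v, hv, rfl⟩
    rw [AffineSubspace.coe_comap, Set.mem_preimage, SetLike.mem_coe,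
      AffineSubspace.mem_affineSpan_singleton, hf]
    have h1 := hχ v hv
    rw [hom_sum_real] at h1
    exact h1
  have htop : ∀ x : Fin n → ℝ, f x = 0 := by
    intro x
    have h1 := affineSpan_le_of_subset_coe hsub
    rw [h] at h1
    have h2 : x ∈ ((affineSpan ℝ ({0} : Set ℝ)).comap f : AffineSubspace ℝ (Fin n → ℝ)) :=
      h1 (AffineSubspace.mem_top ℝ _ x)
    rw [AffineSubspace.mem_comap, AffineSubspace.mem_affineSpan_singleton] at h2
    exact h2
  have hd : d = 0 := by
    have := htop 0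
    rw [hf] at this
    simpa using this
  have ha : ∀ j, a j = 0 := by
    intro j
    have := htop (Pi.single j 1)
    rw [hf, hd] at this
    simpa [Pi.single_apply] using this
  refine ⟨?_, hd⟩
  apply AddMonoidHom.ext
  intro v
  rw [hom_sum_real]
  apply Finset.sum_eq_zero
  intro j _
  have : χ (Pi.single j 1) = 0 := ha j
  rw [this, zero_mul]

/-- the lecture hall simplex -/
def simplex {n : ℕ} (s : Fin n → ℕ) : Set (Fin n → ℝ) :=
  {x | (∀ i, 0 ≤ x i / s i ∧ x i / s i ≤ 1) ∧ ∀ i j, i ≤ j → x i / s i ≤ x j / s j}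

theorem lat_mem {n : ℕ} {s : Fin n → ℕ} (hs : ∀ i, 0 < s i) (v : Fin n → ℤ) :
    lat v ∈ simplex s ↔ v ∈ LH s := by
  have hsr : ∀ i, (0 : ℝ) < (s i : ℝ) := fun i => by exact_mod_cast hs i
  rw [mem_LH]
  show ((∀ i, 0 ≤ (v i : ℝ) / s i ∧ (v i : ℝ) / s i ≤ 1) ∧
    ∀ i j, i ≤ j → (v i : ℝ) / s i ≤ (v j : ℝ) / s j) ↔ _
  constructor
  · rintro ⟨h1, h2⟩
    constructor
    · intro i
      obtain ⟨h3, h4⟩ := h1 i
      rw [le_div_iff₀ (hsr i), zero_mul] at h3
      rw [div_le_one (hsr i)] at h4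
      exact ⟨by exact_mod_cast h3, by exact_mod_cast h4⟩
    · intro i j hij
      have h3 := h2 i j hij.le
      rw [div_le_div_iff₀ (hsr i) (hsr j)] at h3
      exact_mod_cast h3
  · rintro ⟨h1, h2⟩
    constructor
    · intro i
      obtain ⟨h3, h4⟩ := h1 i
      rw [le_div_iff₀ (hsr i), zero_mul, div_le_one (hsr i)]
      exact ⟨by exact_mod_cast h3, by exact_mod_cast h4⟩
    · intro i j hij
      rw [div_le_div_iff₀ (hsr i) (hsr j)]
      rcases hij.eq_or_lt with h3 | h3
      · rw [h3]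
      · exact_mod_cast h2 i j h3

/-- from the abstract property to lower facets -/
theorem rut_of_RL {n : ℕ} {s : Fin n → ℕ} (hs : ∀ i, 0 < s i) (h : RL (LH s)) :
    ∃ ω : (Fin n → ℤ) → ℝ, ∀ (c : Fin n → ℝ) (b : ℝ),
      (∀ v : Fin n → ℤ, lat v ∈ simplex s → ∑ i, c i * lat v i + b ≤ ω v) →
      affineSpan ℝ (lat '' {v : Fin n → ℤ | lat v ∈ simplex s ∧ ∑ i, c i * lat v i + b = ω v}) = ⊤ →
      ∃ w : Fin (n + 1) → (Fin n → ℤ),
        Set.range w = {v : Fin n → ℤ | lat v ∈ simplex s ∧ ∑ i, c i * lat v i + b = ω v} ∧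
        |(Matrix.of fun i j : Fin n => w i.succ j - w 0 j).det| = 1 := by
  obtain ⟨ω, hω⟩ := h
  refine ⟨ω, ?_⟩
  intro c b hle hsp
  let φ : (Fin n → ℤ) →+ ℝ :=
    { toFun := fun v => ∑ i, c i * lat v i
      map_zero' := by simp [lat]
      map_add' := by
        intro u v
        rw [← Finset.sum_add_distrib]
        apply Finset.sum_congr rfl
        intro i _
        simp [lat]
        ring }
  have hφ : ∀ v, φ v = ∑ i, c i * lat v i := fun v => rfl
  have hC : (contact (LH s) ω φ b : Set (Fin n → ℤ)) =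
      {v : Fin n → ℤ | lat v ∈ simplex s ∧ ∑ i, c i * lat v i + b = ω v} := by
    apply Set.ext
    intro v
    rw [Finset.mem_coe, mem_contact, hφ, Set.mem_ofPred_eq, lat_mem hs]
  rw [← hC] at hsp ⊢
  apply uni_enum
  apply hω φ b
  · intro v hv
    rw [hφ]
    exact hle v ((lat_mem hs v).mpr hv)
  · exact spans_of_top _ hsp

end Pool.Agent.LHT
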