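import Pool.Agent.LHT.Chim

set_option autoImplicit false

/-!
Regular unimodular triangulations: floors, chimneys over triangulations, gluing a chimney below.
-/

namespace Pool.Agent.LHT

section
variable {Y : Type} [AddCommGroup Y]

/-- the floor of a regular unimodular triangulation -/
theorem face (S : Finset (Y × ℤ)) (B : Finset Y) (hB : ∀ y, y ∈ B ↔ (y, (0 : ℤ)) ∈ S)
    (hS : ∀ v ∈ S, 0 ≤ v.2) (hpos : ∃ v ∈ S, 0 < v.2) (ω : Y × ℤ → ℝ) (h : RLw S ω) :
    RLw B (fun y => ω (y, 0)) := by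
  classical
  intro φ b hle hs
  set P := S.filter (fun v => 0 < v.2) with hP
  have hPne : P.Nonempty := by
    obtain ⟨v, hv, hv2⟩ := hpos
    exact ⟨v, Finset.mem_filter.mpr ⟨hv, hv2⟩⟩
  obtain ⟨v0, hv0, hmin⟩ := Finset.exists_min_image P
    (fun v => (ω v - φ v.1 - b) / (v.2 : ℝ)) hPne
  set κ : ℝ := (ω v0 - φ v0.1 - b) / (v0.2 : ℝ) with hκ
  set Φ : Y × ℤ →+ ℝ := φ.comp (AddMonoidHom.fst Y ℤ) +
    (AddMonoidHom.mulLeft κ).comp ((Int.castAddHom ℝ).comp (AddMonoidHom.snd Y ℤ)) with hΦ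
  have hΦv : ∀ v, Φ v = φ v.1 + κ * (v.2 : ℝ) := by
    intro v
    rw [hΦ]
    rfl
  have hv0' := Finset.mem_filter.mp hv0
  have hv0r : (0 : ℝ) < (v0.2 : ℝ) := by exact_mod_cast hv0'.2
  have h1 : ∀ v ∈ S, Φ v + b ≤ ω v := by
    intro v hv
    rw [hΦv]
    rcases (hS v hv).eq_or_lt with h0 | h0
    · have hvB : v.1 ∈ B := by
        rw [hB, h0]
        exact hv
      have h2 := hle v.1 hvB
      rw [← h0]
      have e : v = (v.1, 0) := by
        apply Prod.ext
        · rfl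
        · exact h0.symm
      rw [e]
      simpa using h2
    · have h2 := hmin v (Finset.mem_filter.mpr ⟨hv, h0⟩)
      have h3 : (0 : ℝ) < (v.2 : ℝ) := by exact_mod_cast h0
      have h4 : κ * (v.2 : ℝ) ≤ ω v - φ v.1 - b := by
        rw [← le_div_iff₀ h3]
        exact h2
      linarith
  set C := contact S ω Φ b with hC
  set CB := contact B (fun y => ω (y, 0)) φ b with hCB
  have hCmem : ∀ y, (y, (0 : ℤ)) ∈ C ↔ y ∈ CB := by
    intro y
    rw [hC, hCB, mem_contact, mem_contact, hB, hΦv]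
    simp
  have hv0C : v0 ∈ C := by
    rw [hC, mem_contact, hΦv]
    refine ⟨hv0'.1, ?_⟩
    have : κ * (v0.2 : ℝ) = ω v0 - φ v0.1 - b := by
      rw [hκ, div_mul_cancel₀ _ hv0r.ne']
    rw [this]
    ring
  have hCs : Spans C := by
    intro χ d hχ
    have h2 := hs (χ.comp (AddMonoidHom.inl Y ℤ)) d (by
      intro y hy
      exact hχ (y, 0) ((hCmem y).mpr hy))
    have h3 : ∀ y : Y, χ (y, 0) = 0 := by
      intro y
      have := congrArg (fun f => f y) h2.1
      exact this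
    have h4 : χ (0, 1) = 0 := by
      have h5 := hχ v0 hv0C
      have e : v0 = (v0.1, v0.2) := rfl
      rw [e, prod_split, h3, h2.2] at h5
      have h6 : (v0.2 : ℝ) * χ (0, 1) = 0 := by linarith
      rcases mul_eq_zero.mp h6 with h7 | h7
      · exact absurd h7 hv0r.ne'
      · exact h7
    refine ⟨?_, h2.2⟩
    apply AddMonoidHom.ext
    rintro ⟨y, t⟩
    rw [prod_split, h3, h4]
    simp
  obtain ⟨ψ, c, g1, g2, g3⟩ := h Φ b h1 hCs
  -- the upper vertices vanish on the floor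
  have hup : ∀ p ∈ C, 0 < p.2 → ∀ y : Y, ψ p (y, 0) + c p = 0 := by
    intro p hp hp2
    have h2 := hs ((Int.castAddHom ℝ).comp ((ψ p).comp (AddMonoidHom.inl Y ℤ))) (c p : ℝ) (by
      intro y hy
      have h3 := g1 p hp (y, 0) ((hCmem y).mpr hy)
      rw [if_neg] at h3
      · show ((ψ p (y, 0) : ℤ) : ℝ) + (c p : ℝ) = 0
        exact_mod_cast h3
      · intro h4
        rw [h4] at hp2
        exact lt_irrefl _ hp2)
    intro y
    have h3 : ((ψ p (y, 0) : ℤ) : ℝ) = 0 := by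
      have := congrArg (fun f => f y) h2.1
      exact this
    have h4 : ψ p (y, 0) = 0 := by exact_mod_cast h3
    have h5 : c p = 0 := by exact_mod_cast h2.2
    rw [h4, h5]
    rfl
  have hsum : ∀ {M : Type} [AddCommMonoid M] (F : Y × ℤ → M),
      (∀ p ∈ C, 0 < p.2 → F p = 0) → ∑ p ∈ C, F p = ∑ y ∈ CB, F (y, 0) := by
    intro M _ F hF
    have e1 : ∑ y ∈ CB, F (y, 0) = ∑ p ∈ CB.image (fun y => (y, (0 : ℤ))), F p := by
      rw [Finset.sum_image]
      intro y _ y' _ hyy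
      exact congrArg Prod.fst hyy
    rw [e1]
    symm
    apply Finset.sum_subset
    · intro p hp
      obtain ⟨y, hy, rfl⟩ := Finset.mem_image.mp hp
      exact (hCmem y).mpr hy
    · intro p hp hp'
      apply hF p hp
      rcases (hS p (mem_contact.mp hp).1).eq_or_lt with h0 | h0
      · exfalso
        apply hp'
        have e : p = (p.1, 0) := by
          apply Prod.ext
          · rfl
          · exact h0.symm
        rw [e] at hp ⊢
        exact Finset.mem_image.mpr ⟨p.1, (hCmem _).mp hp, rfl⟩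
      · exact h0
  refine ⟨fun y => (ψ (y, 0)).comp (AddMonoidHom.inl Y ℤ), fun y => c (y, 0), ?_, ?_, ?_⟩
  · intro y hy y' hy'
    have h2 := g1 (y, 0) ((hCmem y).mpr hy) (y', 0) ((hCmem y').mpr hy')
    show ψ (y, 0) (y', 0) + c (y, 0) = _
    rw [h2]
    by_cases hyy : y = y'
    · subst hyy
      simp
    · rw [if_neg (fun h3 => hyy (congrArg Prod.fst h3)), if_neg hyy]
  · intro y
    have h2 := g2 (y, 0)
    rw [hsum (fun p => ψ p (y, 0) + c p) (fun p hp hp2 => hup p hp hp2 y)] at h2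
    exact h2
  · intro y
    have h2 := g3 (y, 0)
    rw [hsum (fun p => (ψ p (y, 0) + c p) • p)
      (fun p hp hp2 => by rw [hup p hp hp2 y, zero_smul])] at h2
    have h3 := congrArg Prod.fst h2
    rw [Prod.fst_sum] at h3
    exact h3

/-- Chimney over a triangulation. -/
theorem low (B : Finset Y) (ωB : Y → ℝ) (hω : RLw B ωB) (η : Y →+ ℤ) (h0 : ℤ)
    (hη : ∀ y ∈ B, 0 ≤ η y + h0) (δ : Y → ℝ) (hδ0 : ∀ y ∈ B, 0 ≤ δ y ∧ δ y < 1)
    (hδ : Set.InjOn δ (B : Set Y)) (S : Finset (Y × ℤ))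
    (hS : ∀ v, v ∈ S ↔ v.1 ∈ B ∧ -(η v.1 + h0) ≤ v.2 ∧ v.2 ≤ 0) :
    ∃ M₀ : ℝ, ∀ M : ℝ, M₀ ≤ M →
      RLw S (fun v => M * ωB v.1 + ((v.2 : ℝ) ^ 2 + δ v.1 * v.2)) := by
  classical
  apply refinement S (fun v => ωB v.1) (fun v => (v.2 : ℝ) ^ 2 + δ v.1 * v.2)
  intro φ b hle hs
  set C := contact S (fun v => ωB v.1) φ b with hC
  set τ : ℝ := φ (0, 1) with hτ
  have hmem0 : ∀ y ∈ B, (y, (0 : ℤ)) ∈ S := by
    intro y hy
    refine (hS _).mpr ⟨hy, ?_, le_rfl⟩
    have := hη y hy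
    dsimp only
    omega
  have hmemh : ∀ y ∈ B, (y, -(η y + h0)) ∈ S := by
    intro y hy
    refine (hS _).mpr ⟨hy, le_rfl, ?_⟩
    have := hη y hy
    dsimp only
    omega
  have hle' : ∀ y t, (y, t) ∈ S → φ (y, 0) + t * τ + b ≤ ωB y := by
    intro y t hyt
    have := hle (y, t) hyt
    rwa [prod_split] at this
  have hCmem : ∀ y t, (y, t) ∈ C ↔ (y, t) ∈ S ∧ φ (y, 0) + t * τ + b = ωB y := by
    intro y t
    rw [hC, mem_contact, prod_split]
  have hτ0 : τ = 0 := by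
    rcases lt_trichotomy τ 0 with h1 | h1 | h1
    · exfalso
      have h2 := hs (((Int.castAddHom ℝ).comp (AddMonoidHom.snd Y ℤ)) +
        ((Int.castAddHom ℝ).comp (η.comp (AddMonoidHom.fst Y ℤ)))) (h0 : ℝ) (by
        rintro ⟨y, t⟩ hyt
        obtain ⟨hyS, hyc⟩ := (hCmem y t).mp hyt
        obtain ⟨hyB, ht1, ht2⟩ := (hS _).mp hyS
        have h3 := hle' y _ (hmemh y hyB)
        have h4 : ((t : ℝ) - ((-(η y + h0) : ℤ) : ℝ)) * τ ≥ 0 := by
          have h5 : ((t : ℝ) - ((-(η y + h0) : ℤ) : ℝ)) * τ =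
            (φ (y, 0) + t * τ + b) - (φ (y, 0) + ((-(η y + h0) : ℤ) : ℝ) * τ + b) := by ring
          rw [h5, hyc]
          linarith
        have h6 : (t : ℝ) - ((-(η y + h0) : ℤ) : ℝ) ≤ 0 := by
          by_contra hcon
          push Not at hcon
          have := mul_neg_of_pos_of_neg hcon h1
          linarith
        have h7 : ((-(η y + h0) : ℤ) : ℝ) ≤ t := by exact_mod_cast ht1
        show ((t : ℤ) : ℝ) + ((η y : ℤ) : ℝ) + (h0 : ℝ) = 0
        push_cast at h6 h7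
        linarith)
      have h3 := congrArg (fun f => f (0, 1)) h2.1
      have h4 : ((1 : ℤ) : ℝ) + ((η 0 : ℤ) : ℝ) = 0 := h3
      rw [map_zero] at h4
      norm_num at h4
    · exact h1
    · exfalso
      have h2 := hs ((Int.castAddHom ℝ).comp (AddMonoidHom.snd Y ℤ)) 0 (by
        rintro ⟨y, t⟩ hyt
        obtain ⟨hyS, hyc⟩ := (hCmem y t).mp hyt
        obtain ⟨hyB, ht1, ht2⟩ := (hS _).mp hyS
        have h3 := hle' y _ (hmem0 y hyB)
        have h4 : (t : ℝ) * τ ≥ 0 := by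
          have h5 : (t : ℝ) * τ =
            (φ (y, 0) + t * τ + b) - (φ (y, 0) + ((0 : ℤ) : ℝ) * τ + b) := by
            push_cast
            ring
          rw [h5, hyc]
          linarith
        have h6 : (0 : ℝ) ≤ t := by
          by_contra hcon
          push Not at hcon
          have := mul_neg_of_neg_of_pos hcon h1
          linarith
        have h7 : (t : ℝ) ≤ 0 := by exact_mod_cast ht2
        show ((t : ℤ) : ℝ) + 0 = 0
        linarith)
      have h3 := congrArg (fun f => f (0, 1)) h2.1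
      have h4 : ((1 : ℤ) : ℝ) = 0 := h3
      norm_num at h4
  set CB := contact B ωB (φ.comp (AddMonoidHom.inl Y ℤ)) b with hCB
  have hCBmem : ∀ y, y ∈ CB ↔ y ∈ B ∧ φ (y, 0) + b = ωB y := by
    intro y
    rw [hCB, mem_contact]
    rfl
  have hC2 : ∀ v, v ∈ C ↔ v.1 ∈ CB ∧ -(η v.1 + h0) ≤ v.2 ∧ v.2 ≤ 0 := by
    rintro ⟨y, t⟩
    rw [hCmem, hS, hCBmem, hτ0]
    dsimp only
    constructor
    · rintro ⟨⟨a1, a2, a3⟩, a4⟩
      exact ⟨⟨a1, by linarith⟩, a2, a3⟩
    · rintro ⟨⟨a1, a4⟩, a2, a3⟩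
      exact ⟨⟨a1, a2, a3⟩, by linarith⟩
  have hCBs : Spans CB := by
    intro χ d hχ
    have h2 := hs (χ.comp (AddMonoidHom.fst Y ℤ)) d (by
      intro v hv
      exact hχ v.1 ((hC2 v).mp hv).1)
    refine ⟨?_, h2.2⟩
    ext y
    have := congrArg (fun f => f (y, 0)) h2.1
    exact this
  have hCBU : Uni CB := hω _ _ (by
    intro y hy
    have := hle' y 0 (hmem0 y hy)
    show φ (y, 0) + b ≤ ωB y
    rw [hτ0] at this
    linarith) hCBs
  have hCBB : ∀ y ∈ CB, y ∈ B := fun y hy => ((hCBmem y).mp hy).1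
  exact chim CB hCBU (fun y => η y + h0) δ (fun y hy => hδ0 y (hCBB y hy))
    (hδ.mono (fun y hy => hCBB y hy)) C hC2

/-- an injective function with values in `[0,1)` on a finite set -/
lemma exists_delta (B : Finset Y) : ∃ δ : Y → ℝ, (∀ y ∈ B, 0 ≤ δ y ∧ δ y < 1) ∧
    Set.InjOn δ (B : Set Y) := by
  classical
  set e := B.equivFin with he
  refine ⟨fun y => if h : y ∈ B then ((e ⟨y, h⟩ : ℕ) : ℝ) / B.card else 0, ?_, ?_⟩
  · intro y hy
    simp only [dif_pos hy]
    have h1 : ((e ⟨y, hy⟩ : ℕ) : ℝ) < B.card := by exact_mod_cast (e ⟨y, hy⟩).2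
    have h2 : (0 : ℝ) < B.card := lt_of_le_of_lt (Nat.cast_nonneg _) h1
    exact ⟨by positivity, by rw [div_lt_one h2]; exact h1⟩
  · intro y hy y' hy' h
    have hy2 : y ∈ B := hy
    have hy2' : y' ∈ B := hy'
    simp only [dif_pos hy2, dif_pos hy2'] at h
    have h2 : (0 : ℝ) < B.card := by exact_mod_cast Finset.card_pos.mpr ⟨y, hy2⟩
    have h3 : ((e ⟨y, hy2⟩ : ℕ) : ℝ) = ((e ⟨y', hy2'⟩ : ℕ) : ℝ) := by
      have := congrArg (fun t => t * (B.card : ℝ)) h
      simpa [div_mul_cancel₀ _ h2.ne'] using this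
    have h4 : (e ⟨y, hy2⟩ : ℕ) = (e ⟨y', hy2'⟩ : ℕ) := by exact_mod_cast h3
    have h5 := e.injective (Fin.ext h4)
    exact congrArg Subtype.val h5

/-- Chimney over a set with a regular unimodular triangulation. -/
theorem RL_low (B : Finset Y) (hB : RL B) (η : Y →+ ℤ) (h0 : ℤ)
    (hη : ∀ y ∈ B, 0 ≤ η y + h0) (S : Finset (Y × ℤ))
    (hS : ∀ v, v ∈ S ↔ v.1 ∈ B ∧ -(η v.1 + h0) ≤ v.2 ∧ v.2 ≤ 0) : RL S := by
  obtain ⟨ωB, hω⟩ := hB
  obtain ⟨δ, hδ0, hδ⟩ := exists_delta B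
  obtain ⟨M₀, hM⟩ := low B ωB hω η h0 hη δ hδ0 hδ S hS
  exact ⟨_, hM M₀ le_rfl⟩

/-- Gluing a chimney below the floor. -/
theorem RL_glue (U : Finset (Y × ℤ)) (hU : RL U) (hU0 : ∀ v ∈ U, 0 ≤ v.2)
    (hpos : ∃ v ∈ U, 0 < v.2) (B : Finset Y) (hB : ∀ y, y ∈ B ↔ (y, (0 : ℤ)) ∈ U)
    (hproj : ∀ v ∈ U, v.1 ∈ B) (η : Y →+ ℤ) (h0 : ℤ)
    (hη : ∀ y ∈ B, 0 ≤ η y + h0) (S : Finset (Y × ℤ))
    (hS : ∀ v, v ∈ S ↔ v ∈ U ∨ (v.1 ∈ B ∧ -(η v.1 + h0) ≤ v.2 ∧ v.2 ≤ 0)) : RL S := by
  classical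
  obtain ⟨ω, hω⟩ := hU
  obtain ⟨δ, hδ0, hδ⟩ := exists_delta B
  have hωB := face U B hB hU0 hpos ω hω
  set L := S.filter (fun v => v.2 ≤ 0) with hL
  have hLS : ∀ v, v ∈ L ↔ v.1 ∈ B ∧ -(η v.1 + h0) ≤ v.2 ∧ v.2 ≤ 0 := by
    intro v
    rw [hL, Finset.mem_filter, hS]
    constructor
    · rintro ⟨h1 | h1, h2⟩
      · have h3 : v.2 = 0 := le_antisymm h2 (hU0 v h1)
        have h4 := hη v.1 (hproj v h1)
        exact ⟨hproj v h1, by omega, h2⟩
      · exact h1
    · intro h1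
      exact ⟨Or.inr h1, h1.2.2⟩
  obtain ⟨M₀, hM⟩ := low B (fun y => ω (y, 0)) hωB η h0 hη δ hδ0 hδ L hLS
  set M : ℝ := max M₀ 1 with hMdef
  have hMpos : 0 < M := lt_of_lt_of_le one_pos (le_max_right _ _)
  have hlow := hM M (le_max_left _ _)
  have hupp := hω.scale hMpos
  set ω₁ : Y × ℤ → ℝ := fun v => if v.2 ≤ 0 then M * ω (v.1, 0) + ((v.2 : ℝ) ^ 2 + δ v.1 * v.2)
    else M * ω v with hω₁
  have hlow' : RLw L ω₁ := hlow.congr (by
    intro v hv
    rw [hω₁]
    dsimp only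
    rw [if_pos (Finset.mem_filter.mp hv).2])
  have hupp' : RLw U ω₁ := hupp.congr (by
    intro v hv
    rw [hω₁]
    dsimp only
    rcases (hU0 v hv).eq_or_lt with h1 | h1
    · rw [if_pos (le_of_eq h1.symm), ← h1]
      have e : v = (v.1, 0) := by
        apply Prod.ext
        · rfl
        · exact h1.symm
      rw [← e]
      simp
    · rw [if_neg (not_le.mpr h1)])
  have hmem0 : ∀ y ∈ B, (y, (0 : ℤ)) ∈ S := by
    intro y hy
    exact (hS _).mpr (Or.inl ((hB y).mp hy))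
  have hSB : ∀ v ∈ S, v.1 ∈ B := by
    intro v hv
    rcases (hS v).mp hv with h | h
    · exact hproj v h
    · exact h.1
  obtain ⟨M₁, hM₁⟩ := refinement S (fun v => max (v.2 : ℝ) 0) ω₁ (by
    intro φ b hle hs
    set C := contact S (fun v => max (v.2 : ℝ) 0) φ b with hC
    set τ : ℝ := φ (0, 1) with hτ
    have hle' : ∀ y t, (y, t) ∈ S → φ (y, 0) + t * τ + b ≤ max (t : ℝ) 0 := by
      intro y t hyt
      have := hle (y, t) hyt
      rwa [prod_split] at this
    have hCmem : ∀ y t, (y, t) ∈ C ↔ (y, t) ∈ S ∧ φ (y, 0) + t * τ + b = max (t : ℝ) 0 := by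
      intro y t
      rw [hC, mem_contact, prod_split]
    have hfloor : ∀ y ∈ B, φ (y, 0) + b ≤ 0 := by
      intro y hy
      have := hle' y 0 (hmem0 y hy)
      simpa using this
    by_cases hex : ∃ v ∈ C, 0 < v.2
    · -- upper part
      obtain ⟨⟨y1, t1⟩, hv1, ht1⟩ := hex
      have ht1r : (0 : ℝ) < (t1 : ℝ) := by exact_mod_cast ht1
      have hτ1 : 1 ≤ τ := by
        obtain ⟨h1, h2⟩ := (hCmem y1 t1).mp hv1
        have h3 := hfloor y1 (hSB _ h1)
        rw [max_eq_left ht1r.le] at h2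
        have h4 : 0 ≤ (t1 : ℝ) * (τ - 1) := by
          have : (t1 : ℝ) * (τ - 1) = t1 * τ - t1 := by ring
          rw [this]
          linarith
        have h5 := nonneg_of_mul_nonneg_right h4 ht1r
        linarith
      have hge : ∀ y t, (y, t) ∈ C → 0 ≤ t := by
        intro y t hyt
        by_contra hcon
        push Not at hcon
        have htr : (t : ℝ) < 0 := by exact_mod_cast hcon
        obtain ⟨h1, h2⟩ := (hCmem y t).mp hyt
        rw [max_eq_right htr.le] at h2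
        have h3 := hfloor y (hSB _ h1)
        have h4 : (t : ℝ) * τ < 0 := mul_neg_of_neg_of_pos htr (by linarith)
        linarith
      have hz := hs (φ - (Int.castAddHom ℝ).comp (AddMonoidHom.snd Y ℤ)) b (by
        rintro ⟨y, t⟩ hyt
        obtain ⟨h1, h2⟩ := (hCmem y t).mp hyt
        have h3 : (0 : ℝ) ≤ t := by exact_mod_cast hge y t hyt
        rw [max_eq_left h3, ← prod_split] at h2
        show φ (y, t) - (t : ℝ) + b = 0
        linarith)
      have hφ : ∀ v : Y × ℤ, φ v = (v.2 : ℝ) := by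
        intro v
        have := congrArg (fun f => f v) hz.1
        have h4 : φ v - (v.2 : ℝ) = 0 := this
        linarith
      have hCU : C = U := by
        apply Finset.ext
        rintro ⟨y, t⟩
        rw [hC, mem_contact, hφ, hz.2]
        dsimp only
        constructor
        · rintro ⟨h1, h2⟩
          have h3 : (0 : ℝ) ≤ t := by
            rw [add_zero] at h2
            rw [h2]
            exact le_max_right _ _
          have h4 : 0 ≤ t := by exact_mod_cast h3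
          rcases (hS _).mp h1 with h5 | h5
          · exact h5
          · have h6 : t = 0 := le_antisymm h5.2.2 h4
            rw [h6]
            exact (hB y).mp h5.1
        · intro h1
          refine ⟨(hS _).mpr (Or.inl h1), ?_⟩
          have h3 : (0 : ℝ) ≤ t := by exact_mod_cast hU0 _ h1
          rw [max_eq_left h3, add_zero]
      rw [hCU]
      exact hupp'
    · push Not at hex
      have hz := hs φ b (by
        rintro ⟨y, t⟩ hyt
        obtain ⟨h1, h2⟩ := (hCmem y t).mp hyt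
        have h3 : (t : ℝ) ≤ 0 := by exact_mod_cast hex _ hyt
        rw [max_eq_right h3, ← prod_split] at h2
        exact h2)
      have hCL : C = L := by
        apply Finset.ext
        rintro ⟨y, t⟩
        rw [hC, mem_contact, hL, Finset.mem_filter, hz.1, hz.2]
        dsimp only
        constructor
        · rintro ⟨h1, h2⟩
          refine ⟨h1, ?_⟩
          have h3 : (t : ℝ) ≤ 0 := by
            have h4 : (0 : ℝ) + 0 = max (t : ℝ) 0 := h2
            have h5 := le_max_left (t : ℝ) 0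
            linarith
          exact_mod_cast h3
        · rintro ⟨h1, h2⟩
          refine ⟨h1, ?_⟩
          have h3 : (t : ℝ) ≤ 0 := by exact_mod_cast h2
          rw [max_eq_right h3]
          show (0 : ℝ) + 0 = 0
          norm_num
      rw [hCL]
      exact hlow')
  exact ⟨_, hM₁ M₁ le_rfl⟩

end

end Pool.Agent.LHT
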