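import Pool.Agent.LHT.Ops

set_option autoImplicit false

/-!
Lecture hall simplices: sequences with an entry one, and the closure class.
-/

namespace Pool.Agent.LHT

/-- the sequence `s1, 1, s2` -/
def joinS {p q : ℕ} (s1 : Fin p → ℕ) (s2 : Fin q → ℕ) : Fin (p + (q + 1)) → ℕ :=
  Fin.append s1 (Fin.cons 1 s2)

/-- splitting of the coordinates -/
def joinE (p q : ℕ) : ((Fin p → ℤ) × ℤ × (Fin q → ℤ)) ≃+ (Fin (p + (q + 1)) → ℤ) where
  toFun v := Fin.append v.1 (Fin.cons v.2.1 v.2.2)
  invFun x := (fun i => x (Fin.castAdd (q + 1) i), x (Fin.natAdd p 0),
    fun j => x (Fin.natAdd p j.succ))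
  left_inv v := by
    apply Prod.ext
    · funext i
      exact Fin.append_left _ _ i
    · apply Prod.ext
      · exact Fin.append_right _ _ 0
      · funext j
        exact Fin.append_right _ _ j.succ
  right_inv x := by
    funext i
    refine Fin.addCases (fun i => ?_) (fun j => ?_) i
    · exact Fin.append_left _ _ i
    · refine Fin.cases ?_ (fun j => ?_) j
      · exact Fin.append_right _ _ 0
      · exact Fin.append_right _ _ j.succ
  map_add' v w := by
    funext i
    refine Fin.addCases (fun i => ?_) (fun j => ?_) i
    · rw [Pi.add_apply, Fin.append_left, Fin.append_left, Fin.append_left]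
      rfl
    · rw [Pi.add_apply, Fin.append_right, Fin.append_right, Fin.append_right]
      refine Fin.cases ?_ (fun j => ?_) j
      · rfl
      · rfl

theorem joinE_left {p q : ℕ} (y : Fin p → ℤ) (t : ℤ) (z : Fin q → ℤ) (i : Fin p) :
    joinE p q (y, t, z) (Fin.castAdd (q + 1) i) = y i := Fin.append_left _ _ i

theorem joinE_mid {p q : ℕ} (y : Fin p → ℤ) (t : ℤ) (z : Fin q → ℤ) :
    joinE p q (y, t, z) (Fin.natAdd p 0) = t := Fin.append_right _ _ 0

theorem joinE_right {p q : ℕ} (y : Fin p → ℤ) (t : ℤ) (z : Fin q → ℤ) (j : Fin q) :
    joinE p q (y, t, z) (Fin.natAdd p j.succ) = z j := Fin.append_right _ _ j.succ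

theorem joinS_left {p q : ℕ} (s1 : Fin p → ℕ) (s2 : Fin q → ℕ) (i : Fin p) :
    joinS s1 s2 (Fin.castAdd (q + 1) i) = s1 i := Fin.append_left _ _ i

theorem joinS_mid {p q : ℕ} (s1 : Fin p → ℕ) (s2 : Fin q → ℕ) :
    joinS s1 s2 (Fin.natAdd p 0) = 1 := Fin.append_right _ _ 0

theorem joinS_right {p q : ℕ} (s1 : Fin p → ℕ) (s2 : Fin q → ℕ) (j : Fin q) :
    joinS s1 s2 (Fin.natAdd p j.succ) = s2 j := Fin.append_right _ _ j.succ

/-- the shear used in the join -/
def joinShear (p q : ℕ) (g : Fin q → ℤ) :
    ((Fin p → ℤ) × ℤ × (Fin q → ℤ)) ≃+ ((Fin p → ℤ) × ℤ × (Fin q → ℤ)) where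
  toFun v := (v.1, v.2.1, v.2.2 + v.2.1 • g)
  invFun v := (v.1, v.2.1, v.2.2 - v.2.1 • g)
  left_inv v := by
    ext <;> simp
  right_inv v := by
    ext <;> simp
  map_add' v w := by
    apply Prod.ext
    · rfl
    · apply Prod.ext
      · rfl
      · show v.2.2 + w.2.2 + (v.2.1 + w.2.1) • g = (v.2.2 + v.2.1 • g) + (w.2.2 + w.2.1 • g)
        rw [add_smul]
        abel

/-- an entry one splits the question -/
theorem RL_joinS {p q : ℕ} (s1 : Fin p → ℕ) (s2 : Fin q → ℕ)
    (h1 : RL (LH s1)) (h2 : RL (LH s2)) : RL (LH (joinS s1 s2)) := by
  classical
  set S : Finset ((Fin p → ℤ) × ℤ × (Fin q → ℤ)) :=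
    (LH s1).image (fun y => (y, 1, 0)) ∪ (LH s2).image (fun z => (0, 0, z)) with hS
  have hmem : ∀ v, v ∈ S ↔ (v.1 ∈ LH s1 ∧ v.2.1 = 1 ∧ v.2.2 = 0) ∨
      (v.1 = 0 ∧ v.2.1 = 0 ∧ v.2.2 ∈ LH s2) := by
    rintro ⟨y, t, z⟩
    rw [hS, Finset.mem_union, Finset.mem_image, Finset.mem_image]
    constructor
    · rintro (⟨y', h, e⟩ | ⟨z', h, e⟩)
      · left
        injection e with e1 e2
        injection e2 with e2 e3
        subst e1 e2 e3
        exact ⟨h, rfl, rfl⟩
      · right
        injection e with e1 e2
        injection e2 with e2 e3
        subst e1 e2 e3
        exact ⟨rfl, rfl, h⟩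
    · rintro (⟨h, e1, e2⟩ | ⟨e1, e2, h⟩)
      · left
        exact ⟨y, h, by rw [show t = 1 from e1, show z = 0 from e2]⟩
      · right
        exact ⟨z, h, by rw [show y = 0 from e1, show t = 0 from e2]⟩
  have h3 := RL_join (LH s1) (LH s2) h1 h2 S hmem
  let e : ((Fin p → ℤ) × ℤ × (Fin q → ℤ)) ≃+ (Fin (p + (q + 1)) → ℤ) :=
    (joinShear p q (fun j => (s2 j : ℤ))).trans (joinE p q)
  refine RL_affine e 0 ?_ h3
  rintro ⟨y, t, z⟩
  rw [hmem, add_zero]
  have he : e (y, t, z) = joinE p q (y, t, z + t • (fun j => (s2 j : ℤ))) := rfl
  rw [he]
  set w : Fin q → ℤ := z + t • (fun j => (s2 j : ℤ)) with hw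
  have hwj : ∀ j, w j = z j + t * s2 j := fun j => rfl
  show joinE p q (y, t, w) ∈ LH (joinS s1 s2) ↔ (y ∈ LH s1 ∧ t = 1 ∧ z = 0) ∨
    (y = 0 ∧ t = 0 ∧ z ∈ LH s2)
  have key : joinE p q (y, t, w) ∈ LH (joinS s1 s2) ↔
      (y ∈ LH s1 ∧ t = 1 ∧ w = fun j => (s2 j : ℤ)) ∨ (y = 0 ∧ t = 0 ∧ w ∈ LH s2) := by
    rw [mem_LH]
    constructor
    · rintro ⟨g1, g2⟩
      have gt := g1 (Fin.natAdd p 0)
      rw [joinE_mid, joinS_mid] at gt
      have gy : ∀ i, 0 ≤ y i ∧ y i ≤ s1 i := by
        intro i
        have := g1 (Fin.castAdd (q + 1) i)
        rw [joinE_left, joinS_left] at this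
        exact this
      have gz : ∀ j, 0 ≤ w j ∧ w j ≤ s2 j := by
        intro j
        have := g1 (Fin.natAdd p j.succ)
        rw [joinE_right, joinS_right] at this
        exact this
      have gyt : ∀ i, y i ≤ t * s1 i := by
        intro i
        have := g2 (Fin.castAdd (q + 1) i) (Fin.natAdd p 0) (by
          rw [Fin.lt_def]
          show (i : ℕ) < p + 0
          have := i.2
          omega)
        rw [joinE_left, joinS_left, joinE_mid, joinS_mid] at this
        simpa using this
      have gtz : ∀ j, t * s2 j ≤ w j := by
        intro j
        have := g2 (Fin.natAdd p 0) (Fin.natAdd p j.succ) (by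
          rw [Fin.lt_def]
          show p + 0 < p + ((j : ℕ) + 1)
          omega)
        rw [joinE_right, joinS_right, joinE_mid, joinS_mid] at this
        simpa using this
      have ht : t = 1 ∨ t = 0 := by
        have h5 : t ≤ 1 := by exact_mod_cast gt.2
        have h6 := gt.1
        omega
      rcases ht with rfl | rfl
      · left
        refine ⟨?_, rfl, ?_⟩
        · rw [mem_LH]
          refine ⟨gy, ?_⟩
          intro i j hij
          have := g2 (Fin.castAdd (q + 1) i) (Fin.castAdd (q + 1) j) (by
            rw [Fin.lt_def]
            exact hij)
          rw [joinE_left, joinS_left, joinE_left, joinS_left] at this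
          exact this
        · funext j
          have h5 := gtz j
          have h6 := (gz j).2
          omega
      · right
        refine ⟨?_, rfl, ?_⟩
        · funext i
          have h5 := gyt i
          have h6 := (gy i).1
          show y i = 0
          omega
        · rw [mem_LH]
          refine ⟨gz, ?_⟩
          intro i j hij
          have := g2 (Fin.natAdd p i.succ) (Fin.natAdd p j.succ) (by
            rw [Fin.lt_def]
            show p + ((i : ℕ) + 1) < p + ((j : ℕ) + 1)
            have : (i : ℕ) < j := hij
            omega)
          rw [joinE_right, joinS_right, joinE_right, joinS_right] at this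
          exact this
    · rintro (⟨hy, rfl, hwe⟩ | ⟨rfl, rfl, hwm⟩)
      · rw [mem_LH] at hy
        have hwe' : ∀ j, w j = s2 j := fun j => congrArg (fun f => f j) hwe
        constructor
        · intro i
          refine Fin.addCases (fun i => ?_) (fun j => ?_) i
          · rw [joinE_left, joinS_left]
            exact hy.1 i
          · refine Fin.cases ?_ (fun j => ?_) j
            · rw [joinE_mid, joinS_mid]
              norm_num
            · rw [joinE_right, joinS_right, hwe']
              constructor
              · positivity
              · exact le_refl _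
        · intro i j
          refine Fin.addCases (fun i => ?_) (fun i => ?_) i
          · refine Fin.addCases (fun j => ?_) (fun j => ?_) j
            · intro hij
              rw [joinE_left, joinS_left, joinE_left, joinS_left]
              exact hy.2 i j (by
                rw [Fin.lt_def] at hij
                exact hij)
            · refine Fin.cases ?_ (fun j => ?_) j
              · intro _
                rw [joinE_left, joinS_left, joinE_mid, joinS_mid]
                have := (hy.1 i).2
                push_cast
                linarith
              · intro _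
                rw [joinE_left, joinS_left, joinE_right, joinS_right, hwe']
                have := (hy.1 i).2
                have h0 : (0 : ℤ) ≤ s2 j := by positivity
                nlinarith
          · refine Fin.cases ?_ (fun i => ?_) i
            · refine Fin.addCases (fun j => ?_) (fun j => ?_) j
              · intro hij
                exfalso
                rw [Fin.lt_def] at hij
                have h5 : p + 0 < (j : ℕ) := hij
                have := j.2
                omega
              · refine Fin.cases ?_ (fun j => ?_) j
                · intro hij
                  exact absurd hij (lt_irrefl _)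
                · intro _
                  rw [joinE_mid, joinS_mid, joinE_right, joinS_right, hwe']
                  push_cast
                  linarith
            · refine Fin.addCases (fun j => ?_) (fun j => ?_) j
              · intro hij
                exfalso
                rw [Fin.lt_def] at hij
                have h5 : p + ((i : ℕ) + 1) < (j : ℕ) := hij
                have := j.2
                omega
              · refine Fin.cases ?_ (fun j => ?_) j
                · intro hij
                  exfalso
                  rw [Fin.lt_def] at hij
                  have h5 : p + ((i : ℕ) + 1) < p + 0 := hij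
                  omega
                · intro _
                  rw [joinE_right, joinS_right, joinE_right, joinS_right, hwe', hwe']
                  exact le_of_eq (mul_comm _ _)
      · rw [mem_LH] at hwm
        constructor
        · intro i
          refine Fin.addCases (fun i => ?_) (fun j => ?_) i
          · rw [joinE_left, joinS_left]
            show (0 : ℤ) ≤ 0 ∧ (0 : ℤ) ≤ s1 i
            exact ⟨le_refl _, by positivity⟩
          · refine Fin.cases ?_ (fun j => ?_) j
            · rw [joinE_mid, joinS_mid]
              norm_num
            · rw [joinE_right, joinS_right]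
              exact hwm.1 j
        · intro i j
          refine Fin.addCases (fun i => ?_) (fun i => ?_) i
          · refine Fin.addCases (fun j => ?_) (fun j => ?_) j
            · intro hij
              rw [joinE_left, joinS_left, joinE_left, joinS_left]
              simp
            · refine Fin.cases ?_ (fun j => ?_) j
              · intro _
                rw [joinE_left, joinS_left, joinE_mid, joinS_mid]
                simp
              · intro _
                rw [joinE_left, joinS_left, joinE_right, joinS_right]
                have := (hwm.1 j).1
                have h0 : (0 : ℤ) ≤ s1 i := by positivity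
                show (0 : ℤ) * s2 j ≤ w j * s1 i
                rw [zero_mul]
                positivity
          · refine Fin.cases ?_ (fun i => ?_) i
            · refine Fin.addCases (fun j => ?_) (fun j => ?_) j
              · intro hij
                exfalso
                rw [Fin.lt_def] at hij
                have h5 : p + 0 < (j : ℕ) := hij
                have := j.2
                omega
              · refine Fin.cases ?_ (fun j => ?_) j
                · intro hij
                  exact absurd hij (lt_irrefl _)
                · intro _
                  rw [joinE_mid, joinS_mid, joinE_right, joinS_right]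
                  have := (hwm.1 j).1
                  push_cast
                  linarith
            · refine Fin.addCases (fun j => ?_) (fun j => ?_) j
              · intro hij
                exfalso
                rw [Fin.lt_def] at hij
                have h5 : p + ((i : ℕ) + 1) < (j : ℕ) := hij
                have := j.2
                omega
              · refine Fin.cases ?_ (fun j => ?_) j
                · intro hij
                  exfalso
                  rw [Fin.lt_def] at hij
                  have h5 : p + ((i : ℕ) + 1) < p + 0 := hij
                  omega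
                · intro hij
                  rw [joinE_right, joinS_right, joinE_right, joinS_right]
                  apply hwm.2 i j
                  rw [Fin.lt_def] at hij
                  have h5 : p + ((i : ℕ) + 1) < p + ((j : ℕ) + 1) := hij
                  show (i : ℕ) < (j : ℕ)
                  omega
  rw [key]
  constructor
  · rintro (⟨hy, ht, hwe⟩ | ⟨hy, ht, hwm⟩)
    · left
      refine ⟨hy, ht, ?_⟩
      funext j
      have := congrArg (fun f => f j) hwe
      simp only [hwj, ht] at this
      show z j = 0
      linarith
    · right
      refine ⟨hy, ht, ?_⟩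
      have : w = z := by
        funext j
        rw [hwj, ht]
        ring
      rw [← this]
      exact hwm
  · rintro (⟨hy, ht, hz⟩ | ⟨hy, ht, hz⟩)
    · left
      refine ⟨hy, ht, ?_⟩
      funext j
      rw [hwj, ht, hz]
      simp
    · right
      refine ⟨hy, ht, ?_⟩
      have : w = z := by
        funext j
        rw [hwj, ht]
        ring
      rw [this]
      exact hz

end Pool.Agent.LHT
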