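import Pool.Agent.LHT.Rule

set_option autoImplicit false

/-!
Lecture hall simplices: the set of lattice points, insertion of a coordinate.
-/

namespace Pool.Agent.LHT

/-- lattice points of the lecture hall simplex of `s` -/
noncomputable def LH {n : ℕ} (s : Fin n → ℕ) : Finset (Fin n → ℤ) :=
  (Fintype.piFinset (fun i => Finset.Icc (0 : ℤ) (s i))).filter
    (fun x => ∀ i j, i < j → x i * s j ≤ x j * s i)

theorem mem_LH {n : ℕ} {s : Fin n → ℕ} {x : Fin n → ℤ} :
    x ∈ LH s ↔ (∀ i, 0 ≤ x i ∧ x i ≤ s i) ∧ ∀ i j, i < j → x i * s j ≤ x j * s i := by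
  unfold LH
  rw [Finset.mem_filter, Fintype.mem_piFinset]
  simp only [Finset.mem_Icc]

/-- insertion of a coordinate as an isomorphism -/
def insE {n : ℕ} (k : Fin (n + 1)) : ((Fin n → ℤ) × ℤ) ≃+ (Fin (n + 1) → ℤ) where
  toFun v := k.insertNth v.2 v.1
  invFun x := (k.removeNth x, x k)
  left_inv v := by
    apply Prod.ext
    · exact Fin.removeNth_insertNth (α := fun _ => ℤ) k v.2 v.1
    · exact Fin.insertNth_apply_same (α := fun _ => ℤ) k v.2 v.1
  right_inv x := Fin.insertNth_self_removeNth (α := fun _ => ℤ) k x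
  map_add' v w := by
    funext i
    refine Fin.succAboveCases k ?_ (fun i => ?_) i
    · simp
    · simp

theorem insE_same {n : ℕ} (k : Fin (n + 1)) (y : Fin n → ℤ) (t : ℤ) : insE k (y, t) k = t :=
  Fin.insertNth_apply_same (α := fun _ => ℤ) k t y

theorem insE_succ {n : ℕ} (k : Fin (n + 1)) (y : Fin n → ℤ) (t : ℤ) (i : Fin n) :
    insE k (y, t) (k.succAbove i) = y i :=
  Fin.insertNth_apply_succAbove (α := fun _ => ℤ) k t y i

/-- the sequence with `m` inserted at place `k` -/
def insS {n : ℕ} (k : Fin (n + 1)) (m : ℕ) (s : Fin n → ℕ) : Fin (n + 1) → ℕ :=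
  k.insertNth (α := fun _ => ℕ) m s

theorem insS_same {n : ℕ} (k : Fin (n + 1)) (m : ℕ) (s : Fin n → ℕ) : insS k m s k = m :=
  Fin.insertNth_apply_same (α := fun _ => ℕ) k m s

theorem insS_succ {n : ℕ} (k : Fin (n + 1)) (m : ℕ) (s : Fin n → ℕ) (i : Fin n) :
    insS k m s (k.succAbove i) = s i :=
  Fin.insertNth_apply_succAbove (α := fun _ => ℕ) k m s i

/-- the left neighbour of place `k` (`1` at the end) -/
def lft {n : ℕ} (s : Fin n → ℕ) (k : Fin (n + 1)) : ℕ :=
  if h : 0 < (k : ℕ) then s ⟨k - 1, by have := k.2; omega⟩ else 1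

/-- the right neighbour of place `k` (`1` at the end) -/
def rgt {n : ℕ} (s : Fin n → ℕ) (k : Fin (n + 1)) : ℕ :=
  if h : (k : ℕ) < n then s ⟨k, h⟩ else 1

/-- the coordinate to the left of place `k` -/
def al {n : ℕ} (k : Fin (n + 1)) : (Fin n → ℤ) →+ ℤ :=
  if h : 0 < (k : ℕ) then Pi.evalAddMonoidHom (fun _ => ℤ) ⟨k - 1, by have := k.2; omega⟩ else 0

/-- the coordinate to the right of place `k` -/
def be {n : ℕ} (k : Fin (n + 1)) : (Fin n → ℤ) →+ ℤ :=
  if h : (k : ℕ) < n then Pi.evalAddMonoidHom (fun _ => ℤ) ⟨k, h⟩ else 0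

/-- constant term at the right end -/
def be0 {n : ℕ} (k : Fin (n + 1)) : ℤ := if (k : ℕ) < n then 0 else 1

theorem mem_ins_aux {n : ℕ} (k : Fin (n + 1)) (m : ℕ) (s : Fin n → ℕ) (y : Fin n → ℤ) (t : ℤ) :
    insE k (y, t) ∈ LH (insS k m s) ↔ y ∈ LH s ∧ (0 ≤ t ∧ t ≤ m) ∧
      (∀ i : Fin n, i.castSucc < k → y i * m ≤ t * s i) ∧
      (∀ j : Fin n, k ≤ j.castSucc → t * s j ≤ y j * m) := by
  rw [mem_LH, mem_LH]
  constructor
  · rintro ⟨h1, h2⟩
    refine ⟨⟨?_, ?_⟩, ?_, ?_, ?_⟩
    · intro i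
      have := h1 (k.succAbove i)
      rwa [insE_succ, insS_succ] at this
    · intro i j hij
      have := h2 (k.succAbove i) (k.succAbove j) (Fin.succAbove_lt_succAbove_iff.mpr hij)
      rwa [insE_succ, insE_succ, insS_succ, insS_succ] at this
    · have := h1 k
      rwa [insE_same, insS_same] at this
    · intro i hi
      have := h2 (k.succAbove i) k ((Fin.succAbove_lt_iff_castSucc_lt k i).mpr hi)
      rwa [insE_succ, insE_same, insS_succ, insS_same] at this
    · intro j hj
      have := h2 k (k.succAbove j) ((Fin.lt_succAbove_iff_le_castSucc k j).mpr hj)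
      rwa [insE_succ, insE_same, insS_succ, insS_same] at this
  · rintro ⟨⟨h1, h2⟩, h3, h4, h5⟩
    constructor
    · intro i
      refine Fin.succAboveCases k ?_ (fun i => ?_) i
      · rw [insE_same, insS_same]
        exact h3
      · rw [insE_succ, insS_succ]
        exact h1 i
    · intro i
      refine Fin.succAboveCases k ?_ (fun i => ?_) i
      · intro j
        refine Fin.succAboveCases k ?_ (fun j => ?_) j
        · intro h
          exact absurd h (lt_irrefl _)
        · intro h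
          rw [insE_succ, insE_same, insS_succ, insS_same]
          exact h5 j ((Fin.lt_succAbove_iff_le_castSucc k j).mp h)
      · intro j
        refine Fin.succAboveCases k ?_ (fun j => ?_) j
        · intro h
          rw [insE_succ, insE_same, insS_succ, insS_same]
          exact h4 i ((Fin.succAbove_lt_iff_castSucc_lt k i).mp h)
        · intro h
          rw [insE_succ, insE_succ, insS_succ, insS_succ]
          exact h2 i j (Fin.succAbove_lt_succAbove_iff.mp h)

theorem lft_pos {n : ℕ} {s : Fin n → ℕ} (hs : ∀ i, 0 < s i) (k : Fin (n + 1)) : 0 < lft s k := by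
  unfold lft
  split_ifs with h
  · exact hs _
  · norm_num

theorem rgt_pos {n : ℕ} {s : Fin n → ℕ} (hs : ∀ i, 0 < s i) (k : Fin (n + 1)) : 0 < rgt s k := by
  unfold rgt
  split_ifs with h
  · exact hs _
  · norm_num

theorem mem_ins {n : ℕ} (k : Fin (n + 1)) (m : ℕ) (s : Fin n → ℕ) (hs : ∀ i, 0 < s i)
    (y : Fin n → ℤ) (t : ℤ) :
    insE k (y, t) ∈ LH (insS k m s) ↔ y ∈ LH s ∧ (m : ℤ) * (al k y + 0) ≤ (lft s k : ℤ) * t ∧
      (rgt s k : ℤ) * t ≤ (m : ℤ) * (be k y + be0 k) := by
  rw [mem_ins_aux]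
  have hspos : ∀ i, (0 : ℤ) < (s i : ℤ) := fun i => by exact_mod_cast hs i
  have hm : (0 : ℤ) ≤ (m : ℤ) := Int.natCast_nonneg m
  constructor
  · rintro ⟨h1, h2, h3, h4⟩
    refine ⟨h1, ?_, ?_⟩
    · unfold al lft
      split_ifs with hk
      · have := h3 ⟨k - 1, by have := k.2; omega⟩ (by
          rw [Fin.lt_def]
          show (k : ℕ) - 1 < k
          omega)
        show (m : ℤ) * (y ⟨k - 1, _⟩ + 0) ≤ _
        linarith
      · show (m : ℤ) * (0 + 0) ≤ ((1 : ℕ) : ℤ) * t
        push_cast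
        linarith [h2.1]
    · unfold be rgt be0
      by_cases hk : (k : ℕ) < n
      · rw [dif_pos hk, dif_pos hk, if_pos hk]
        have := h4 ⟨k, hk⟩ (by
          rw [Fin.le_def]
          show (k : ℕ) ≤ k
          exact le_rfl)
        show _ ≤ (m : ℤ) * (y ⟨k, _⟩ + 0)
        linarith
      · rw [dif_neg hk, dif_neg hk, if_neg hk]
        show ((1 : ℕ) : ℤ) * t ≤ (m : ℤ) * (0 + 1)
        push_cast
        linarith [h2.2]
  · rintro ⟨h1, h2, h3⟩
    obtain ⟨g1, g2⟩ := mem_LH.mp h1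
    -- lower bounds
    have hlow : 0 ≤ t ∧ ∀ i : Fin n, i.castSucc < k → y i * m ≤ t * s i := by
      unfold al lft at h2
      by_cases hk : 0 < (k : ℕ)
      · rw [dif_pos hk, dif_pos hk] at h2
        set l : Fin n := ⟨k - 1, by have := k.2; omega⟩ with hl
        have h2' : (m : ℤ) * y l ≤ (s l : ℤ) * t := by
          have : (m : ℤ) * (y l + 0) ≤ (s l : ℤ) * t := h2
          linarith
        refine ⟨?_, ?_⟩
        · have h5 : 0 ≤ (s l : ℤ) * t := le_trans (mul_nonneg hm (g1 l).1) h2'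
          exact nonneg_of_mul_nonneg_right h5 (hspos l)
        · intro i hi
          have hil : i ≤ l := by
            rw [Fin.lt_def] at hi
            rw [Fin.le_def]
            show (i : ℕ) ≤ k - 1
            have : (i.castSucc : ℕ) = i := rfl
            omega
          rcases hil.eq_or_lt with h6 | h6
          · rw [h6]
            linarith
          · have h7 := g2 i l h6
            have h8 : 0 ≤ (s l : ℤ) * (t * s i - y i * m) := by
              have e : (s l : ℤ) * (t * s i - y i * m) =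
                (s i : ℤ) * ((s l : ℤ) * t - m * y l) + m * (y l * s i - y i * s l) := by ring
              rw [e]
              exact add_nonneg (mul_nonneg (hspos i).le (by linarith))
                (mul_nonneg hm (by linarith))
            have := nonneg_of_mul_nonneg_right h8 (hspos l)
            linarith
      · rw [dif_neg hk, dif_neg hk] at h2
        have h2' : (m : ℤ) * (0 + 0) ≤ ((1 : ℕ) : ℤ) * t := h2
        push_cast at h2'
        refine ⟨by linarith, ?_⟩
        intro i hi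
        exfalso
        rw [Fin.lt_def] at hi
        omega
    have hupp : t ≤ m ∧ ∀ j : Fin n, k ≤ j.castSucc → t * s j ≤ y j * m := by
      unfold be rgt be0 at h3
      by_cases hk : (k : ℕ) < n
      · rw [dif_pos hk, dif_pos hk, if_pos hk] at h3
        set r : Fin n := ⟨k, hk⟩ with hr
        have h3' : (s r : ℤ) * t ≤ (m : ℤ) * y r := by
          have : (s r : ℤ) * t ≤ (m : ℤ) * (y r + 0) := h3
          linarith
        refine ⟨?_, ?_⟩
        · have h5 : 0 ≤ (s r : ℤ) * (m - t) := by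
            have h6 : 0 ≤ (m : ℤ) * (s r - y r) := mul_nonneg hm (by linarith [(g1 r).2])
            have e : (s r : ℤ) * (m - t) = (m : ℤ) * (s r - y r) + (m * y r - s r * t) := by ring
            rw [e]
            linarith
          have := nonneg_of_mul_nonneg_right h5 (hspos r)
          linarith
        · intro j hj
          have hjr : r ≤ j := by
            rw [Fin.le_def] at hj ⊢
            exact hj
          rcases hjr.eq_or_lt with h6 | h6
          · rw [← h6]
            linarith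
          · have h7 := g2 r j h6
            have h8 : 0 ≤ (s r : ℤ) * (y j * m - t * s j) := by
              have e : (s r : ℤ) * (y j * m - t * s j) =
                (s j : ℤ) * ((m : ℤ) * y r - s r * t) + m * (y j * s r - y r * s j) := by ring
              rw [e]
              exact add_nonneg (mul_nonneg (hspos j).le (by linarith))
                (mul_nonneg hm (by linarith))
            have := nonneg_of_mul_nonneg_right h8 (hspos r)
            linarith
      · rw [dif_neg hk, dif_neg hk, if_neg hk] at h3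
        have h3' : ((1 : ℕ) : ℤ) * t ≤ (m : ℤ) * (0 + 1) := h3
        push_cast at h3'
        refine ⟨by linarith, ?_⟩
        intro j hj
        exfalso
        rw [Fin.le_def] at hj
        have := j.2
        have e : (j.castSucc : ℕ) = j := rfl
        omega
    exact ⟨h1, ⟨hlow.1, hupp.1⟩, hlow.2, hupp.2⟩

theorem hab_LH {n : ℕ} (k : Fin (n + 1)) (s : Fin n → ℕ) (y : Fin n → ℤ) (hy : y ∈ LH s) :
    (rgt s k : ℤ) * (al k y + 0) ≤ (lft s k : ℤ) * (be k y + be0 k) := by
  obtain ⟨g1, g2⟩ := mem_LH.mp hy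
  unfold rgt al lft be be0
  by_cases h1 : 0 < (k : ℕ)
  · by_cases h2 : (k : ℕ) < n
    · rw [dif_pos h1, dif_pos h1, dif_pos h2, dif_pos h2, if_pos h2]
      have := g2 ⟨k - 1, by have := k.2; omega⟩ ⟨k, h2⟩ (by
        rw [Fin.lt_def]
        show (k : ℕ) - 1 < k
        omega)
      show (s ⟨k, h2⟩ : ℤ) * (y ⟨k - 1, _⟩ + 0) ≤ (s ⟨k - 1, _⟩ : ℤ) * (y ⟨k, h2⟩ + 0)
      linarith
    · rw [dif_pos h1, dif_pos h1, dif_neg h2, dif_neg h2, if_neg h2]
      have := (g1 ⟨k - 1, by have := k.2; omega⟩).2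
      show ((1 : ℕ) : ℤ) * (y ⟨k - 1, _⟩ + 0) ≤ (s ⟨k - 1, _⟩ : ℤ) * (0 + 1)
      push_cast
      linarith
  · by_cases h2 : (k : ℕ) < n
    · rw [dif_neg h1, dif_neg h1, dif_pos h2, dif_pos h2, if_pos h2]
      have := (g1 ⟨k, h2⟩).1
      show (s ⟨k, h2⟩ : ℤ) * (0 + 0) ≤ ((1 : ℕ) : ℤ) * (y ⟨k, h2⟩ + 0)
      push_cast
      linarith
    · rw [dif_neg h1, dif_neg h1, dif_neg h2, dif_neg h2, if_neg h2]
      show ((1 : ℕ) : ℤ) * (0 + 0) ≤ ((1 : ℕ) : ℤ) * (0 + 1)
      norm_num

/-- the vertex with zeros before place `k` and maximal entries from `k` on -/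
theorem vertex_LH {n : ℕ} (k : Fin (n + 1)) (s : Fin n → ℕ) :
    ∃ y ∈ LH s, al k y + 0 = 0 ∧ be k y + be0 k = (rgt s k : ℤ) := by
  refine ⟨fun i => if i.castSucc < k then 0 else (s i : ℤ), ?_, ?_, ?_⟩
  · rw [mem_LH]
    constructor
    · intro i
      split_ifs
      · exact ⟨le_rfl, Int.natCast_nonneg _⟩
      · exact ⟨Int.natCast_nonneg _, le_rfl⟩
    · intro i j hij
      by_cases hi : i.castSucc < k
      · rw [if_pos hi, zero_mul]
        split_ifs
        · rw [zero_mul]
        · positivity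
      · rw [if_neg hi]
        have hj : ¬ j.castSucc < k := by
          intro h
          apply hi
          rw [Fin.lt_def] at h hij ⊢
          have e1 : (i.castSucc : ℕ) = i := rfl
          have e2 : (j.castSucc : ℕ) = j := rfl
          omega
        rw [if_neg hj, mul_comm]
  · unfold al
    split_ifs with h
    · show (if (⟨k - 1, _⟩ : Fin n).castSucc < k then (0 : ℤ) else _) + 0 = 0
      rw [if_pos]
      · rfl
      · rw [Fin.lt_def]
        show (k : ℕ) - 1 < k
        omega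
    · rfl
  · unfold be be0 rgt
    by_cases h : (k : ℕ) < n
    · rw [dif_pos h, if_pos h, dif_pos h]
      show (if (⟨k, h⟩ : Fin n).castSucc < k then (0 : ℤ) else (s ⟨k, h⟩ : ℤ)) + 0 = _
      rw [if_neg]
      · ring
      · rw [Fin.lt_def]
        show ¬ (k : ℕ) < k
        exact lt_irrefl _
    · rw [dif_neg h, if_neg h, dif_neg h]
      show (0 : ℤ) + 1 = ((1 : ℕ) : ℤ)
      norm_num

/-- `LH` of the inserted sequence is a slab over `LH` of the sequence -/
theorem RL_ins_iff {n : ℕ} (k : Fin (n + 1)) (m : ℕ) (s : Fin n → ℕ) (T : Finset ((Fin n → ℤ) × ℤ))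
    (hT : ∀ v, v ∈ T ↔ insE k v ∈ LH (insS k m s)) : RL T ↔ RL (LH (insS k m s)) := by
  constructor
  · intro h
    refine RL_affine (insE k) 0 ?_ h
    intro v
    rw [add_zero, hT]
  · intro h
    refine RL_affine (insE k).symm 0 ?_ h
    intro x
    rw [add_zero, hT, AddEquiv.apply_symm_apply]

open Classical in
/-- the slab -/
noncomputable def slab {n : ℕ} (k : Fin (n + 1)) (m : ℕ) (s : Fin n → ℕ) :
    Finset ((Fin n → ℤ) × ℤ) := (LH (insS k m s)).image (insE k).symm

theorem mem_slab {n : ℕ} (k : Fin (n + 1)) (m : ℕ) (s : Fin n → ℕ) (v : (Fin n → ℤ) × ℤ) :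
    v ∈ slab k m s ↔ insE k v ∈ LH (insS k m s) := by
  classical
  unfold slab
  rw [Finset.mem_image]
  constructor
  · rintro ⟨x, hx, rfl⟩
    rw [AddEquiv.apply_symm_apply]
    exact hx
  · intro h
    exact ⟨_, h, AddEquiv.symm_apply_apply _ _⟩

/-- insertion of a multiple of the least common multiple of the neighbours -/
theorem RL_insert {n : ℕ} (k : Fin (n + 1)) (s : Fin n → ℕ) (hs : ∀ i, 0 < s i) (j : ℕ)
    (h : RL (LH s)) : RL (LH (insS k (j * Nat.lcm (lft s k) (rgt s k)) s)) := by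
  set a := lft s k with ha
  set b := rgt s k with hb
  obtain ⟨p, hp⟩ := Nat.dvd_lcm_left a b
  obtain ⟨q, hq⟩ := Nat.dvd_lcm_right a b
  set m := j * Nat.lcm a b with hm
  rw [← RL_ins_iff k m s (slab k m s) (mem_slab k m s)]
  have e1 : (m : ℤ) = (a : ℤ) * ((j * p : ℕ) : ℤ) := by
    rw [hm]
    nth_rewrite 1 [hp]
    push_cast
    ring
  have e2 : (m : ℤ) = (b : ℤ) * ((j * q : ℕ) : ℤ) := by
    rw [hm]
    nth_rewrite 1 [hq]
    push_cast
    ring
  apply rule2 (LH s) h (al k) (be k) 0 (be0 k) (a : ℤ) (b : ℤ) ((j * p : ℕ) : ℤ) ((j * q : ℕ) : ℤ)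
  · exact_mod_cast lft_pos hs k
  · exact_mod_cast rgt_pos hs k
  · positivity
  · rw [← e1, ← e2]
  · exact fun y hy => hab_LH k s y hy
  · rintro ⟨y, t⟩
    rw [mem_slab, mem_ins k m s hs, ← e1]

/-- a parameter divisible by its left neighbour may be increased by multiples of the least common
multiple of its neighbours -/
theorem RL_increase {n : ℕ} (k : Fin (n + 1)) (s : Fin n → ℕ) (hs : ∀ i, 0 < s i) (m j : ℕ)
    (hm : 0 < m) (hdiv : lft s k ∣ m) (h : RL (LH (insS k m s))) :
    RL (LH (insS k (m + j * Nat.lcm (lft s k) (rgt s k)) s)) := by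
  set a := lft s k with ha
  set b := rgt s k with hb
  have hapos : 0 < a := lft_pos hs k
  have hbpos : 0 < b := rgt_pos hs k
  obtain ⟨p, hp⟩ := Nat.dvd_lcm_left a b
  obtain ⟨q, hq⟩ := Nat.dvd_lcm_right a b
  obtain ⟨c, hc⟩ := hdiv
  have hcpos : 0 < c := by
    rcases Nat.eq_zero_or_pos c with h0 | h0
    · rw [h0, mul_zero] at hc
      omega
    · exact h0
  set m' := m + j * Nat.lcm a b with hm'
  rw [← RL_ins_iff k m' s (slab k m' s) (mem_slab k m' s)]
  rw [← RL_ins_iff k m s (slab k m s) (mem_slab k m s)] at h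
  have e1 : ((j * Nat.lcm a b : ℕ) : ℤ) = (a : ℤ) * ((j * p : ℕ) : ℤ) := by
    nth_rewrite 1 [hp]
    push_cast
    ring
  have e2 : ((j * Nat.lcm a b : ℕ) : ℤ) = (b : ℤ) * ((j * q : ℕ) : ℤ) := by
    nth_rewrite 1 [hq]
    push_cast
    ring
  have e3 : (m : ℤ) = (a : ℤ) * (c : ℤ) := by
    rw [hc]
    push_cast
    ring
  have e4 : (m' : ℤ) = (a : ℤ) * (c : ℤ) + (a : ℤ) * ((j * p : ℕ) : ℤ) := by
    rw [hm', Nat.cast_add, e1, e3]
  apply rule1 (LH s) (al k) (be k) 0 (be0 k) (a : ℤ) (b : ℤ) (c : ℤ) ((j * p : ℕ) : ℤ)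
    ((j * q : ℕ) : ℤ) (by exact_mod_cast hapos) (by exact_mod_cast hbpos) (by positivity)
    (by positivity) (by rw [← e1, ← e2]) (fun y hy => hab_LH k s y hy) ?_ (slab k m s)
    (slab k m' s) ?_ ?_ h
  · obtain ⟨y, hy, h1, h2⟩ := vertex_LH k s
    refine ⟨y, hy, ?_⟩
    rw [h1, h2, mul_zero, add_zero]
    have h3 : b ≤ a * c * b := Nat.le_mul_of_pos_left b (Nat.mul_pos hapos hcpos)
    exact_mod_cast h3
  · rintro ⟨y, t⟩
    rw [mem_slab, mem_ins k m s hs, ← e3]
  · rintro ⟨y, t⟩
    rw [mem_slab, mem_ins k m' s hs, ← e4]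

end Pool.Agent.LHT
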