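import Pool.Agent.LHT.LH

set_option autoImplicit false

/-!
Lecture hall simplices: reversal, the empty sequence, joins.
-/

namespace Pool.Agent.LHT

/-- coordinates in reversed order -/
def revE (n : ℕ) : (Fin n → ℤ) ≃+ (Fin n → ℤ) where
  toFun x := fun i => -x i.rev
  invFun x := fun i => -x i.rev
  left_inv x := by
    funext i
    simp
  right_inv x := by
    funext i
    simp
  map_add' x y := by
    funext i
    show -(x i.rev + y i.rev) = -x i.rev + -y i.rev
    ring

/-- reversal -/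
theorem RL_rev {n : ℕ} (s : Fin n → ℕ) (h : RL (LH s)) : RL (LH (fun i => s i.rev)) := by
  refine RL_affine (revE n) (fun i : Fin n => (s i.rev : ℤ)) ?_ h
  intro x
  have hv : ∀ i, (revE n x + fun i : Fin n => (s i.rev : ℤ)) i = s i.rev - x i.rev := by
    intro i
    show -x i.rev + (s i.rev : ℤ) = _
    ring
  rw [mem_LH, mem_LH]
  simp only [hv]
  constructor
  · rintro ⟨h1, h2⟩
    constructor
    · intro i
      have := h1 i.rev
      rw [Fin.rev_rev] at this
      constructor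
      · linarith [this.2]
      · linarith [this.1]
    · intro i j hij
      have := h2 j.rev i.rev (Fin.rev_lt_rev.mpr hij)
      rw [Fin.rev_rev, Fin.rev_rev] at this
      linarith
  · rintro ⟨h1, h2⟩
    constructor
    · intro i
      have := h1 i.rev
      constructor
      · linarith [this.2]
      · linarith [this.1]
    · intro i j hij
      have := h2 j.rev i.rev (Fin.rev_lt_rev.mpr hij)
      linarith

/-- the empty sequence -/
theorem RL_zero (s : Fin 0 → ℕ) : RL (LH s) := by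
  refine ⟨fun _ => 0, ?_⟩
  intro φ b hle hs
  have h0 : (0 : Fin 0 → ℤ) ∈ LH s := by
    rw [mem_LH]
    exact ⟨fun i => i.elim0, fun i => i.elim0⟩
  have hb : b = 0 := by
    have h1 : ∀ v ∈ contact (LH s) (fun _ => 0) φ b, v = 0 := fun v _ => Subsingleton.elim _ _
    have h2 : (contact (LH s) (fun _ => (0 : ℝ)) φ b).Nonempty := by
      by_contra hcon
      rw [Finset.not_nonempty_iff_eq_empty] at hcon
      have := hs 0 1 (by
        intro v hv
        rw [hcon] at hv
        exact absurd hv (Finset.notMem_empty v))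
      exact one_ne_zero this.2
    obtain ⟨v, hv⟩ := h2
    have h3 := (mem_contact.mp hv).2
    rw [h1 v hv, map_zero, zero_add] at h3
    exact h3
  have hC : contact (LH s) (fun _ => (0 : ℝ)) φ b = {0} := by
    apply Finset.ext
    intro v
    rw [mem_contact, Finset.mem_singleton]
    constructor
    · intro _
      exact Subsingleton.elim _ _
    · intro hv
      rw [hv, map_zero, hb]
      exact ⟨h0, by norm_num⟩
  rw [hC]
  refine ⟨fun _ => 0, fun _ => 1, ?_, ?_, ?_⟩
  · intro p hp q hq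
    rw [Finset.mem_singleton] at hp hq
    rw [hp, hq]
    simp
  · intro v
    simp
  · intro v
    exact Subsingleton.elim _ _

section Join

variable {Y Z : Type} [AddCommGroup Y] [AddCommGroup Z]

/-- join of two sets: `S1` at level one, `S2` at level zero -/
theorem RL_join (S1 : Finset Y) (S2 : Finset Z) (h1 : RL S1) (h2 : RL S2)
    (S : Finset (Y × ℤ × Z))
    (hS : ∀ v, v ∈ S ↔ (v.1 ∈ S1 ∧ v.2.1 = 1 ∧ v.2.2 = 0) ∨ (v.1 = 0 ∧ v.2.1 = 0 ∧ v.2.2 ∈ S2)) :
    RL S := by
  classical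
  obtain ⟨ω1, hω1⟩ := h1
  obtain ⟨ω2, hω2⟩ := h2
  refine ⟨fun v => if v.2.1 = 1 then ω1 v.1 else ω2 v.2.2, ?_⟩
  intro φ b hle hs
  set C := contact S (fun v => if v.2.1 = 1 then ω1 v.1 else ω2 v.2.2) φ b with hC
  have hsplit : ∀ (χ : Y × ℤ × Z →+ ℝ) (y : Y) (t : ℤ) (z : Z),
      χ (y, t, z) = χ (y, 0, 0) + t * χ (0, 1, 0) + χ (0, 0, z) := by
    intro χ y t z
    have e : ((y, t, z) : Y × ℤ × Z) = (y, 0, 0) + t • ((0, 1, 0) : Y × ℤ × Z) + (0, 0, z) := by
      ext <;> simp
    rw [e, map_add, map_add, map_zsmul]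
    simp
  set φ1 : Y →+ ℝ := φ.comp (AddMonoidHom.inl Y (ℤ × Z)) with hφ1
  set φ2 : Z →+ ℝ := φ.comp ((AddMonoidHom.inr Y (ℤ × Z)).comp (AddMonoidHom.inr ℤ Z)) with hφ2
  set τ : ℝ := φ (0, 1, 0) with hτ
  have hφ1v : ∀ y, φ1 y = φ (y, 0, 0) := fun y => rfl
  have hφ2v : ∀ z, φ2 z = φ (0, 0, z) := fun z => rfl
  have hφz : φ (0, 0, 0) = 0 := map_zero φ
  have hv1 : ∀ y, φ (y, 1, 0) + b = φ1 y + (τ + b) := by
    intro y
    rw [hsplit, hφ1v, hφz]
    push_cast
    ring
  have hv2 : ∀ z, φ (0, 0, z) + b = φ2 z + b := fun z => rfl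
  set C1 := contact S1 ω1 φ1 (τ + b) with hC1
  set C2 := contact S2 ω2 φ2 b with hC2
  have hm1 : ∀ y, (y, (1 : ℤ), (0 : Z)) ∈ C ↔ y ∈ C1 := by
    intro y
    rw [hC, hC1, mem_contact, mem_contact, hv1, hS]
    simp
  have hm2 : ∀ z, ((0 : Y), (0 : ℤ), z) ∈ C ↔ z ∈ C2 := by
    intro z
    rw [hC, hC2, mem_contact, mem_contact, hv2, hS]
    simp
  have hform : ∀ v ∈ C, (∃ y ∈ C1, v = (y, 1, 0)) ∨ (∃ z ∈ C2, v = (0, 0, z)) := by
    rintro ⟨y, t, z⟩ hv
    rcases (hS _).mp (mem_contact.mp hv).1 with ⟨_, a2, a3⟩ | ⟨a1, a2, _⟩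
    · dsimp only at a2 a3
      rw [a2, a3] at hv ⊢
      exact Or.inl ⟨y, (hm1 y).mp hv, rfl⟩
    · dsimp only at a1 a2
      rw [a1, a2] at hv ⊢
      exact Or.inr ⟨z, (hm2 z).mp hv, rfl⟩
  have hle1 : ∀ y ∈ S1, φ1 y + (τ + b) ≤ ω1 y := by
    intro y hy
    have := hle (y, 1, 0) ((hS _).mpr (Or.inl ⟨hy, rfl, rfl⟩))
    rw [hv1] at this
    simpa using this
  have hle2 : ∀ z ∈ S2, φ2 z + b ≤ ω2 z := by
    intro z hz
    have := hle (0, 0, z) ((hS _).mpr (Or.inr ⟨rfl, rfl, hz⟩))
    rw [hv2] at this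
    simpa using this
  have hs1 : Spans C1 := by
    intro χ d hχ
    have h3 := hs (χ.comp (AddMonoidHom.fst Y (ℤ × Z)) +
      (AddMonoidHom.mulLeft d).comp ((Int.castAddHom ℝ).comp
        ((AddMonoidHom.fst ℤ Z).comp (AddMonoidHom.snd Y (ℤ × Z))))) 0 (by
      intro v hv
      rcases hform v hv with ⟨y, hy, rfl⟩ | ⟨z, hz, rfl⟩
      · have := hχ y hy
        show χ y + d * ((1 : ℤ) : ℝ) + 0 = 0
        push_cast
        linarith
      · show χ 0 + d * ((0 : ℤ) : ℝ) + 0 = 0
        rw [map_zero]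
        push_cast
        ring)
    have h4 : ∀ (y : Y) (t : ℤ) (z : Z), χ y + d * ((t : ℤ) : ℝ) = 0 := by
      intro y t z
      have := congrArg (fun f => f ((y, t, z) : Y × ℤ × Z)) h3.1
      exact this
    constructor
    · ext y
      have := h4 y 0 0
      push_cast at this
      show χ y = 0
      linarith
    · have := h4 0 1 0
      rw [map_zero] at this
      push_cast at this
      linarith
  have hs2 : Spans C2 := by
    intro χ d hχ
    have h3 := hs (χ.comp ((AddMonoidHom.snd ℤ Z).comp (AddMonoidHom.snd Y (ℤ × Z))) -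
      (AddMonoidHom.mulLeft d).comp ((Int.castAddHom ℝ).comp
        ((AddMonoidHom.fst ℤ Z).comp (AddMonoidHom.snd Y (ℤ × Z))))) d (by
      intro v hv
      rcases hform v hv with ⟨y, hy, rfl⟩ | ⟨z, hz, rfl⟩
      · show χ 0 - d * ((1 : ℤ) : ℝ) + d = 0
        rw [map_zero]
        push_cast
        ring
      · have := hχ z hz
        show χ z - d * ((0 : ℤ) : ℝ) + d = 0
        push_cast
        linarith)
    refine ⟨?_, h3.2⟩
    ext z
    have := congrArg (fun f => f ((0, 0, z) : Y × ℤ × Z)) h3.1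
    have h5 : χ z - d * ((0 : ℤ) : ℝ) = 0 := this
    show χ z = 0
    push_cast at h5
    linarith
  obtain ⟨ψ1, c1, a1, a2, a3⟩ := hω1 φ1 (τ + b) hle1 hs1
  obtain ⟨ψ2, c2, b1, b2, b3⟩ := hω2 φ2 b hle2 hs2
  -- consequences of the sum identities
  have a4 : ∑ p ∈ C1, c1 p = 1 := by
    have := a2 0
    simpa using this
  have a5 : ∀ y, ∑ p ∈ C1, ψ1 p y = 0 := by
    intro y
    have := a2 y
    rw [Finset.sum_add_distrib, a4] at this
    linarith
  have a6 : ∑ p ∈ C1, c1 p • p = 0 := by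
    have := a3 0
    simpa using this
  have a7 : ∀ y, ∑ p ∈ C1, ψ1 p y • p = y := by
    intro y
    have := a3 y
    simp only [add_smul] at this
    rw [Finset.sum_add_distrib, a6, add_zero] at this
    exact this
  have b4 : ∑ p ∈ C2, c2 p = 1 := by
    have := b2 0
    simpa using this
  have b5 : ∀ z, ∑ p ∈ C2, ψ2 p z = 0 := by
    intro z
    have := b2 z
    rw [Finset.sum_add_distrib, b4] at this
    linarith
  have b6 : ∑ p ∈ C2, c2 p • p = 0 := by
    have := b3 0
    simpa using this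
  have b7 : ∀ z, ∑ p ∈ C2, ψ2 p z • p = z := by
    intro z
    have := b3 z
    simp only [add_smul] at this
    rw [Finset.sum_add_distrib, b6, add_zero] at this
    exact this
  set pr1 : Y × ℤ × Z →+ Y := AddMonoidHom.fst Y (ℤ × Z) with hpr1
  set prt : Y × ℤ × Z →+ ℤ := (AddMonoidHom.fst ℤ Z).comp (AddMonoidHom.snd Y (ℤ × Z)) with hprt
  set pr2 : Y × ℤ × Z →+ Z := (AddMonoidHom.snd ℤ Z).comp (AddMonoidHom.snd Y (ℤ × Z)) with hpr2
  let ψ : Y × ℤ × Z → Y × ℤ × Z →+ ℤ := fun q =>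
    if q.2.1 = 1 then (ψ1 q.1).comp pr1 + c1 q.1 • prt
    else (ψ2 q.2.2).comp pr2 - c2 q.2.2 • prt
  let c : Y × ℤ × Z → ℤ := fun q => if q.2.1 = 1 then 0 else c2 q.2.2
  have hval1 : ∀ p v, ψ (p, 1, 0) v + c (p, 1, 0) = ψ1 p v.1 + c1 p * v.2.1 := by
    intro p v
    simp only [ψ, c, if_true]
    show ψ1 p v.1 + c1 p • v.2.1 + 0 = _
    rw [smul_eq_mul]
    ring
  have hval2 : ∀ p v, ψ (0, 0, p) v + c (0, 0, p) = ψ2 p v.2.2 + c2 p * (1 - v.2.1) := by
    intro p v
    have h01 : ¬ ((0 : ℤ) = 1) := by norm_num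
    simp only [ψ, c, if_neg h01]
    show ψ2 p v.2.2 - c2 p • v.2.1 + c2 p = _
    rw [smul_eq_mul]
    ring
  have hsum : ∀ {M : Type} [AddCommMonoid M] (F : Y × ℤ × Z → M),
      ∑ q ∈ C, F q = ∑ p ∈ C1, F (p, 1, 0) + ∑ p ∈ C2, F (0, 0, p) := by
    intro M _ F
    have e1 : ∑ p ∈ C1, F (p, 1, 0) =
        ∑ q ∈ C1.image (fun p => ((p, 1, 0) : Y × ℤ × Z)), F q := by
      rw [Finset.sum_image]
      intro p _ q _ h
      exact congrArg Prod.fst h
    have e2 : ∑ p ∈ C2, F (0, 0, p) =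
        ∑ q ∈ C2.image (fun p => ((0, 0, p) : Y × ℤ × Z)), F q := by
      rw [Finset.sum_image]
      intro p _ q _ h
      exact congrArg (fun v => v.2.2) h
    rw [e1, e2, ← Finset.sum_union]
    · apply Finset.sum_congr _ (fun _ _ => rfl)
      apply Finset.ext
      intro v
      rw [Finset.mem_union, Finset.mem_image, Finset.mem_image]
      constructor
      · intro hv
        rcases hform v hv with ⟨y, hy, rfl⟩ | ⟨z, hz, rfl⟩
        · exact Or.inl ⟨y, hy, rfl⟩
        · exact Or.inr ⟨z, hz, rfl⟩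
      · rintro (⟨y, hy, rfl⟩ | ⟨z, hz, rfl⟩)
        · exact (hm1 y).mpr hy
        · exact (hm2 z).mpr hz
    · rw [Finset.disjoint_left]
      intro v hv hv'
      obtain ⟨y, _, rfl⟩ := Finset.mem_image.mp hv
      obtain ⟨z, _, h⟩ := Finset.mem_image.mp hv'
      have : (0 : ℤ) = 1 := congrArg (fun v => v.2.1) h
      norm_num at this
  refine ⟨ψ, c, ?_, ?_, ?_⟩
  · intro p hp q hq
    rcases hform p hp with ⟨y, hy, rfl⟩ | ⟨z, hz, rfl⟩
    · rw [hval1]
      rcases hform q hq with ⟨y', hy', rfl⟩ | ⟨z', hz', rfl⟩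
      · have h := a1 y hy y' hy'
        show ψ1 y y' + c1 y * 1 = _
        rw [mul_one, h]
        by_cases hyy : y = y'
        · rw [if_pos hyy, if_pos (by rw [hyy])]
        · rw [if_neg hyy, if_neg (fun h5 => hyy (congrArg Prod.fst h5))]
      · show ψ1 y 0 + c1 y * 0 = _
        rw [map_zero, if_neg]
        · ring
        · intro h5
          have : (1 : ℤ) = 0 := congrArg (fun v => v.2.1) h5
          norm_num at this
    · rw [hval2]
      rcases hform q hq with ⟨y', hy', rfl⟩ | ⟨z', hz', rfl⟩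
      · show ψ2 z 0 + c2 z * (1 - 1) = _
        rw [map_zero, if_neg]
        · ring
        · intro h5
          have : (0 : ℤ) = 1 := congrArg (fun v => v.2.1) h5
          norm_num at this
      · have h := b1 z hz z' hz'
        show ψ2 z z' + c2 z * (1 - 0) = _
        rw [sub_zero, mul_one, h]
        by_cases hzz : z = z'
        · rw [if_pos hzz, if_pos (by rw [hzz])]
        · rw [if_neg hzz, if_neg (fun h5 => hzz (congrArg (fun v => v.2.2) h5))]
  · intro v
    rw [hsum (fun q => ψ q v + c q)]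
    simp only [hval1, hval2]
    rw [Finset.sum_add_distrib, Finset.sum_add_distrib, ← Finset.sum_mul, ← Finset.sum_mul, a5, b5,
      a4, b4]
    ring
  · intro v
    rw [hsum (fun q => (ψ q v + c q) • q)]
    simp only [hval1, hval2]
    have e1 : ∑ p ∈ C1, (ψ1 p v.1 + c1 p * v.2.1) • ((p, 1, 0) : Y × ℤ × Z) =
        (v.1, v.2.1, 0) := by
      apply Prod.ext
      · rw [Prod.fst_sum]
        show ∑ p ∈ C1, (ψ1 p v.1 + c1 p * v.2.1) • p = v.1
        simp only [add_smul]
        rw [Finset.sum_add_distrib, a7]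
        have : ∑ p ∈ C1, (c1 p * v.2.1) • p = v.2.1 • ∑ p ∈ C1, c1 p • p := by
          rw [Finset.smul_sum]
          apply Finset.sum_congr rfl
          intro p _
          rw [smul_smul, mul_comm]
        rw [this, a6, smul_zero, add_zero]
      · apply Prod.ext
        · rw [Prod.snd_sum, Prod.fst_sum]
          show ∑ p ∈ C1, (ψ1 p v.1 + c1 p * v.2.1) * 1 = v.2.1
          simp only [mul_one]
          rw [Finset.sum_add_distrib, ← Finset.sum_mul, a5, a4]
          ring
        · rw [Prod.snd_sum, Prod.snd_sum]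
          simp
    have e2 : ∑ p ∈ C2, (ψ2 p v.2.2 + c2 p * (1 - v.2.1)) • ((0, 0, p) : Y × ℤ × Z) =
        (0, 0, v.2.2) := by
      apply Prod.ext
      · rw [Prod.fst_sum]
        simp
      · apply Prod.ext
        · rw [Prod.snd_sum, Prod.fst_sum]
          simp
        · rw [Prod.snd_sum, Prod.snd_sum]
          show ∑ p ∈ C2, (ψ2 p v.2.2 + c2 p * (1 - v.2.1)) • p = v.2.2
          simp only [add_smul]
          rw [Finset.sum_add_distrib, b7]
          have : ∑ p ∈ C2, (c2 p * (1 - v.2.1)) • p = (1 - v.2.1) • ∑ p ∈ C2, c2 p • p := by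
            rw [Finset.smul_sum]
            apply Finset.sum_congr rfl
            intro p _
            rw [smul_smul, mul_comm]
          rw [this, b6, smul_zero, add_zero]
    rw [e1, e2]
    ext <;> simp

end Join

end Pool.Agent.LHT
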