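import Pool.Agent.LHT.Basic

set_option autoImplicit false

/-!
Regular unimodular triangulations of finite sets of lattice points: refinement of a regular
subdivision, scaling, faces.
-/

namespace Pool.Agent.LHT

section
variable {Λ : Type} [AddCommGroup Λ]

theorem Spans.mono {A C : Finset Λ} (hA : Spans A) (h : A ⊆ C) : Spans C := by
  intro φ b hφ
  exact hA φ b (fun v hv => hφ v (h hv))

/-- auxiliary statement for a fixed contact set -/
lemma refine_aux (S C : Finset Λ) (ω₀ ω₁ : Λ → ℝ)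
    (h : ∀ (φ : Λ →+ ℝ) (b : ℝ), (∀ v ∈ S, φ v + b ≤ ω₀ v) → Spans (contact S ω₀ φ b) →
      RLw (contact S ω₀ φ b) ω₁) :
    ∃ M₀ : ℝ, ∀ M : ℝ, M₀ ≤ M → ∀ (φ : Λ →+ ℝ) (b : ℝ),
      (∀ v ∈ S, φ v + b ≤ M * ω₀ v + ω₁ v) →
      contact S (fun v => M * ω₀ v + ω₁ v) φ b = C → Spans C → Uni C := by
  by_contra hcon
  push Not at hcon
  obtain ⟨M1, -, φ1, b1, -, hc1, hs, hU⟩ := hcon 0
  obtain ⟨M2, hM2, φ2, b2, -, hc2, -, -⟩ := hcon (M1 + 1)
  have hM : 0 < M2 - M1 := by linarith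
  set L : Λ →+ ℝ := (M2 - M1)⁻¹ • (φ2 - φ1) with hL
  set bL : ℝ := (M2 - M1)⁻¹ * (b2 - b1) with hbL
  set E : Λ →+ ℝ := φ1 - M1 • L with hE
  set bE : ℝ := b1 - M1 * bL with hbE
  have hLv : ∀ v, L v = (M2 - M1)⁻¹ * (φ2 v - φ1 v) := by
    intro v
    rw [hL]
    rfl
  have hEv : ∀ v, E v = φ1 v - M1 * L v := by
    intro v
    rw [hE]
    rfl
  have hC1 : ∀ v ∈ C, v ∈ S ∧ φ1 v + b1 = M1 * ω₀ v + ω₁ v := by
    intro v hv
    rw [← hc1, mem_contact] at hv
    exact hv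
  have hC2 : ∀ v ∈ C, v ∈ S ∧ φ2 v + b2 = M2 * ω₀ v + ω₁ v := by
    intro v hv
    rw [← hc2, mem_contact] at hv
    exact hv
  have hL1 : ∀ v ∈ C, L v + bL = ω₀ v := by
    intro v hv
    have e1 := (hC1 v hv).2
    have e2 := (hC2 v hv).2
    rw [hLv, hbL, ← mul_add]
    have e3 : φ2 v - φ1 v + (b2 - b1) = (M2 - M1) * ω₀ v := by linarith
    rw [e3, inv_mul_cancel_left₀ hM.ne']
  have hE1 : ∀ v ∈ C, E v + bE = ω₁ v := by
    intro v hv
    have e1 := (hC1 v hv).2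
    have e2 := hL1 v hv
    rw [hEv, hbE]
    have e3 : φ1 v - M1 * L v + (b1 - M1 * bL) = φ1 v + b1 - M1 * (L v + bL) := by ring
    rw [e3, e2, e1]
    ring
  have hall : ∀ N : ℝ, ∃ M : ℝ, N ≤ M ∧
      ∀ v ∈ S, M * (L v + bL) + (E v + bE) ≤ M * ω₀ v + ω₁ v := by
    intro N
    obtain ⟨M, hM, φ, b, hle, hc, -, -⟩ := hcon N
    refine ⟨M, hM, ?_⟩
    have hz := hs (φ - M • L - E) (b - M * bL - bE) (by
      intro v hv
      have e1 : φ v + b = M * ω₀ v + ω₁ v := by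
        rw [← hc, mem_contact] at hv
        exact hv.2
      have e2 := hL1 v hv
      have e3 := hE1 v hv
      show φ v - M * L v - E v + (b - M * bL - bE) = 0
      have e4 : φ v - M * L v - E v + (b - M * bL - bE) =
        (φ v + b) - M * (L v + bL) - (E v + bE) := by ring
      rw [e4, e1, e2, e3]
      ring)
    intro v hv
    have h1 : φ v - M * L v - E v = 0 := by
      have := congrArg (fun f => f v) hz.1
      exact this
    have h2 := hle v hv
    have h3 := hz.2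
    have h4 : M * (L v + bL) + (E v + bE) = φ v + b := by linarith
    rw [h4]
    exact h2
  have hLle : ∀ v ∈ S, L v + bL ≤ ω₀ v := by
    intro v hv
    by_contra hlt
    push Not at hlt
    have hg : 0 < L v + bL - ω₀ v := by linarith
    obtain ⟨M, hM, hle⟩ := hall ((|ω₁ v - (E v + bE)| + 1) / (L v + bL - ω₀ v))
    have h1 := hle v hv
    rw [div_le_iff₀ hg] at hM
    have h2 := le_abs_self (ω₁ v - (E v + bE))
    nlinarith
  have hsub : C ⊆ contact S ω₀ L bL := by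
    intro v hv
    rw [mem_contact]
    exact ⟨(hC1 v hv).1, hL1 v hv⟩
  have hR := h L bL hLle (hs.mono hsub)
  obtain ⟨M, -, hle⟩ := hall 0
  have hEle : ∀ v ∈ contact S ω₀ L bL, E v + bE ≤ ω₁ v := by
    intro v hv
    rw [mem_contact] at hv
    have h1 := hle v hv.1
    rw [hv.2] at h1
    linarith
  have hsub2 : C ⊆ contact (contact S ω₀ L bL) ω₁ E bE := by
    intro v hv
    rw [mem_contact]
    exact ⟨hsub hv, hE1 v hv⟩
  have hU2 := hR E bE hEle (hs.mono hsub2)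
  exact hU (by rw [eq_of_spans hU2 hsub2 hs]; exact hU2)

/-- Refinement of a regular subdivision: if `ω₁` gives a regular unimodular triangulation of every
cell of the subdivision of `ω₀`, then so does `M ω₀ + ω₁` for all large `M`. -/
theorem refinement (S : Finset Λ) (ω₀ ω₁ : Λ → ℝ)
    (h : ∀ (φ : Λ →+ ℝ) (b : ℝ), (∀ v ∈ S, φ v + b ≤ ω₀ v) → Spans (contact S ω₀ φ b) →
      RLw (contact S ω₀ φ b) ω₁) :
    ∃ M₀ : ℝ, ∀ M : ℝ, M₀ ≤ M → RLw S (fun v => M * ω₀ v + ω₁ v) := by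
  classical
  choose f hf using fun C : Finset Λ => refine_aux S C ω₀ ω₁ h
  refine ⟨∑ C ∈ S.powerset, |f C|, ?_⟩
  intro M hM φ b hle hs
  have hmem : contact S (fun v => M * ω₀ v + ω₁ v) φ b ∈ S.powerset := by
    rw [Finset.mem_powerset]
    intro v hv
    exact (mem_contact.mp hv).1
  refine hf _ M ?_ φ b hle rfl hs
  refine le_trans (le_abs_self _) (le_trans ?_ hM)
  exact Finset.single_le_sum (f := fun C => |f C|) (fun C _ => abs_nonneg _) hmem

/-- scaling of the heights -/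
theorem RLw.scale {S : Finset Λ} {ω : Λ → ℝ} (h : RLw S ω) {M : ℝ} (hM : 0 < M) :
    RLw S (fun v => M * ω v) := by
  intro φ b hle hs
  have hc : contact S (fun v => M * ω v) φ b = contact S ω (M⁻¹ • φ) (M⁻¹ * b) := by
    ext v
    rw [mem_contact, mem_contact]
    have e : (M⁻¹ • φ) v + M⁻¹ * b = M⁻¹ * (φ v + b) := by
      show M⁻¹ * φ v + M⁻¹ * b = _
      ring
    rw [e]
    constructor
    · rintro ⟨h1, h2⟩
      refine ⟨h1, ?_⟩
      rw [h2, inv_mul_cancel_left₀ hM.ne']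
    · rintro ⟨h1, h2⟩
      refine ⟨h1, ?_⟩
      rw [← h2, mul_inv_cancel_left₀ hM.ne']
  rw [hc] at hs ⊢
  refine h _ _ ?_ hs
  intro v hv
  have h1 := hle v hv
  have e : (M⁻¹ • φ) v + M⁻¹ * b = M⁻¹ * (φ v + b) := by
    show M⁻¹ * φ v + M⁻¹ * b = _
    ring
  rw [e]
  calc M⁻¹ * (φ v + b) ≤ M⁻¹ * (M * ω v) :=
        mul_le_mul_of_nonneg_left h1 (inv_pos.mpr hM).le
    _ = ω v := inv_mul_cancel_left₀ hM.ne' _

/-- the heights matter only on the set -/
theorem RLw.congr {S : Finset Λ} {ω ω' : Λ → ℝ} (h : RLw S ω) (he : ∀ v ∈ S, ω v = ω' v) :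
    RLw S ω' := by
  intro φ b hle hs
  have hc : contact S ω' φ b = contact S ω φ b := by
    ext v
    rw [mem_contact, mem_contact]
    constructor
    · rintro ⟨h1, h2⟩
      exact ⟨h1, by rw [h2, he v h1]⟩
    · rintro ⟨h1, h2⟩
      exact ⟨h1, by rw [h2, he v h1]⟩
  rw [hc] at hs ⊢
  refine h _ _ ?_ hs
  intro v hv
  rw [he v hv]
  exact hle v hv

end

end Pool.Agent.LHT
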