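import Pool.Agent.LHT.Glue

set_option autoImplicit false

/-!
Regular unimodular triangulations: the two insertion rules for slabs between two affine functions.
-/

namespace Pool.Agent.LHT

section
variable {Y : Type} [AddCommGroup Y]

/-- the shear `(y, t) ↦ (y, t + γ y)` -/
def shear (γ : Y →+ ℤ) : (Y × ℤ) ≃+ (Y × ℤ) where
  toFun v := (v.1, v.2 + γ v.1)
  invFun v := (v.1, v.2 - γ v.1)
  left_inv v := by
    apply Prod.ext
    · rfl
    · show v.2 + γ v.1 - γ v.1 = v.2
      ring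
  right_inv v := by
    apply Prod.ext
    · rfl
    · show v.2 - γ v.1 + γ v.1 = v.2
      ring
  map_add' v w := by
    apply Prod.ext
    · rfl
    · show v.2 + w.2 + γ (v.1 + w.1) = v.2 + γ v.1 + (w.2 + γ w.1)
      rw [map_add]
      ring

/-- affine shears preserve the property -/
theorem RL_shear (γ : Y →+ ℤ) (g : ℤ) (S S' : Finset (Y × ℤ))
    (h : ∀ y t, (y, t + (γ y + g)) ∈ S' ↔ (y, t) ∈ S) (hS : RL S) : RL S' := by
  refine RL_affine (shear γ) (0, g) ?_ hS
  rintro ⟨y, t⟩
  rw [← h]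
  have e : shear γ (y, t) + (0, g) = (y, t + (γ y + g)) := by
    apply Prod.ext
    · show y + 0 = y
      rw [add_zero]
    · show t + γ y + g = t + (γ y + g)
      ring
  rw [e]

/-- adding a common multiple to a parameter divisible by the lower neighbour -/
theorem rule1 (B : Finset Y) (α β : Y →+ ℤ) (α₀ β₀ : ℤ) (a b c p q : ℤ) (ha : 0 < a) (hb : 0 < b)
    (hc : 0 ≤ c) (hp : 0 ≤ p) (hpq : a * p = b * q)
    (hab : ∀ y ∈ B, b * (α y + α₀) ≤ a * (β y + β₀))
    (hex : ∃ y ∈ B, b + b * c * (α y + α₀) ≤ a * c * (β y + β₀))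
    (T T' : Finset (Y × ℤ))
    (hT : ∀ v, v ∈ T ↔ v.1 ∈ B ∧ (a * c) * (α v.1 + α₀) ≤ a * v.2 ∧
      b * v.2 ≤ (a * c) * (β v.1 + β₀))
    (hT' : ∀ v, v ∈ T' ↔ v.1 ∈ B ∧ (a * c + a * p) * (α v.1 + α₀) ≤ a * v.2 ∧
      b * v.2 ≤ (a * c + a * p) * (β v.1 + β₀))
    (hR : RL T) : RL T' := by
  classical
  -- `U` : `T` sheared so that its lower face is horizontal
  set U : Finset (Y × ℤ) := T.image (fun v => (v.1, v.2 - c * (α v.1 + α₀))) with hU
  have hUm : ∀ y t, (y, t) ∈ U ↔ y ∈ B ∧ 0 ≤ t ∧ b * (t + c * (α y + α₀)) ≤ a * c * (β y + β₀) := by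
    intro y t
    rw [hU, Finset.mem_image]
    constructor
    · rintro ⟨v, hv, hvt⟩
      obtain ⟨h1, h2, h3⟩ := (hT v).mp hv
      have e1 : v.1 = y := congrArg Prod.fst hvt
      have e2 : v.2 - c * (α v.1 + α₀) = t := congrArg Prod.snd hvt
      rw [e1] at h1 h2 h3 e2
      have e3 : v.2 = t + c * (α y + α₀) := by linarith
      rw [e3] at h2 h3
      refine ⟨h1, ?_, h3⟩
      have h4 : 0 ≤ a * t := by linarith
      exact nonneg_of_mul_nonneg_right h4 ha
    · rintro ⟨h1, h2, h3⟩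
      refine ⟨(y, t + c * (α y + α₀)), (hT _).mpr ⟨h1, ?_, h3⟩, ?_⟩
      · dsimp only
        have h4 : 0 ≤ a * t := mul_nonneg ha.le h2
        linarith
      · apply Prod.ext
        · rfl
        · show t + c * (α y + α₀) - c * (α y + α₀) = t
          ring
  have hRU : RL U := by
    apply RL_shear (-(c • α)) (-(c * α₀)) T U _ hR
    intro y t
    rw [hUm, hT]
    have e : (-(c • α)) y + -(c * α₀) = -(c * (α y + α₀)) := by
      show -(c • α y) + -(c * α₀) = _
      rw [smul_eq_mul]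
      ring
    rw [e]
    dsimp only
    have e2 : t + -(c * (α y + α₀)) + c * (α y + α₀) = t := by ring
    rw [e2]
    constructor
    · rintro ⟨h1, h2, h3⟩
      refine ⟨h1, ?_, h3⟩
      have h4 := mul_nonneg ha.le h2
      linarith
    · rintro ⟨h1, h2, h3⟩
      refine ⟨h1, ?_, h3⟩
      have h4 : 0 ≤ a * (t + -(c * (α y + α₀))) := by linarith
      exact nonneg_of_mul_nonneg_right h4 ha
  -- the chimney height
  have hηv : ∀ y, (q • β - p • α) y + (q * β₀ - p * α₀) = q * (β y + β₀) - p * (α y + α₀) := by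
    intro y
    show q • β y - p • α y + (q * β₀ - p * α₀) = _
    rw [smul_eq_mul, smul_eq_mul]
    ring
  have hη : ∀ y ∈ B, 0 ≤ (q • β - p • α) y + (q * β₀ - p * α₀) := by
    intro y hy
    rw [hηv]
    have h1 := hab y hy
    have h2 : 0 ≤ a * (b * (q * (β y + β₀) - p * (α y + α₀))) := by
      have e : a * (b * (q * (β y + β₀) - p * (α y + α₀))) =
          (b * q) * (a * (β y + β₀)) - (a * p) * (b * (α y + α₀)) := by ring
      rw [e, ← hpq, ← mul_sub]
      exact mul_nonneg (mul_nonneg ha.le hp) (by linarith)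
    have h3 := nonneg_of_mul_nonneg_right h2 ha
    exact nonneg_of_mul_nonneg_right h3 hb
  have hBU : ∀ y, y ∈ B ↔ (y, (0 : ℤ)) ∈ U := by
    intro y
    rw [hUm]
    constructor
    · intro hy
      refine ⟨hy, le_rfl, ?_⟩
      have := mul_le_mul_of_nonneg_left (hab y hy) hc
      linarith
    · intro h
      exact h.1
  set S : Finset (Y × ℤ) := T'.image (fun v => (v.1, v.2 - (c * (α v.1 + α₀) + q * (β v.1 + β₀))))
    with hSdef
  have hSm' : ∀ y t, (y, t) ∈ S ↔ y ∈ B ∧ -(q * (β y + β₀) - p * (α y + α₀)) ≤ t ∧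
      b * (t + c * (α y + α₀)) ≤ a * c * (β y + β₀) := by
    intro y t
    have key : ∀ u : ℤ, u = t + (c * (α y + α₀) + q * (β y + β₀)) →
        (((a * c + a * p) * (α y + α₀) ≤ a * u ∧ b * u ≤ (a * c + a * p) * (β y + β₀)) ↔
        (-(q * (β y + β₀) - p * (α y + α₀)) ≤ t ∧
          b * (t + c * (α y + α₀)) ≤ a * c * (β y + β₀))) := by
      intro u hu
      have e1 : a * u - (a * c + a * p) * (α y + α₀) =
          a * (t + (q * (β y + β₀) - p * (α y + α₀))) := by
        rw [hu]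
        ring
      have e2 : (a * c + a * p) * (β y + β₀) - b * u =
          a * c * (β y + β₀) - b * (t + c * (α y + α₀)) := by
        rw [hu, hpq]
        ring
      constructor
      · rintro ⟨h1, h2⟩
        constructor
        · have h3 : 0 ≤ a * (t + (q * (β y + β₀) - p * (α y + α₀))) := by linarith
          have h4 := nonneg_of_mul_nonneg_right h3 ha
          linarith
        · linarith
      · rintro ⟨h1, h2⟩
        constructor
        · have h3 : 0 ≤ a * (t + (q * (β y + β₀) - p * (α y + α₀))) :=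
            mul_nonneg ha.le (by linarith)
          linarith
        · linarith
    rw [hSdef, Finset.mem_image]
    constructor
    · rintro ⟨v, hv, hvt⟩
      obtain ⟨h1, h2⟩ := (hT' v).mp hv
      have e1 : v.1 = y := congrArg Prod.fst hvt
      have e2 : v.2 - (c * (α v.1 + α₀) + q * (β v.1 + β₀)) = t := congrArg Prod.snd hvt
      rw [e1] at h1 h2 e2
      exact ⟨h1, (key v.2 (by linarith)).mp h2⟩
    · rintro ⟨h1, h2⟩
      refine ⟨(y, t + (c * (α y + α₀) + q * (β y + β₀))),
        (hT' _).mpr ⟨h1, (key _ rfl).mpr h2⟩, ?_⟩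
      apply Prod.ext
      · rfl
      · show t + (c * (α y + α₀) + q * (β y + β₀)) - (c * (α y + α₀) + q * (β y + β₀)) = t
        ring
  have hSm : ∀ v, v ∈ S ↔ v ∈ U ∨
      (v.1 ∈ B ∧ -((q • β - p • α) v.1 + (q * β₀ - p * α₀)) ≤ v.2 ∧ v.2 ≤ 0) := by
    rintro ⟨y, t⟩
    rw [hSm', hUm]
    dsimp only
    rw [hηv]
    constructor
    · rintro ⟨h1, h2, h3⟩
      by_cases ht : 0 ≤ t
      · exact Or.inl ⟨h1, ht, h3⟩
      · exact Or.inr ⟨h1, h2, by omega⟩
    · rintro (⟨h1, h2, h3⟩ | ⟨h1, h2, h3⟩)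
      · refine ⟨h1, ?_, h3⟩
        have := hη y h1
        rw [hηv] at this
        linarith
      · refine ⟨h1, h2, ?_⟩
        have h4 := mul_le_mul_of_nonneg_left (hab y h1) hc
        have h5 : b * t ≤ 0 := mul_nonpos_of_nonneg_of_nonpos hb.le h3
        linarith
  have hpos : ∃ v ∈ U, 0 < v.2 := by
    obtain ⟨y, hy, h1⟩ := hex
    refine ⟨(y, 1), (hUm y 1).mpr ⟨hy, by norm_num, ?_⟩, by norm_num⟩
    linarith
  have hRS : RL S := by
    refine RL_glue U hRU ?_ hpos B hBU ?_ (q • β - p • α) (q * β₀ - p * α₀) hη S hSm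
    · rintro ⟨y, t⟩ hv
      exact ((hUm y t).mp hv).2.1
    · rintro ⟨y, t⟩ hv
      exact ((hUm y t).mp hv).1
  apply RL_shear (c • α + q • β) (c * α₀ + q * β₀) S T' _ hRS
  intro y t
  have e : (c • α + q • β) y + (c * α₀ + q * β₀) = c * (α y + α₀) + q * (β y + β₀) := by
    show c • α y + q • β y + (c * α₀ + q * β₀) = _
    rw [smul_eq_mul, smul_eq_mul]
    ring
  rw [e, hSdef, Finset.mem_image]
  constructor
  · intro h
    refine ⟨_, h, ?_⟩
    apply Prod.ext
    · rfl
    · show t + (c * (α y + α₀) + q * (β y + β₀)) - (c * (α y + α₀) + q * (β y + β₀)) = t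
      ring
  · rintro ⟨v, hv, hvt⟩
    have e1 : v.1 = y := congrArg Prod.fst hvt
    have e2 : v.2 - (c * (α v.1 + α₀) + q * (β v.1 + β₀)) = t := congrArg Prod.snd hvt
    rw [e1] at e2
    have e3 : v = (y, t + (c * (α y + α₀) + q * (β y + β₀))) := by
      apply Prod.ext
      · exact e1
      · show v.2 = _
        linarith
    rw [← e3]
    exact hv

/-- inserting a common multiple -/
theorem rule2 (B : Finset Y) (hB : RL B) (α β : Y →+ ℤ) (α₀ β₀ : ℤ) (a b p q : ℤ)
    (ha : 0 < a) (hb : 0 < b) (hp : 0 ≤ p) (hpq : a * p = b * q)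
    (hab : ∀ y ∈ B, b * (α y + α₀) ≤ a * (β y + β₀))
    (T : Finset (Y × ℤ))
    (hT : ∀ v, v ∈ T ↔ v.1 ∈ B ∧ (a * p) * (α v.1 + α₀) ≤ a * v.2 ∧
      b * v.2 ≤ (a * p) * (β v.1 + β₀)) : RL T := by
  classical
  have hηv : ∀ y, (q • β - p • α) y + (q * β₀ - p * α₀) = q * (β y + β₀) - p * (α y + α₀) := by
    intro y
    show q • β y - p • α y + (q * β₀ - p * α₀) = _
    rw [smul_eq_mul, smul_eq_mul]
    ring
  have hη : ∀ y ∈ B, 0 ≤ (q • β - p • α) y + (q * β₀ - p * α₀) := by
    intro y hy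
    rw [hηv]
    have h1 := hab y hy
    have h2 : 0 ≤ a * (b * (q * (β y + β₀) - p * (α y + α₀))) := by
      have e : a * (b * (q * (β y + β₀) - p * (α y + α₀))) =
          (b * q) * (a * (β y + β₀)) - (a * p) * (b * (α y + α₀)) := by ring
      rw [e, ← hpq, ← mul_sub]
      exact mul_nonneg (mul_nonneg ha.le hp) (by linarith)
    have h3 := nonneg_of_mul_nonneg_right h2 ha
    exact nonneg_of_mul_nonneg_right h3 hb
  set S : Finset (Y × ℤ) := T.image (fun v => (v.1, v.2 - q * (β v.1 + β₀))) with hSdef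
  have hSm : ∀ v, v ∈ S ↔ v.1 ∈ B ∧ -((q • β - p • α) v.1 + (q * β₀ - p * α₀)) ≤ v.2 ∧ v.2 ≤ 0 := by
    rintro ⟨y, t⟩
    dsimp only
    rw [hηv]
    have key : ∀ u : ℤ, u = t + q * (β y + β₀) →
        ((a * p * (α y + α₀) ≤ a * u ∧ b * u ≤ a * p * (β y + β₀)) ↔
        (-(q * (β y + β₀) - p * (α y + α₀)) ≤ t ∧ t ≤ 0)) := by
      intro u hu
      have e1 : a * u - a * p * (α y + α₀) = a * (t + (q * (β y + β₀) - p * (α y + α₀))) := by
        rw [hu]
        ring
      have e2 : a * p * (β y + β₀) - b * u = b * (-t) := by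
        rw [hu, hpq]
        ring
      constructor
      · rintro ⟨h1, h2⟩
        constructor
        · have h3 : 0 ≤ a * (t + (q * (β y + β₀) - p * (α y + α₀))) := by linarith
          have h4 := nonneg_of_mul_nonneg_right h3 ha
          linarith
        · have h3 : 0 ≤ b * (-t) := by linarith
          have h4 := nonneg_of_mul_nonneg_right h3 hb
          linarith
      · rintro ⟨h1, h2⟩
        constructor
        · have h3 : 0 ≤ a * (t + (q * (β y + β₀) - p * (α y + α₀))) :=
            mul_nonneg ha.le (by linarith)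
          linarith
        · have h3 : 0 ≤ b * (-t) := mul_nonneg hb.le (by linarith)
          linarith
    rw [hSdef, Finset.mem_image]
    constructor
    · rintro ⟨v, hv, hvt⟩
      obtain ⟨h1, h2⟩ := (hT v).mp hv
      have e1 : v.1 = y := congrArg Prod.fst hvt
      have e2 : v.2 - q * (β v.1 + β₀) = t := congrArg Prod.snd hvt
      rw [e1] at h1 h2 e2
      exact ⟨h1, (key v.2 (by linarith)).mp h2⟩
    · rintro ⟨h1, h2⟩
      refine ⟨(y, t + q * (β y + β₀)), (hT _).mpr ⟨h1, (key _ rfl).mpr h2⟩, ?_⟩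
      apply Prod.ext
      · rfl
      · show t + q * (β y + β₀) - q * (β y + β₀) = t
        ring
  have hRS : RL S := RL_low B hB (q • β - p • α) (q * β₀ - p * α₀) hη S hSm
  apply RL_shear (q • β) (q * β₀) S T _ hRS
  intro y t
  have e : (q • β) y + q * β₀ = q * (β y + β₀) := by
    show q • β y + q * β₀ = _
    rw [smul_eq_mul]
    ring
  rw [e, hSdef, Finset.mem_image]
  constructor
  · intro h
    refine ⟨_, h, ?_⟩
    apply Prod.ext
    · rfl
    · show t + q * (β y + β₀) - q * (β y + β₀) = t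
      ring
  · rintro ⟨v, hv, hvt⟩
    have e1 : v.1 = y := congrArg Prod.fst hvt
    have e2 : v.2 - q * (β v.1 + β₀) = t := congrArg Prod.snd hvt
    rw [e1] at e2
    have e3 : v = (y, t + q * (β y + β₀)) := by
      apply Prod.ext
      · exact e1
      · show v.2 = _
        linarith
    rw [← e3]
    exact hv

end

end Pool.Agent.LHT
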