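import Pool.Agent.LHT.Final

/-!
From heights to triangulations: covering and face-to-face property, in full.
-/

namespace Pool.Agent.LHT

section abstract_part

variable {Λ : Type} [AddCommGroup Λ]

/-- there is a supporting function with spanning contact set -/
theorem exists_spanning (S : Finset Λ) (ω : Λ → ℝ) (hS : Spans S) (hne : S.Nonempty) :
    ∃ (φ : Λ →+ ℝ) (b : ℝ), (∀ v ∈ S, φ v + b ≤ ω v) ∧ Spans (contact S ω φ b) := by
  classical
  set Q := S.powerset.filter (fun C => ∃ (φ : Λ →+ ℝ) (b : ℝ), (∀ v ∈ S, φ v + b ≤ ω v) ∧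
    contact S ω φ b = C) with hQ
  have hQne : Q.Nonempty := by
    obtain ⟨v0, hv0, hmin⟩ := Finset.exists_min_image S ω hne
    refine ⟨contact S ω 0 (ω v0), ?_⟩
    rw [hQ, Finset.mem_filter, Finset.mem_powerset]
    refine ⟨fun v hv => (mem_contact.mp hv).1, 0, ω v0, ?_, rfl⟩
    intro v hv
    have := hmin v hv
    simpa using this
  obtain ⟨C, hC, hmax⟩ := Finset.exists_max_image Q Finset.card hQne
  rw [hQ, Finset.mem_filter] at hC
  obtain ⟨-, φ, b, hle, hcon⟩ := hC
  refine ⟨φ, b, hle, ?_⟩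
  by_contra hns
  unfold Spans at hns
  push Not at hns
  obtain ⟨χ0, d0, hvan0, hne0⟩ := hns
  have hex0 : ∃ v ∈ S, χ0 v + d0 ≠ 0 := by
    by_contra hcon2
    push Not at hcon2
    obtain ⟨h1, h2⟩ := hS χ0 d0 hcon2
    exact hne0 h1 h2
  obtain ⟨χ, d, hvan, w, hwS, hw⟩ : ∃ (χ : Λ →+ ℝ) (d : ℝ),
      (∀ v ∈ contact S ω φ b, χ v + d = 0) ∧ ∃ w ∈ S, 0 < χ w + d := by
    obtain ⟨v, hv, hv2⟩ := hex0
    rcases lt_or_gt_of_ne hv2 with h | h
    · refine ⟨-χ0, -d0, ?_, v, hv, ?_⟩
      · intro u hu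
        have := hvan0 u hu
        show -(χ0 u) + -d0 = 0
        linarith
      · show 0 < -(χ0 v) + -d0
        linarith
    · exact ⟨χ0, d0, hvan0, v, hv, h⟩
  set P := S.filter (fun v => 0 < χ v + d) with hP
  have hPne : P.Nonempty := ⟨w, Finset.mem_filter.mpr ⟨hwS, hw⟩⟩
  obtain ⟨v0, hv0, hmin⟩ := Finset.exists_min_image P (fun v => (ω v - φ v - b) / (χ v + d)) hPne
  rw [hP, Finset.mem_filter] at hv0
  obtain ⟨hv0S, hv0p⟩ := hv0
  set t : ℝ := (ω v0 - φ v0 - b) / (χ v0 + d) with ht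
  have ht0 : 0 ≤ t := by
    apply div_nonneg
    · have := hle v0 hv0S
      linarith
    · exact hv0p.le
  have htv0 : t * (χ v0 + d) = ω v0 - φ v0 - b := by
    rw [ht]
    field_simp
  have hval : ∀ v, (φ + t • χ) v + (b + t * d) = φ v + b + t * (χ v + d) := by
    intro v
    show φ v + t * χ v + (b + t * d) = _
    ring
  have hle' : ∀ v ∈ S, (φ + t • χ) v + (b + t * d) ≤ ω v := by
    intro v hv
    rw [hval]
    by_cases hpos : 0 < χ v + d
    · have h1 := hmin v (Finset.mem_filter.mpr ⟨hv, hpos⟩)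
      have h2 : t ≤ (ω v - φ v - b) / (χ v + d) := h1
      rw [le_div_iff₀ hpos] at h2
      linarith
    · have h1 := hle v hv
      have h2 : t * (χ v + d) ≤ 0 := mul_nonpos_of_nonneg_of_nonpos ht0 (not_lt.mp hpos)
      linarith
  have hmem : contact S ω (φ + t • χ) (b + t * d) ∈ Q := by
    rw [hQ, Finset.mem_filter, Finset.mem_powerset]
    exact ⟨fun v hv => (mem_contact.mp hv).1, _, _, hle', rfl⟩
  have hsub : insert v0 (contact S ω φ b) ⊆ contact S ω (φ + t • χ) (b + t * d) := by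
    intro v hv
    rw [Finset.mem_insert] at hv
    rw [mem_contact, hval]
    rcases hv with rfl | hv
    · exact ⟨hv0S, by rw [htv0]; ring⟩
    · have h1 := mem_contact.mp hv
      refine ⟨h1.1, ?_⟩
      rw [hvan v hv, h1.2]
      ring
  have hnot : v0 ∉ contact S ω φ b := by
    intro h
    have := hvan v0 h
    linarith
  have hcard := Finset.card_le_card hsub
  rw [Finset.card_insert_of_notMem hnot] at hcard
  have := hmax _ hmem
  rw [hcon] at hcard
  omega

/-- covering: for a point of the hull (given by the evaluation functional `E`) there is a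
unimodular contact set whose barycentric functions are nonnegative at the point -/
theorem exists_cell (S : Finset Λ) (ω : Λ → ℝ) (hω : RLw S ω) (hS : Spans S) (hne : S.Nonempty)
    (E : (Λ →+ ℝ) → ℝ) (hE : ∀ (φ χ : Λ →+ ℝ) (t : ℝ), E (φ + t • χ) = E φ + t * E χ)
    (hx : ∀ (χ : Λ →+ ℝ) (d : ℝ), (∀ v ∈ S, 0 ≤ χ v + d) → 0 ≤ E χ + d) :
    ∃ (φ : Λ →+ ℝ) (b : ℝ), (∀ v ∈ S, φ v + b ≤ ω v) ∧ Spans (contact S ω φ b) ∧
      ∃ (ψ : Λ → Λ →+ ℤ) (c : Λ → ℤ),
        (∀ v, ∑ p ∈ contact S ω φ b, (ψ p v + c p) = 1) ∧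
        (∀ v, ∑ p ∈ contact S ω φ b, (ψ p v + c p) • p = v) ∧
        ∀ p ∈ contact S ω φ b, 0 ≤ E ((Int.castAddHom ℝ).comp (ψ p)) + c p := by
  classical
  set Q := S.powerset.filter (fun C => ∃ (φ : Λ →+ ℝ) (b : ℝ), (∀ v ∈ S, φ v + b ≤ ω v) ∧
    contact S ω φ b = C ∧ Spans C) with hQ
  have hQne : Q.Nonempty := by
    obtain ⟨φ, b, h1, h2⟩ := exists_spanning S ω hS hne
    refine ⟨contact S ω φ b, ?_⟩
    rw [hQ, Finset.mem_filter, Finset.mem_powerset]
    exact ⟨fun v hv => (mem_contact.mp hv).1, φ, b, h1, rfl, h2⟩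
  have hQ2 : ∀ C ∈ Q, ∃ (φ : Λ →+ ℝ) (b : ℝ), (∀ v ∈ S, φ v + b ≤ ω v) ∧
    contact S ω φ b = C ∧ Spans C := fun C hC => (Finset.mem_filter.mp hC).2
  choose! F B hF using hQ2
  obtain ⟨C, hC, hmax⟩ := Finset.exists_max_image Q (fun C => E (F C) + B C) hQne
  obtain ⟨hle, hcon, hsp⟩ := hF C hC
  have hbest : ∀ (φ : Λ →+ ℝ) (b : ℝ), (∀ v ∈ S, φ v + b ≤ ω v) → Spans (contact S ω φ b) →
      E φ + b ≤ E (F C) + B C := by
    intro φ b h1 h2
    have hm : contact S ω φ b ∈ Q := by
      rw [hQ, Finset.mem_filter, Finset.mem_powerset]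
      exact ⟨fun v hv => (mem_contact.mp hv).1, φ, b, h1, rfl, h2⟩
    have h3 := hmax _ hm
    obtain ⟨-, g2, g3⟩ := hF _ hm
    have h4 := h2 (F (contact S ω φ b) - φ) (B (contact S ω φ b) - b) (by
      intro v hv
      have e1 := (mem_contact.mp hv).2
      have e2 : v ∈ contact S ω (F (contact S ω φ b)) (B (contact S ω φ b)) := by
        rw [g2]; exact hv
      have e3 := (mem_contact.mp e2).2
      show F (contact S ω φ b) v - φ v + (B (contact S ω φ b) - b) = 0
      linarith)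
    have h5 : F (contact S ω φ b) = φ := sub_eq_zero.mp h4.1
    have h6 : B (contact S ω φ b) = b := sub_eq_zero.mp h4.2
    rw [h5, h6] at h3
    exact h3
  have hsp' : Spans (contact S ω (F C) (B C)) := by rw [hcon]; exact hsp
  refine ⟨F C, B C, hle, hsp', ?_⟩
  obtain ⟨ψ, c, g1, g2, g3⟩ := hω _ _ hle hsp'
  refine ⟨ψ, c, g2, g3, ?_⟩
  intro p hp
  by_contra hneg
  push Not at hneg
  set μ : Λ →+ ℝ := (Int.castAddHom ℝ).comp (ψ p) with hμ
  have hμv : ∀ v, μ v = ((ψ p v : ℤ) : ℝ) := fun v => rfl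
  have hex : ∃ v ∈ S, μ v + c p < 0 := by
    by_contra hcon2
    push Not at hcon2
    have := hx μ (c p) hcon2
    linarith
  set P := S.filter (fun v => μ v + c p < 0) with hP
  have hPne : P.Nonempty := by
    obtain ⟨v, h1, h2⟩ := hex
    exact ⟨v, Finset.mem_filter.mpr ⟨h1, h2⟩⟩
  obtain ⟨v0, hv0, hmin⟩ := Finset.exists_min_image P
    (fun v => (ω v - F C v - B C) / (-(μ v + c p))) hPne
  rw [hP, Finset.mem_filter] at hv0
  obtain ⟨hv0S, hv0n⟩ := hv0
  have hnn : ∀ q ∈ contact S ω (F C) (B C), 0 ≤ μ q + c p := by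
    intro q hq
    have h1 := g1 p hp q hq
    rw [hμv]
    have h2 : (0 : ℤ) ≤ ψ p q + c p := by
      rw [h1]
      split_ifs
      · norm_num
      · exact le_refl 0
    exact_mod_cast h2
  have hv0c : v0 ∉ contact S ω (F C) (B C) := by
    intro h
    have := hnn v0 h
    linarith
  have hstrict : F C v0 + B C < ω v0 := by
    rcases (hle v0 hv0S).lt_or_eq with h | h
    · exact h
    · exact absurd (mem_contact.mpr ⟨hv0S, h⟩) hv0c
  set t : ℝ := (ω v0 - F C v0 - B C) / (-(μ v0 + c p)) with ht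
  have ht0 : 0 < t := by
    apply div_pos
    · linarith
    · linarith
  have htv0 : t * (μ v0 + c p) = -(ω v0 - F C v0 - B C) := by
    have hne0 : μ v0 + c p ≠ 0 := hv0n.ne
    rw [ht, div_neg, neg_mul, div_mul_cancel₀ _ hne0]
  have hval : ∀ v, (F C + (-t) • μ) v + (B C + (-t) * c p) = F C v + B C - t * (μ v + c p) := by
    intro v
    show F C v + (-t) * μ v + (B C + (-t) * c p) = _
    ring
  have hle' : ∀ v ∈ S, (F C + (-t) • μ) v + (B C + (-t) * c p) ≤ ω v := by
    intro v hv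
    rw [hval]
    by_cases hn : μ v + c p < 0
    · have h1 := hmin v (Finset.mem_filter.mpr ⟨hv, hn⟩)
      have h2 : t ≤ (ω v - F C v - B C) / (-(μ v + c p)) := h1
      have h3 : 0 < -(μ v + c p) := by linarith
      rw [le_div_iff₀ h3] at h2
      linarith
    · have h1 := hle v hv
      have h2 : 0 ≤ t * (μ v + c p) := mul_nonneg ht0.le (not_lt.mp hn)
      linarith
  have hsp2 : Spans (contact S ω (F C + (-t) • μ) (B C + (-t) * c p)) := by
    intro χ d hχ
    have hcq : ∀ q ∈ contact S ω (F C) (B C), q ≠ p → χ q + d = 0 := by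
      intro q hq hqp
      apply hχ
      rw [mem_contact, hval]
      have h1 := mem_contact.mp hq
      have h2 := g1 p hp q hq
      rw [if_neg (Ne.symm hqp)] at h2
      have h3 : μ q + c p = 0 := by
        rw [hμv]
        exact_mod_cast h2
      exact ⟨h1.1, by rw [h3, h1.2]; ring⟩
    have hv0' : χ v0 + d = 0 := by
      apply hχ
      rw [mem_contact, hval, htv0]
      exact ⟨hv0S, by ring⟩
    have h1 := hsp' (χ + (-(χ p + d)) • μ) (d + (-(χ p + d)) * c p) (by
      intro q hq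
      show χ q + (-(χ p + d)) * μ q + (d + (-(χ p + d)) * c p) = 0
      by_cases hqp : q = p
      · have h2 := g1 p hp p hp
        rw [if_pos rfl] at h2
        have h3 : μ p + c p = 1 := by
          rw [hμv]
          exact_mod_cast h2
        rw [hqp]
        have h4 : χ p + (-(χ p + d)) * μ p + (d + (-(χ p + d)) * c p)
            = (χ p + d) - (χ p + d) * (μ p + c p) := by ring
        rw [h4, h3]
        ring
      · have h2 := g1 p hp q hq
        rw [if_neg (Ne.symm hqp)] at h2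
        have h3 : μ q + c p = 0 := by
          rw [hμv]
          exact_mod_cast h2
        have h4 : χ q + (-(χ p + d)) * μ q + (d + (-(χ p + d)) * c p)
            = (χ q + d) - (χ p + d) * (μ q + c p) := by ring
        rw [h4, h3, hcq q hq hqp]
        ring)
    have h2 : χ v0 + (-(χ p + d)) * μ v0 = 0 := by
      have := congrArg (fun f => f v0) h1.1
      exact this
    have h3 : (χ p + d) * (μ v0 + c p) = 0 := by
      have h4 := h1.2
      have h5 : (χ p + d) * (μ v0 + c p) = (χ v0 + d) - (χ v0 + (-(χ p + d)) * μ v0)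
        - (d + (-(χ p + d)) * c p) := by ring
      rw [h5, hv0', h2, h4]
      ring
    have h4 : χ p + d = 0 := (mul_eq_zero.mp h3).resolve_right hv0n.ne
    rw [h4] at h1
    have h5 := h1.1
    have h6 := h1.2
    rw [neg_zero, zero_smul, add_zero] at h5
    rw [neg_zero, zero_mul, add_zero] at h6
    exact ⟨h5, h6⟩
  have hfin := hbest _ _ hle' hsp2
  rw [hE] at hfin
  nlinarith [mul_pos ht0 (neg_pos.mpr hneg)]

end abstract_part

end Pool.Agent.LHT
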