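import Pool.Agent.LHT.Tri

/-!
Regular unimodular triangulations of lattice polytopes, in full.
-/

namespace Pool.Agent.LHT

/-- `T` is a regular unimodular triangulation of `P ⊆ ℝⁿ` with the heights `ω`: every `σ ∈ T` is
the vertex set of a unimodular simplex with vertices in `P ∩ ℤⁿ`; the simplices cover `P`; two of
them meet in the convex hull of their common vertices; and `T` consists exactly of the vertex sets
of the lower facets of the lifted lattice points of `P`. -/
def IsRUT {n : ℕ} (P : Set (Fin n → ℝ)) (T : Set (Finset (Fin n → ℤ))) (ω : (Fin n → ℤ) → ℝ) :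
    Prop :=
  (∀ σ ∈ T, (∀ v ∈ σ, lat v ∈ P) ∧ ∃ w : Fin (n + 1) → (Fin n → ℤ),
    Set.range w = (σ : Set (Fin n → ℤ)) ∧
    |(Matrix.of fun i j : Fin n => w i.succ j - w 0 j).det| = 1) ∧
  (⋃ σ ∈ T, convexHull ℝ (lat '' (σ : Set (Fin n → ℤ)))) = P ∧
  (∀ σ ∈ T, ∀ τ ∈ T, convexHull ℝ (lat '' (σ : Set (Fin n → ℤ))) ∩
      convexHull ℝ (lat '' (τ : Set (Fin n → ℤ)))
    = convexHull ℝ (lat '' ((σ : Set (Fin n → ℤ)) ∩ (τ : Set (Fin n → ℤ))))) ∧
  ∀ σ : Finset (Fin n → ℤ), σ ∈ T ↔ ∃ (c : Fin n → ℝ) (b : ℝ),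
    (∀ v : Fin n → ℤ, lat v ∈ P → ∑ i, c i * lat v i + b ≤ ω v) ∧
    (∀ v : Fin n → ℤ, v ∈ σ ↔ lat v ∈ P ∧ ∑ i, c i * lat v i + b = ω v) ∧
    affineSpan ℝ (lat '' (σ : Set (Fin n → ℤ))) = ⊤

section real_part

variable {n : ℕ}

/-- evaluation of a homomorphism at a real point -/
noncomputable def ev (x : Fin n → ℝ) (φ : (Fin n → ℤ) →+ ℝ) : ℝ := ∑ j, φ (Pi.single j 1) * x j

theorem ev_add (x : Fin n → ℝ) (φ χ : (Fin n → ℤ) →+ ℝ) (t : ℝ) :
    ev x (φ + t • χ) = ev x φ + t * ev x χ := by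
  unfold ev
  rw [Finset.mul_sum, ← Finset.sum_add_distrib]
  apply Finset.sum_congr rfl
  intro j _
  show (φ (Pi.single j 1) + t * χ (Pi.single j 1)) * x j = _
  ring

theorem ev_lat (v : Fin n → ℤ) (φ : (Fin n → ℤ) →+ ℝ) : ev (lat v) φ = φ v := by
  rw [hom_sum_real]
  rfl

theorem ev_hull (S : Finset (Fin n → ℤ)) (x : Fin n → ℝ)
    (hx : x ∈ convexHull ℝ (lat '' (S : Set (Fin n → ℤ)))) (χ : (Fin n → ℤ) →+ ℝ) (d : ℝ)
    (h : ∀ v ∈ S, 0 ≤ χ v + d) : 0 ≤ ev x χ + d := by
  have hconv : Convex ℝ {y : Fin n → ℝ | 0 ≤ ev y χ + d} := by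
    intro y hy z hz a b ha hb hab
    have hy' : 0 ≤ ev y χ + d := hy
    have hz' : 0 ≤ ev z χ + d := hz
    show 0 ≤ ev (a • y + b • z) χ + d
    have e : ev (a • y + b • z) χ = a * ev y χ + b * ev z χ := by
      unfold ev
      rw [Finset.mul_sum, Finset.mul_sum, ← Finset.sum_add_distrib]
      apply Finset.sum_congr rfl
      intro j _
      show _ * (a * y j + b * z j) = _
      ring
    rw [e]
    have : a * ev y χ + b * ev z χ + d = a * (ev y χ + d) + b * (ev z χ + d) := by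
      have : d = (a + b) * d := by rw [hab, one_mul]
      nth_rewrite 1 [this]
      ring
    rw [this]
    positivity
  have hsub : lat '' (S : Set (Fin n → ℤ)) ⊆ {y : Fin n → ℝ | 0 ≤ ev y χ + d} := by
    rintro y ⟨v, hv, rfl⟩
    show 0 ≤ ev (lat v) χ + d
    rw [ev_lat]
    exact h v hv
  exact convexHull_min hsub hconv hx

/-- a real point as an affine combination of the vertices of a unimodular simplex -/
theorem combo (C : Finset (Fin n → ℤ)) (ψ : (Fin n → ℤ) → (Fin n → ℤ) →+ ℤ)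
    (c : (Fin n → ℤ) → ℤ) (g2 : ∀ v, ∑ p ∈ C, (ψ p v + c p) = 1)
    (g3 : ∀ v, ∑ p ∈ C, (ψ p v + c p) • p = v) (x : Fin n → ℝ) :
    ∑ p ∈ C, (ev x ((Int.castAddHom ℝ).comp (ψ p)) + c p) = 1 ∧
    ∑ p ∈ C, (ev x ((Int.castAddHom ℝ).comp (ψ p)) + c p) • lat p = x := by
  have a2 : ∑ p ∈ C, c p = 1 := by
    have := g2 0
    simpa using this
  have a3 : ∀ i, ∑ p ∈ C, c p * p i = 0 := by
    intro i
    have := congrArg (fun f => f i) (g3 0)
    simpa [Finset.sum_apply] using this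
  have b2 : ∀ j : Fin n, ∑ p ∈ C, ψ p (Pi.single j 1) = 0 := by
    intro j
    have := g2 (Pi.single j 1)
    rw [Finset.sum_add_distrib, a2] at this
    linarith
  have b3 : ∀ i j : Fin n, ∑ p ∈ C, ψ p (Pi.single j 1) * p i = if i = j then 1 else 0 := by
    intro i j
    have h1 := congrArg (fun f => f i) (g3 (Pi.single j 1))
    have h2 : ∑ p ∈ C, (ψ p (Pi.single j 1) + c p) * p i = (Pi.single j 1 : Fin n → ℤ) i := by
      rw [← h1]
      simp only [Finset.sum_apply]
      apply Finset.sum_congr rfl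
      intro p _
      rfl
    have h3 : ∑ p ∈ C, (ψ p (Pi.single j 1) + c p) * p i
        = ∑ p ∈ C, ψ p (Pi.single j 1) * p i + ∑ p ∈ C, c p * p i := by
      rw [← Finset.sum_add_distrib]
      apply Finset.sum_congr rfl
      intro p _
      ring
    rw [h3, a3 i, add_zero] at h2
    rw [h2, Pi.single_apply]
  have hev : ∀ p, ev x ((Int.castAddHom ℝ).comp (ψ p)) = ∑ j, ((ψ p (Pi.single j 1) : ℤ) : ℝ) * x j :=
    fun p => rfl
  constructor
  · rw [Finset.sum_add_distrib]
    simp only [hev]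
    rw [Finset.sum_comm]
    have h1 : ∀ j : Fin n, ∑ p ∈ C, ((ψ p (Pi.single j 1) : ℤ) : ℝ) * x j = 0 := by
      intro j
      rw [← Finset.sum_mul]
      have : ∑ p ∈ C, ((ψ p (Pi.single j 1) : ℤ) : ℝ) = 0 := by
        exact_mod_cast b2 j
      rw [this, zero_mul]
    rw [Finset.sum_congr rfl (fun j _ => h1 j), Finset.sum_const_zero, zero_add]
    exact_mod_cast a2
  · funext i
    rw [Finset.sum_apply]
    have h0 : ∀ p ∈ C, ((ev x ((Int.castAddHom ℝ).comp (ψ p)) + c p) • lat p) i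
        = ∑ j, ((ψ p (Pi.single j 1) * p i : ℤ) : ℝ) * x j + ((c p * p i : ℤ) : ℝ) := by
      intro p _
      show (ev x ((Int.castAddHom ℝ).comp (ψ p)) + c p) * (p i : ℝ) = _
      rw [hev, add_mul, Finset.sum_mul]
      push_cast
      congr 1
      apply Finset.sum_congr rfl
      intro j _
      ring
    rw [Finset.sum_congr rfl h0, Finset.sum_add_distrib, Finset.sum_comm]
    have h1 : ∑ p ∈ C, ((c p * p i : ℤ) : ℝ) = 0 := by
      exact_mod_cast a3 i
    have h2 : ∀ j : Fin n, ∑ p ∈ C, ((ψ p (Pi.single j 1) * p i : ℤ) : ℝ) * x j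
        = (if i = j then 1 else 0) * x j := by
      intro j
      rw [← Finset.sum_mul]
      have h3 : ∑ p ∈ C, ((ψ p (Pi.single j 1) * p i : ℤ) : ℝ) = ((if i = j then 1 else 0 : ℤ) : ℝ) := by
        exact_mod_cast b3 i j
      rw [h3]
      push_cast
      rfl
    rw [Finset.sum_congr rfl (fun j _ => h2 j), h1, add_zero]
    simp

theorem top_of_uni (C : Finset (Fin n → ℤ)) (h : Uni C) :
    affineSpan ℝ (lat '' (C : Set (Fin n → ℤ))) = ⊤ := by
  classical
  obtain ⟨ψ, c, -, g2, g3⟩ := h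
  have hne : C.Nonempty := by
    by_contra hcon
    rw [Finset.not_nonempty_iff_eq_empty] at hcon
    have := g2 0
    rw [hcon] at this
    simp at this
  obtain ⟨p0, hp0⟩ := hne
  rw [eq_top_iff]
  intro x _
  obtain ⟨h1, h2⟩ := combo C ψ c g2 g3 x
  set A := affineSpan ℝ (lat '' (C : Set (Fin n → ℤ))) with hA
  have hmem : ∀ p ∈ C, lat p ∈ A := by
    intro p hp
    exact subset_affineSpan ℝ _ ⟨p, hp, rfl⟩
  have hdir : ∑ p ∈ C, (ev x ((Int.castAddHom ℝ).comp (ψ p)) + c p) • (lat p - lat p0)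
      ∈ A.direction := by
    apply Submodule.sum_mem
    intro p hp
    apply Submodule.smul_mem
    exact AffineSubspace.vsub_mem_direction (hmem p hp) (hmem p0 hp0)
  have hx : x = (∑ p ∈ C, (ev x ((Int.castAddHom ℝ).comp (ψ p)) + c p) • (lat p - lat p0)) + lat p0 := by
    simp only [smul_sub]
    rw [Finset.sum_sub_distrib, h2, ← Finset.sum_smul, h1, one_smul]
    abel
  rw [hx]
  exact AffineSubspace.vadd_mem_of_mem_direction hdir (hmem p0 hp0)

/-- points of a face -/
theorem hull_face (σ : Finset (Fin n → ℤ)) (x : Fin n → ℝ)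
    (hx : x ∈ convexHull ℝ (lat '' (σ : Set (Fin n → ℤ)))) (g : Fin n → ℝ) (b : ℝ)
    (hg : ∀ v ∈ σ, 0 ≤ ∑ i, g i * lat v i + b) (hx0 : ∑ i, g i * x i + b = 0)
    (R : Set (Fin n → ℤ)) (hR : ∀ v ∈ σ, ∑ i, g i * lat v i + b = 0 → v ∈ R) :
    x ∈ convexHull ℝ (lat '' R) := by
  classical
  rw [← Finset.coe_image, Finset.mem_convexHull'] at hx
  obtain ⟨w, hw0, hw1, hwx⟩ := hx
  have hsum : ∑ y ∈ σ.image lat, w y * (∑ i, g i * y i + b) = 0 := by
    have h1 : ∑ y ∈ σ.image lat, w y * (∑ i, g i * y i + b)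
        = ∑ i, g i * (∑ y ∈ σ.image lat, w y • y) i + b * ∑ y ∈ σ.image lat, w y := by
      have h2 : ∀ i, (∑ y ∈ σ.image lat, w y • y) i = ∑ y ∈ σ.image lat, w y * y i := by
        intro i
        rw [Finset.sum_apply]
        rfl
      simp only [h2, mul_add, Finset.sum_add_distrib, Finset.mul_sum]
      congr 1
      · rw [Finset.sum_comm]
        apply Finset.sum_congr rfl
        intro i _
        apply Finset.sum_congr rfl
        intro y _
        ring
      · apply Finset.sum_congr rfl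
        intro y _
        ring
    rw [h1, hwx, hw1, mul_one, hx0]
  have hnn : ∀ y ∈ σ.image lat, 0 ≤ w y * (∑ i, g i * y i + b) := by
    intro y hy
    apply mul_nonneg (hw0 y hy)
    rw [Finset.mem_image] at hy
    obtain ⟨v, hv, rfl⟩ := hy
    exact hg v hv
  have hz := (Finset.sum_eq_zero_iff_of_nonneg hnn).mp hsum
  set F := (σ.image lat).filter (fun y => w y ≠ 0) with hF
  have hFs : ∀ y ∈ F, y ∈ lat '' R := by
    intro y hy
    rw [hF, Finset.mem_filter] at hy
    obtain ⟨hy1, hy2⟩ := hy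
    have h1 := (mul_eq_zero.mp (hz y hy1)).resolve_left hy2
    rw [Finset.mem_image] at hy1
    obtain ⟨v, hv, rfl⟩ := hy1
    exact ⟨v, hR v hv h1, rfl⟩
  have hxF : x = ∑ y ∈ F, w y • y := by
    rw [← hwx, hF, Finset.sum_filter]
    apply Finset.sum_congr rfl
    intro y _
    by_cases h : w y = 0
    · rw [if_neg (not_not.mpr h), h, zero_smul]
    · rw [if_pos h]
  have h1F : ∑ y ∈ F, w y = 1 := by
    rw [← hw1, hF, Finset.sum_filter]
    apply Finset.sum_congr rfl
    intro y _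
    by_cases h : w y = 0
    · rw [if_neg (not_not.mpr h), h]
    · rw [if_pos h]
  have hmem : x ∈ convexHull ℝ (F : Set (Fin n → ℝ)) := by
    rw [Finset.mem_convexHull']
    exact ⟨w, fun y hy => hw0 y (Finset.mem_filter.mp hy).1, h1F, hxF.symm⟩
  exact convexHull_mono (fun y hy => hFs y hy) hmem

/-- the homomorphism with the given coefficients -/
noncomputable def homOf (c : Fin n → ℝ) : (Fin n → ℤ) →+ ℝ where
  toFun v := ∑ i, c i * lat v i
  map_zero' := by simp [lat]
  map_add' u v := by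
    rw [← Finset.sum_add_distrib]
    apply Finset.sum_congr rfl
    intro i _
    simp [lat]
    ring

theorem homOf_apply (c : Fin n → ℝ) (v : Fin n → ℤ) : homOf c v = ∑ i, c i * lat v i := rfl

theorem homOf_coef (φ : (Fin n → ℤ) →+ ℝ) : homOf (fun i => φ (Pi.single i 1)) = φ := by
  apply AddMonoidHom.ext
  intro v
  rw [homOf_apply, hom_sum_real φ v]
  rfl

/-- the triangulation given by heights -/
theorem isRUT_of_RLw (P : Set (Fin n → ℝ)) (S : Finset (Fin n → ℤ)) (ω : (Fin n → ℤ) → ℝ)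
    (hPS : ∀ v, lat v ∈ P ↔ v ∈ S) (hhull : P = convexHull ℝ (lat '' (S : Set (Fin n → ℤ))))
    (hS : Spans S) (hne : S.Nonempty) (hω : RLw S ω) : ∃ T, IsRUT P T ω := by
  classical
  refine ⟨{σ | ∃ (c : Fin n → ℝ) (b : ℝ),
    (∀ v : Fin n → ℤ, lat v ∈ P → ∑ i, c i * lat v i + b ≤ ω v) ∧
    (∀ v : Fin n → ℤ, v ∈ σ ↔ lat v ∈ P ∧ ∑ i, c i * lat v i + b = ω v) ∧
    affineSpan ℝ (lat '' (σ : Set (Fin n → ℤ))) = ⊤}, ?_, ?_, ?_, ?_⟩
  · rintro σ ⟨c, b, h1, h2, h3⟩
    have hσ : σ = contact S ω (homOf c) b := by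
      ext v
      rw [h2, mem_contact, homOf_apply, hPS]
    refine ⟨fun v hv => ((h2 v).mp hv).1, ?_⟩
    apply uni_enum
    have hsp := spans_of_top σ h3
    rw [hσ] at hsp ⊢
    apply hω _ _ _ hsp
    intro v hv
    rw [homOf_apply]
    exact h1 v ((hPS v).mpr hv)
  · apply Set.Subset.antisymm
    · intro x hx
      rw [Set.mem_iUnion₂] at hx
      obtain ⟨σ, ⟨c, b, h1, h2, h3⟩, hx⟩ := hx
      rw [hhull]
      refine convexHull_mono ?_ hx
      rintro y ⟨v, hv, rfl⟩
      exact ⟨v, (hPS v).mp ((h2 v).mp hv).1, rfl⟩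
    · intro x hx
      rw [hhull] at hx
      obtain ⟨φ, b, h1, h2, ψ, c, g2, g3, g4⟩ := exists_cell S ω hω hS hne (ev x) (ev_add x)
        (ev_hull S x hx)
      rw [Set.mem_iUnion₂]
      refine ⟨contact S ω φ b, ⟨fun i => φ (Pi.single i 1), b, ?_, ?_, ?_⟩, ?_⟩
      · intro v hv
        rw [← homOf_apply, homOf_coef]
        exact h1 v ((hPS v).mp hv)
      · intro v
        rw [← homOf_apply, homOf_coef, mem_contact, hPS]
      · exact top_of_uni _ (hω _ _ h1 h2)
      · obtain ⟨k1, k2⟩ := combo _ ψ c g2 g3 x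
        rw [← k2]
        apply (convex_convexHull ℝ _).sum_mem g4 k1
        intro p hp
        exact subset_convexHull ℝ _ ⟨p, hp, rfl⟩
  · rintro σ ⟨c1, b1, h1, h2, h3⟩ τ ⟨c2, b2, k1, k2, k3⟩
    apply Set.Subset.antisymm
    · rintro x ⟨hxσ, hxτ⟩
      have hdiff : ∀ y : Fin n → ℝ, ∑ i, (c1 i - c2 i) * y i + (b1 - b2)
          = (∑ i, c1 i * y i + b1) - (∑ i, c2 i * y i + b2) := by
        intro y
        simp only [sub_mul, Finset.sum_sub_distrib]
        ring
      have hneg : ∀ y : Fin n → ℝ, ∑ i, (c2 i - c1 i) * y i + (b2 - b1)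
          = (∑ i, c2 i * y i + b2) - (∑ i, c1 i * y i + b1) := by
        intro y
        simp only [sub_mul, Finset.sum_sub_distrib]
        ring
      have hσ0 : ∀ v ∈ σ, 0 ≤ ∑ i, (c1 i - c2 i) * lat v i + (b1 - b2) := by
        intro v hv
        rw [hdiff, ((h2 v).mp hv).2]
        have := k1 v ((h2 v).mp hv).1
        linarith
      have hτ0 : ∀ v ∈ τ, 0 ≤ ∑ i, (c2 i - c1 i) * lat v i + (b2 - b1) := by
        intro v hv
        rw [hneg, ((k2 v).mp hv).2]
        have := h1 v ((k2 v).mp hv).1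
        linarith
      have hx1 : 0 ≤ ∑ i, (c1 i - c2 i) * x i + (b1 - b2) := by
        have := ev_hull σ x hxσ (homOf (fun i => c1 i - c2 i)) (b1 - b2) hσ0
        have e : ev x (homOf (fun i => c1 i - c2 i)) = ∑ i, (c1 i - c2 i) * x i := by
          unfold ev
          apply Finset.sum_congr rfl
          intro j _
          rw [homOf_apply]
          simp [lat, Pi.single_apply]
        rw [e] at this
        exact this
      have hx2 : 0 ≤ ∑ i, (c2 i - c1 i) * x i + (b2 - b1) := by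
        have := ev_hull τ x hxτ (homOf (fun i => c2 i - c1 i)) (b2 - b1) hτ0
        have e : ev x (homOf (fun i => c2 i - c1 i)) = ∑ i, (c2 i - c1 i) * x i := by
          unfold ev
          apply Finset.sum_congr rfl
          intro j _
          rw [homOf_apply]
          simp [lat, Pi.single_apply]
        rw [e] at this
        exact this
      have hx0 : ∑ i, (c1 i - c2 i) * x i + (b1 - b2) = 0 := by
        rw [hneg] at hx2
        rw [hdiff] at hx1 ⊢
        linarith
      refine hull_face σ x hxσ _ _ hσ0 hx0 _ ?_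
      intro v hv hv0
      refine ⟨hv, ?_⟩
      rw [Finset.mem_coe, k2]
      have e1 := (h2 v).mp hv
      refine ⟨e1.1, ?_⟩
      rw [hdiff, e1.2] at hv0
      linarith
    · apply Set.subset_inter
      · exact convexHull_mono (Set.image_mono Set.inter_subset_left)
      · exact convexHull_mono (Set.image_mono Set.inter_subset_right)
  · intro σ
    exact Iff.rfl

end real_part

end Pool.Agent.LHT
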